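import Pool.Agent.Lib.MP_630b78_co.NG.TwE

/-!
# Words in two letters (R3)
-/

namespace NG

open MvPolynomial EllHall

variable {K : Type} [Field K]

private theorem wd_append (c : ℕ) (v w : List Bool) : wd c (v ++ w) = wd c v ++ wd c w := List.map_append

private theorem wd_false (c : ℕ) (w : List Bool) : wd c (false :: w) = (c : ℤ) :: wd c w := rfl

private theorem wd_true (c : ℕ) (w : List Bool) : wd c (true :: w) = ((c : ℤ) + 1) :: wd c w := rfl

private theorem wd_nil (c : ℕ) : wd c [] = [] := rfl

private theorem wd_take (c : ℕ) (w : List Bool) (p : ℕ) : (wd c w).take p = wd c (w.take p) := List.map_take.symm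

private theorem wd_drop (c : ℕ) (w : List Bool) (p : ℕ) : (wd c w).drop p = wd c (w.drop p) := List.map_drop.symm

private theorem wd_length (c : ℕ) (w : List Bool) : (wd c w).length = w.length := List.length_map _

/-- the word at the position `p` -/
private theorem split (w : List Bool) {p : ℕ} (hp : p < w.length) :
    w.take (p + 1) = w.take p ++ [w.getD p false] ∧ w.drop p = w.getD p false :: w.drop (p + 1) := by
  have h1 : w.getD p false = w[p] := (List.getD_eq_getElem w false hp)
  rw [h1]
  exact ⟨(List.take_concat_get' w p hp).symm, List.drop_eq_getElem_cons hp⟩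

private theorem wd_getD (c : ℕ) (w : List Bool) {p : ℕ} (hp : p < w.length) :
    (wd c w).getD p 0 = if w.getD p false then (c : ℤ) + 1 else (c : ℤ) := by
  have h1 : w.getD p false = w[p] := (List.getD_eq_getElem w false hp)
  have h2 : p < (wd c w).length := by rwa [wd_length]
  rw [h1, List.getD_eq_getElem _ _ h2]
  exact List.getElem_map _

/-- the relation (R2) for a word, also the empty one -/
private theorem R2' [CharZero K] (q t : K) (c : ℕ) (w : List Bool) (l : ℤ) :
    (1 - q * t) • (Dz q t l * Es q t (wd c w) - Es q t (wd c w) * Dz q t l) = ((1 - q) * (1 - t)) • RR q t l (wd c w) := by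
  rcases List.eq_nil_or_concat (wd c w) with h | ⟨β, m, h⟩
  · rw [h]
    have h1 : RR q t l ([] : List ℤ) = 0 := by
      unfold RR
      rw [List.length_nil, Finset.range_zero, Finset.sum_empty, sub_zero, List.nil_append, sub_self]
    have h2 : Es q t ([] : List ℤ) = 1 := rfl
    rw [h1, h2, mul_one, one_mul, sub_self, smul_zero, smul_zero]
  · rw [h, List.concat_eq_append]
    exact R2 q t β m l

private theorem tel (n : ℕ) (J : ℕ → Module.End K (MvPolynomial ℕ K)) :
    ∑ p ∈ Finset.range n, (J p - J (p + 1)) = J 0 - J n := Finset.sum_range_sub' J n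

private theorem solve {x M : K} (hx : x ≠ 1) {a b : Module.End K (MvPolynomial ℕ K)}
    (h : (1 - x) • a = M • ((1 - x) • b)) : a = M • b := by
  have h1 : 1 - x ≠ 0 := sub_ne_zero.2 (Ne.symm hx)
  rw [smul_comm] at h
  have h2 := congrArg (fun z => (1 - x)⁻¹ • z) h
  simp only [smul_smul, inv_mul_cancel₀ h1, one_smul] at h2
  rw [← mul_assoc, inv_mul_cancel₀ h1, one_mul] at h2
  exact h2

private theorem solve' {x M : K} (hx : x ≠ 1) {a b : Module.End K (MvPolynomial ℕ K)}
    (h : (1 - x) • a = M • -((1 - x) • b)) : -a = M • b := by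
  refine solve hx ?_
  rw [smul_neg, h, smul_neg, neg_neg]

theorem R3a [CharZero K] (q t : K) (hx : q * t ≠ 1) (c : ℕ) (w : List Bool) :
    Es q t (wd c w) * Dz q t c - Dz q t c * Es q t (wd c w) = ((1 - q) * (1 - t)) • ∑ p ∈ Finset.range w.length,
      if w.getD p false then Es q t (wd c (w.take (p + 1) ++ false :: w.drop (p + 1))) else 0 := by
  obtain ⟨J, hJ⟩ : ∃ J : ℕ → Module.End K (MvPolynomial ℕ K), J = fun i => Es q t (wd c (w.take i ++ false :: w.drop i)) :=
    ⟨_, rfl⟩
  have h0 : Es q t ((c : ℤ) :: wd c w) = J 0 := by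
    rw [hJ]
    rfl
  have hn : Es q t (wd c w ++ [(c : ℤ)]) = J w.length := by
    rw [hJ]
    change _ = Es q t (wd c (w.take w.length ++ false :: w.drop w.length))
    rw [List.take_length, List.drop_length, wd_append, wd_false, wd_nil]
  have hRR : RR q t (c : ℤ) (wd c w) = -((1 - q * t) • ∑ p ∈ Finset.range w.length, if w.getD p false then J (p + 1) else 0) := by
    unfold RR
    rw [h0, hn, ← tel, wd_length, ← Finset.sum_sub_distrib, Finset.smul_sum, ← Finset.sum_neg_distrib]
    refine Finset.sum_congr rfl fun p hp => ?_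
    have hp' := Finset.mem_range.1 hp
    obtain ⟨s1, s2⟩ := split w hp'
    have e1 : J p = Es q t (wd c (w.take p ++ false :: w.getD p false :: w.drop (p + 1))) := by
      rw [hJ]
      change Es q t (wd c (w.take p ++ false :: w.drop p)) = _
      rw [s2]
    have e2 : J (p + 1) = Es q t (wd c (w.take p ++ w.getD p false :: false :: w.drop (p + 1))) := by
      rw [hJ]
      change Es q t (wd c (w.take (p + 1) ++ false :: w.drop (p + 1))) = _
      rw [s1, List.append_assoc]
      rfl
    rw [wd_getD c w hp', wd_take, wd_drop]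
    by_cases hw : w.getD p false = true
    · rw [if_pos hw, if_pos hw, isum_one]
      rw [hw] at e1 e2
      have h1 := R1 q t (wd c (w.take p)) (c : ℤ) ((c : ℤ) + 1) (wd c (w.drop (p + 1)))
      rw [wd_append, wd_false, wd_true] at e1
      rw [wd_append, wd_true, wd_false] at e2
      rw [add_sub_cancel_right, ← e1, ← e2] at h1
      rw [show (c : ℤ) + 1 + (c : ℤ) - (c : ℤ) = (c : ℤ) + 1 by ring]
      rw [h1, sub_smul, one_smul]
      abel
    · rw [if_neg hw, if_neg hw, isum_self, sub_zero, smul_zero, neg_zero, e1, e2]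
      have hw' : w.getD p false = false := Bool.eq_false_of_not_eq_true hw
      rw [hw', sub_self]
  have h1 := R2' q t c w (c : ℤ)
  rw [hRR] at h1
  have h2 := solve' hx h1
  rw [← neg_sub, h2, hJ]

theorem R3b [CharZero K] (q t : K) (hx : q * t ≠ 1) (c : ℕ) (w : List Bool) :
    Dz q t (c + 1) * Es q t (wd c w) - Es q t (wd c w) * Dz q t (c + 1) = ((1 - q) * (1 - t)) • ∑ p ∈ Finset.range w.length,
      if w.getD p false then 0 else Es q t (wd c (w.take p ++ true :: w.drop p)) := by
  obtain ⟨J, hJ⟩ : ∃ J : ℕ → Module.End K (MvPolynomial ℕ K), J = fun i => Es q t (wd c (w.take i ++ true :: w.drop i)) :=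
    ⟨_, rfl⟩
  have h0 : Es q t (((c : ℤ) + 1) :: wd c w) = J 0 := by
    rw [hJ]
    rfl
  have hn : Es q t (wd c w ++ [(c : ℤ) + 1]) = J w.length := by
    rw [hJ]
    change _ = Es q t (wd c (w.take w.length ++ true :: w.drop w.length))
    rw [List.take_length, List.drop_length, wd_append, wd_true, wd_nil]
  have hRR : RR q t ((c : ℤ) + 1) (wd c w) = (1 - q * t) • ∑ p ∈ Finset.range w.length, if w.getD p false then 0 else J p := by
    unfold RR
    rw [h0, hn, ← tel, wd_length, ← Finset.sum_sub_distrib, Finset.smul_sum]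
    refine Finset.sum_congr rfl fun p hp => ?_
    have hp' := Finset.mem_range.1 hp
    obtain ⟨s1, s2⟩ := split w hp'
    have e1 : J p = Es q t (wd c (w.take p ++ true :: w.getD p false :: w.drop (p + 1))) := by
      rw [hJ]
      change Es q t (wd c (w.take p ++ true :: w.drop p)) = _
      rw [s2]
    have e2 : J (p + 1) = Es q t (wd c (w.take p ++ w.getD p false :: true :: w.drop (p + 1))) := by
      rw [hJ]
      change Es q t (wd c (w.take (p + 1) ++ true :: w.drop (p + 1))) = _
      rw [s1, List.append_assoc]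
      rfl
    rw [wd_getD c w hp', wd_take, wd_drop]
    by_cases hw : w.getD p false = true
    · rw [if_pos hw, if_pos hw, isum_self, sub_zero, smul_zero, e1, e2, hw, sub_self]
    · rw [if_neg hw, if_neg hw, isum_one']
      have hw' : w.getD p false = false := Bool.eq_false_of_not_eq_true hw
      rw [hw'] at e1 e2
      have h1 := R1 q t (wd c (w.take p)) (c : ℤ) ((c : ℤ) + 1) (wd c (w.drop (p + 1)))
      rw [wd_append, wd_true, wd_false] at e1
      rw [wd_append, wd_false, wd_true] at e2
      rw [add_sub_cancel_right, ← e1, ← e2] at h1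
      rw [show (c : ℤ) + ((c : ℤ) + 1) - (c : ℤ) = (c : ℤ) + 1 by ring]
      rw [h1, sub_smul, one_smul]
      abel
  have h1 := R2' q t c w ((c : ℤ) + 1)
  rw [hRR] at h1
  have h2 := solve hx h1
  rw [h2, hJ]

end NG
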