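import Pool.Agent.Lib.MP_630b78_co.NG.FreeB
import Pool.Agent.Lib.MP_630b78_co.NG.Ins

/-!
# The first pair
-/

namespace NG

open MvPolynomial EllHall

variable {K : Type} [Field K]

private theorem acta_lin (q t : K) (c : ℕ) (X : Module.End K (MvPolynomial ℕ K)) (d : FA K →ₗ[K] FA K)
    (h : ∀ w, X * Es q t (wd c w) - Es q t (wd c w) * X = ((1 - q) * (1 - t)) • EF q t c (d (mo K w))) :
    Act q t c X d := by
  have key : (LinearMap.mulLeft K X ∘ₗ EF q t c - LinearMap.mulRight K X ∘ₗ EF q t c) =
      ((1 - q) * (1 - t)) • (EF q t c ∘ₗ d) := by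
    refine lin_ext _ _ fun w => ?_
    have h1 := h w
    rw [← EF_mo] at h1
    simpa using h1
  intro x
  have h2 := LinearMap.congr_fun key x
  simpa using h2

private theorem acta_take (w : List Bool) (p : ℕ) (hp : p < w.length) (hw : w.getD p false = true) :
    w.take p ++ [true] = w.take (p + 1) := by
  rw [List.take_add_one, List.getElem?_eq_getElem hp]
  rw [List.getD_eq_getElem _ _ hp] at hw
  simp [hw]

private theorem acta_drop (w : List Bool) (p : ℕ) (hp : p < w.length) (hw : w.getD p false = false) :
    false :: w.drop (p + 1) = w.drop p := by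
  rw [List.drop_eq_getElem_cons hp]
  rw [List.getD_eq_getElem _ _ hp] at hw
  rw [hw]

private theorem acta_wf (q t : K) (c : ℕ) : Es q t (wd c [false]) = Dz q t c := by
  simp [wd, Es, EE]

private theorem acta_wt (q t : K) (c : ℕ) : Es q t (wd c [true]) = Dz q t (c + 1) := by
  simp [wd, Es, EE]

theorem base_pair [CharZero K] (q t : K) (hx : q * t ≠ 1) (c : ℕ) : ∃ d d', Pair q t c [false] [true] d d' := by
  obtain ⟨d, hd, hδ⟩ := exists_der (K := K) (fun x => if x then - mo K [true, false] else 0)
  obtain ⟨d', hd', hδ'⟩ := exists_der (K := K) (fun x => if x then 0 else mo K [true, false])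
  refine ⟨d, d', hd, hd', ?_, ?_, ?_, ?_, ?_, ?_⟩
  · refine acta_lin q t c _ d fun w => ?_
    rw [acta_wf, hd.mo w, map_sum]
    have h3 := R3a q t hx c w
    rw [← neg_sub, h3]
    refine (smul_neg _ _).symm.trans ?_
    congr 1
    refine (Finset.sum_neg_distrib _).symm.trans ?_
    refine Finset.sum_congr rfl fun p hp => ?_
    rw [hδ]
    by_cases hw : w.getD p false = true
    · rw [if_pos hw, if_pos hw, mul_neg, neg_mul, map_neg, ← mo_append, ← mo_append, EF_mo,
        ← acta_take w p (Finset.mem_range.1 hp) hw]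
      simp
    · rw [if_neg hw, if_neg hw]
      simp
  · refine acta_lin q t c _ d' fun w => ?_
    rw [acta_wt, hd'.mo w, map_sum]
    have h3 := R3b q t hx c w
    rw [h3]
    congr 1
    refine Finset.sum_congr rfl fun p hp => ?_
    rw [hδ']
    by_cases hw : w.getD p false = true
    · rw [if_pos hw, if_pos hw]
      simp
    · have hw' : w.getD p false = false := by simpa using hw
      rw [if_neg hw, if_neg hw, ← mo_append, ← mo_append, EF_mo, ← acta_drop w p (Finset.mem_range.1 hp) hw']
      simp
  · rw [hδ]; simp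
  · rw [hδ]; simp
  · rw [hδ']; simp
  · rw [hδ']; simp

end NG
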