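import Pool.Agent.Lib.MP_630b78_co.NG.FreeA

/-!
# The commutator of two actions
-/

namespace NG

open MvPolynomial EllHall

variable {K : Type} [Field K]

private theorem ring_id {R : Type} [Ring R] (X Y E : R) : (X * Y - Y * X) * E - E * (X * Y - Y * X) =
    (X * (Y * E - E * Y) - (Y * E - E * Y) * X) - (Y * (X * E - E * X) - (X * E - E * X) * Y) := by
  noncomm_ring

private theorem fac (a : K) (X F : Module.End K (MvPolynomial ℕ K)) : X * (a • F) - (a • F) * X = a • (X * F - F * X) := by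
  rw [mul_smul_comm, smul_mul_assoc, smul_sub]

theorem Act.comm {q t : K} {c : ℕ} (hM : (1 - q) * (1 - t) ≠ 0) {X Y Z : Module.End K (MvPolynomial ℕ K)} {d d' : FA K →ₗ[K] FA K}
    (hX : Act q t c X d) (hY : Act q t c Y d') (hZ : ((1 - q) * (1 - t)) • Z = X * Y - Y * X) :
    Act q t c Z (d ∘ₗ d' - d' ∘ₗ d) := by
  intro x
  apply smul_right_injective _ hM
  show ((1 - q) * (1 - t)) • (Z * EF q t c x - EF q t c x * Z) =
    ((1 - q) * (1 - t)) • ((1 - q) * (1 - t)) • EF q t c ((d ∘ₗ d' - d' ∘ₗ d) x)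
  have h2 : EF q t c ((d ∘ₗ d' - d' ∘ₗ d) x) = EF q t c (d (d' x)) - EF q t c (d' (d x)) := by
    rw [LinearMap.sub_apply, LinearMap.comp_apply, LinearMap.comp_apply, map_sub]
  rw [h2, smul_sub, ← smul_mul_assoc, ← mul_smul_comm, hZ, ring_id, hX x, hY x, fac, fac, hX (d' x), hY (d x), smul_sub, smul_sub]

end NG
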