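import Pool.Agent.Lib.MP_630b78_co.NG.FreeA

/-!
# The derivation on `C^n A`
-/

namespace NG

open MvPolynomial EllHall

variable {K : Type} [Field K]

/-- the word `(B A)^n A` -/
def CA (A B : List Bool) (n : ℕ) : List Bool := (List.replicate n (B ++ A)).flatten ++ A

/-- the word `(B A)^i B (B A)^j A` -/
def CB (A B : List Bool) (i j : ℕ) : List Bool :=
  (List.replicate i (B ++ A)).flatten ++ (B ++ ((List.replicate j (B ++ A)).flatten ++ A))

theorem CA_succ (A B : List Bool) (n : ℕ) : CA A B (n + 1) = (B ++ A) ++ CA A B n := by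
  unfold CA
  rw [List.replicate_succ, List.flatten_cons, List.append_assoc]

theorem CB_succ (A B : List Bool) (i j : ℕ) : CB A B (i + 1) j = (B ++ A) ++ CB A B i j := by
  unfold CB
  rw [List.replicate_succ, List.flatten_cons, List.append_assoc]

theorem Pair.dCA {q t : K} {c : ℕ} {A B : List Bool} {d d' : FA K →ₗ[K] FA K} (h : Pair q t c A B d d') (n : ℕ) :
    d' (mo K (CA A B n)) = ∑ i ∈ Finset.range (n + 1), mo K (CB A B i (n - i)) := by
  induction n with
  | zero =>
    have h1 : CA A B 0 = A := rfl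
    have h2 : CB A B 0 (0 - 0) = B ++ A := rfl
    rw [Finset.sum_range_one, h1, h2, h.dA']
  | succ n ih =>
    have h1 : d' (mo K (B ++ A)) = mo K B * mo K (B ++ A) := by
      have h0 : d' (mo K (B ++ A)) = d' (mo K B * mo K A) := by rw [mo_append]
      rw [h0, h.der', h.dB', zero_mul, zero_add, h.dA']
    have h2 : CB A B 0 (n + 1 - 0) = B ++ ((B ++ A) ++ CA A B n) := by
      rw [← CA_succ]
      rfl
    have h3 : ∀ i ∈ Finset.range (n + 1), mo K (CB A B (i + 1) (n + 1 - (i + 1))) = mo K (B ++ A) * mo K (CB A B i (n - i)) := by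
      intro i _
      rw [CB_succ, Nat.add_sub_add_right, mo_append]
    have h4 : ∑ i ∈ Finset.range (n + 1 + 1), mo K (CB A B i (n + 1 - i)) =
        mo K (B ++ A) * ∑ i ∈ Finset.range (n + 1), mo K (CB A B i (n - i)) + mo K B * (mo K (B ++ A) * mo K (CA A B n)) := by
      rw [Finset.sum_range_succ' (fun i => mo K (CB A B i (n + 1 - i))) (n + 1), h2, Finset.sum_congr rfl h3, ← Finset.mul_sum,
        mo_append B (B ++ A ++ CA A B n), mo_append (B ++ A) (CA A B n)]
    rw [h4, CA_succ, mo_append (B ++ A) (CA A B n), h.der', h1, ih, mul_assoc, add_comm]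

end NG
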