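import Pool.Agent.Lib.MP_630b78_co.NG.PairA
import Pool.Agent.Lib.MP_630b78_co.NG.PairB

/-!
# The operators for `C^n A`
-/

namespace NG

open MvPolynomial EllHall

variable {K : Type} [Field K]

variable {q t : K} {c : ℕ} {A B : List Bool} {d d' : FA K →ₗ[K] FA K} {T : ℕ → ℕ → Module.End K (MvPolynomial ℕ K)}

/-- one step: the commutator of two operators with signs -/
private theorem chn_step (hM : (1 - q) * (1 - t) ≠ 0) {A B : List Bool} {d d' : FA K →ₗ[K] FA K} (h : Pair q t c A B d d')
    {X Y Z : Module.End K (MvPolynomial ℕ K)} {m n : ℕ} (hX : X = (-1 : K) ^ m • Es q t (wd c B)) (hY : Y = (-1 : K) ^ n • Es q t (wd c A))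
    (hZ : ((1 - q) * (1 - t)) • Z = X * Y - Y * X) : Z = (-1 : K) ^ (m + n) • Es q t (wd c (B ++ A)) := by
  have h1 : ((1 - q) * (1 - t)) • Z = ((1 - q) * (1 - t)) • ((-1 : K) ^ (m + n) • Es q t (wd c (B ++ A))) := by
    rw [hZ, smul_comm, h.br, hX, hY, smul_mul_smul_comm, smul_mul_smul_comm, mul_comm ((-1 : K) ^ n) ((-1 : K) ^ m), ← pow_add, smul_sub]
  have h2 := congrArg (fun W => ((1 - q) * (1 - t))⁻¹ • W) h1
  simp only [smul_smul, inv_mul_cancel₀ hM, one_smul] at h2
  rw [h2, ← mul_assoc, inv_mul_cancel₀ hM, one_mul]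

theorem T_mid (hM : (1 - q) * (1 - t) ≠ 0) (hT : IsT q t T) (h : Pair q t c A B d d') (u v k l : ℕ) (hu : 1 ≤ u) (hk : 1 ≤ k)
    (hd : u * l = k * v + 1) (hA : T u v = (-1 : K) ^ v • Es q t (wd c A)) (hB : T k l = (-1 : K) ^ l • Es q t (wd c B)) :
    T (k + u) (l + v) = (-1 : K) ^ (l + v) • Es q t (wd c (B ++ A)) := by
  have hl : 1 ≤ l := by
    rcases Nat.eq_zero_or_pos l with h0 | h0
    · rw [h0] at hd
      omega
    · exact h0
  have h1 := hT.step (k + u) (l + v) k l 1 (by omega) (by omega) le_rfl (by omega) (by omega) (by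
    have h2 : (k + u) * l = k * l + u * l := by ring
    rw [h2, hd]
    ring)
  rw [mul_one, mul_one, Nat.add_sub_cancel_left, Nat.add_sub_cancel_left] at h1
  exact chn_step hM h hB hA h1

theorem T_chain (hM : (1 - q) * (1 - t) ≠ 0) (hT : IsT q t T) (h : Pair q t c A B d d') (u v k l : ℕ) (hu : 1 ≤ u) (hk : 1 ≤ k)
    (hd : u * l = k * v + 1) (hA : T u v = (-1 : K) ^ v • Es q t (wd c A)) (hB : T k l = (-1 : K) ^ l • Es q t (wd c B)) (n : ℕ) :
    T ((k + u) * n + u) ((l + v) * n + v) = (-1 : K) ^ ((l + v) * n + v) • Es q t (wd c (CA A B n)) := by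
  have hl : 1 ≤ l := by
    rcases Nat.eq_zero_or_pos l with h0 | h0
    · rw [h0] at hd
      omega
    · exact h0
  have hC := T_mid hM hT h u v k l hu hk hd hA hB
  have key : ∀ n : ℕ, (∃ e e' : FA K →ₗ[K] FA K, Pair q t c (CA A B n) (B ++ A) e e') ∧
      T ((k + u) * n + u) ((l + v) * n + v) = (-1 : K) ^ ((l + v) * n + v) • Es q t (wd c (CA A B n)) := by
    intro n
    induction n with
    | zero =>
      refine ⟨⟨_, _, Pair.left hM h⟩, ?_⟩
      rw [mul_zero, mul_zero, zero_add, zero_add]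
      exact hA
    | succ n ih =>
      obtain ⟨⟨e, e', hp⟩, ih⟩ := ih
      refine ⟨⟨_, _, by
        rw [CA_succ]
        exact Pair.right hM hp⟩, ?_⟩
      have h1 := hT.step ((k + u) * (n + 1) + u) ((l + v) * (n + 1) + v) (k + u) (l + v) 1 (by omega) (by
          have : 0 < (l + v) * (n + 1) := Nat.mul_pos (by omega) (by omega)
          omega) le_rfl (by
          have : k + u ≤ (k + u) * (n + 1) := Nat.le_mul_of_pos_right _ (by omega)
          omega) (by
          have : l + v ≤ (l + v) * (n + 1) := Nat.le_mul_of_pos_right _ (by omega)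
          omega) (by
          have h2 : ((k + u) * (n + 1) + u) * (l + v) = (k + u) * (n + 1) * (l + v) + (u * l + u * v) := by ring
          rw [h2, hd]
          ring)
      have e1 : ((k + u) * (n + 1) + u) * 1 - (k + u) = (k + u) * n + u := by
        have : (k + u) * (n + 1) = (k + u) * n + (k + u) := by ring
        omega
      have e2 : ((l + v) * (n + 1) + v) * 1 - (l + v) = (l + v) * n + v := by
        have : (l + v) * (n + 1) = (l + v) * n + (l + v) := by ring
        omega
      rw [e1, e2, mul_one, mul_one] at h1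
      have h3 := chn_step hM hp hC ih h1
      rw [h3, CA_succ]
      congr 2
      ring
  exact (key n).2

end NG
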