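import Pool.Agent.Lib.MP_630b78_co.NG.Defs

/-!
# Digitized lines
-/

namespace NG

open MvPolynomial EllHall

variable {K : Type} [Field K]

private theorem ClA_ceil {u x n : ℕ} (hu : 1 ≤ u) (h1 : x ≤ n * u) (h2 : n * u < x + u) :
    (x + (u - 1)) / u = n := by
  have h3 : u * n = n * u := Nat.mul_comm u n
  have h4 : (n + 1) * u = n * u + u := Nat.succ_mul n u
  rw [Nat.div_eq_iff (by omega)]
  constructor
  · omega
  · omega

private theorem ClA_spec {u : ℕ} (hu : 1 ≤ u) (x : ℕ) :
    x ≤ (x + (u - 1)) / u * u ∧ (x + (u - 1)) / u * u < x + u := by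
  have h1 := Nat.div_add_mod (x + (u - 1)) u
  have h2 := Nat.mod_lt (x + (u - 1)) (show 0 < u by omega)
  have h3 : (x + (u - 1)) / u * u = u * ((x + (u - 1)) / u) := Nat.mul_comm _ _
  rw [h3]
  constructor <;> omega

private theorem ClA_a {u v k l : ℕ} (hu : 1 ≤ u) (hk : 1 ≤ k) (h : u * l = k * v + 1) {i : ℕ} (hi : i ≤ k) :
    (i * (l + v) + (k + u - 1)) / (k + u) = (i * l + (k - 1)) / k := by
  obtain ⟨h1, h2⟩ := ClA_spec hk (i * l)
  obtain ⟨n, hn⟩ : ∃ n, n = (i * l + (k - 1)) / k := ⟨_, rfl⟩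
  rw [← hn] at h1 h2 ⊢
  have e : k * (i * (l + v)) + i = i * l * (k + u) := by
    have e1 : k * (i * (l + v)) + i = i * l * k + i * (k * v + 1) := by ring
    rw [e1, ← h]
    ring
  refine ClA_ceil (by omega) ?_ ?_
  · have h3 : k * (i * (l + v)) ≤ k * (n * (k + u)) := by
      calc k * (i * (l + v)) ≤ k * (i * (l + v)) + i := Nat.le_add_right _ _
        _ = i * l * (k + u) := e
        _ ≤ n * k * (k + u) := Nat.mul_le_mul_right _ h1
        _ = k * (n * (k + u)) := by ring
    exact Nat.le_of_mul_le_mul_left h3 hk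
  · have h4 : n * k + 1 ≤ i * l + k := h2
    have h5 : (n * k + 1) * (k + u) ≤ (i * l + k) * (k + u) := Nat.mul_le_mul_right _ h4
    have h3 : k * (n * (k + u)) < k * (i * (l + v) + (k + u)) := by
      have e2 : (n * k + 1) * (k + u) = k * (n * (k + u)) + (k + u) := by ring
      have e3 : (i * l + k) * (k + u) = i * l * (k + u) + k * (k + u) := by ring
      have e4 : k * (i * (l + v) + (k + u)) = k * (i * (l + v)) + k * (k + u) := by ring
      rw [e2, e3, ← e] at h5
      rw [e4]
      omega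
    exact Nat.lt_of_mul_lt_mul_left h3

private theorem ClA_b {u v k l : ℕ} (hu : 1 ≤ u) (hk : 1 ≤ k) (h : u * l = k * v + 1) {j : ℕ} (hj : j ≤ u) :
    ((k + j) * (l + v) + (k + u - 1)) / (k + u) = l + (j * v + (u - 1)) / u := by
  obtain ⟨h1, h2⟩ := ClA_spec hu (j * v)
  obtain ⟨n, hn⟩ : ∃ n, n = (j * v + (u - 1)) / u := ⟨_, rfl⟩
  rw [← hn] at h1 h2 ⊢
  have e : u * ((k + j) * (l + v)) = (k + u) * (k * v) + (k + u) * (j * v) + (k + j) := by
    have e1 : u * ((k + j) * (l + v)) = (k + j) * (u * l + u * v) := by ring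
    rw [e1, h]
    ring
  have e' : u * ((l + n) * (k + u)) = (k + u) * (k * v) + (k + u) * (n * u) + (k + u) := by
    have e1 : u * ((l + n) * (k + u)) = (k + u) * (u * l + n * u) := by ring
    rw [e1, h]
    ring
  refine ClA_ceil (by omega) ?_ ?_
  · have h3 : u * ((k + j) * (l + v)) ≤ u * ((l + n) * (k + u)) := by
      rw [e, e']
      have h4 : (k + u) * (j * v) ≤ (k + u) * (n * u) := Nat.mul_le_mul_left _ h1
      omega
    exact Nat.le_of_mul_le_mul_left h3 hu
  · have h3 : u * ((l + n) * (k + u)) < u * ((k + j) * (l + v) + (k + u)) := by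
      rw [Nat.mul_add u, e, e']
      have h4 : n * u + 1 ≤ j * v + u := h2
      have h5 : (k + u) * (n * u + 1) ≤ (k + u) * (j * v + u) := Nat.mul_le_mul_left _ h4
      have e2 : (k + u) * (n * u + 1) = (k + u) * (n * u) + (k + u) := by ring
      have e3 : (k + u) * (j * v + u) = (k + u) * (j * v) + u * (k + u) := by ring
      rw [e2, e3] at h5
      omega
    exact Nat.lt_of_mul_lt_mul_left h3

theorem Cl_append (u v k l : ℕ) (hu : 1 ≤ u) (hk : 1 ≤ k) (h : u * l = k * v + 1) :
    Cl (k + u) (l + v) = Cl k l ++ Cl u v := by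
  unfold Cl
  rw [List.range_add, List.map_append, List.map_map]
  congr 1
  · refine List.map_congr_left fun i hi => ?_
    rw [List.mem_range] at hi
    rw [ClA_a hu hk h (show i + 1 ≤ k by omega), ClA_a hu hk h (show i ≤ k by omega)]
  · refine List.map_congr_left fun j hj => ?_
    rw [List.mem_range] at hj
    simp only [Function.comp_apply]
    rw [show k + j + 1 = k + (j + 1) from rfl, ClA_b hu hk h (show j + 1 ≤ u by omega),
      ClA_b hu hk h (show j ≤ u by omega)]
    push_cast
    ring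

theorem Cl_one (v : ℕ) : Cl 1 v = [(v : ℤ)] := by
  unfold Cl
  rw [List.range_one, List.map_cons, List.map_nil]
  simp

end NG
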