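import Pool.Agent.Lib.MP_630b78_co.NG.Defs

/-!
# Digitized lines and the boundary
-/

namespace NG

open MvPolynomial EllHall

variable {K : Type} [Field K]

private theorem ClB_bdry (a b : ℕ) (ha : 1 ≤ a) (h : Nat.Coprime a b) (i : ℕ) (hi : i ≤ a) :
    TPath.bdry a b 1 i = (i * b + (a - 1)) / a := by
  unfold TPath.bdry
  by_cases h0 : i = 0
  · rw [if_pos h0, h0, Nat.zero_mul, Nat.zero_add]
    exact (Nat.div_eq_of_lt (by omega)).symm
  · rw [if_neg h0]
    by_cases h1 : i = a * 1
    · rw [if_pos h1, h1, mul_one, mul_one, Nat.mul_add_div (by omega), Nat.div_eq_of_lt (a := a - 1) (by omega)]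
      rfl
    · rw [if_neg h1]
      have hlt : i < a := by omega
      have hnd : ¬ a ∣ i * b := by
        intro hd
        have h2 : a ∣ i := h.dvd_of_dvd_mul_right hd
        exact absurd (Nat.le_of_dvd (by omega) h2) (by omega)
      have hr : 1 ≤ i * b % a := Nat.pos_of_ne_zero fun h2 => hnd (Nat.dvd_of_mod_eq_zero h2)
      have hr2 : i * b % a < a := Nat.mod_lt _ (by omega)
      have hq : a * (i * b / a) + i * b % a = i * b := Nat.div_add_mod _ _
      have h3 : i * b + (a - 1) = a * (i * b / a) + (i * b % a + (a - 1)) := by omega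
      rw [h3, Nat.mul_add_div (by omega), mul_comm b i]
      have h4 : (i * b % a + (a - 1)) / a = 1 := by
        rw [Nat.div_eq_iff (by omega)]
        omega
      rw [h4]

theorem Vl_one (a b : ℕ) (ha : 1 ≤ a) (h : Nat.Coprime a b) : Vl a b 1 = Cl a b := by
  unfold Vl Cl
  rw [mul_one]
  refine List.map_congr_left fun i hi => ?_
  have hi' : i < a := List.mem_range.1 hi
  rw [ClB_bdry a b ha h (i + 1) (by omega), ClB_bdry a b ha h i (by omega)]

end NG
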