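import Pool.Agent.Lib.MP_630b78_co.EH.Main
import Pool.Agent.Lib.MP_630b78_co.TP.Defs

/-!
# Operators of the elliptic Hall algebra as shuffle elements: definitions

`X k` is the power sum `p_(k+1)`. `Dz q t k` is the coefficient of `z^k` in `g[X + M/z] ∑_n e_n (-z)^n`; `Es q t β` are Negut's
elements, `Es q t [b_1, ..., b_m] = ∑ (q t)^(r_1 + ...) D_(b_1 + r_1) D_(b_2 - r_1 + r_2) ... D_(b_m - r_(m-1))`.
-/

namespace NG

open MvPolynomial EllHall

section ops

variable {K : Type} [Field K]

/-- `(-1)^z e_z`, zero for negative `z` -/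
noncomputable def ez (K : Type) [Field K] (z : ℤ) : MvPolynomial ℕ K := if 0 ≤ z then (-1) ^ z.toNat * ee K z.toNat else 0

/-- the operator `D_k`, `k ∈ ℤ` -/
noncomputable def Dz (q t : K) (k : ℤ) : Module.End K (MvPolynomial ℕ K) where
  toFun g := (shift q t g).sum fun n c => c * ez K (k + n)
  map_add' g f := by
    rw [map_add]
    exact Polynomial.sum_add_index _ _ _ (fun _ => by simp) (fun _ _ _ => by ring)
  map_smul' a g := by
    rw [map_smul, RingHom.id_apply]
    rw [Polynomial.sum_smul_index' _ _ _ (fun _ => by simp), Polynomial.sum, Polynomial.sum, Finset.smul_sum]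
    exact Finset.sum_congr rfl fun n _ => by rw [smul_mul_assoc]

/-- all the monomials of `g` have weight at most `n` -/
def Le (n : ℤ) (g : MvPolynomial ℕ K) : Prop := ∀ m ∈ g.support, (Finsupp.weight (fun k : ℕ => k + 1) m : ℤ) ≤ n

/-- `T` raises the weight by at most `n` -/
def DegBy (n : ℤ) (T : Module.End K (MvPolynomial ℕ K)) : Prop := ∀ m g, Le m g → Le (m + n) (T g)

/-- a locally finite family of operators -/
def LF (T : ℕ → Module.End K (MvPolynomial ℕ K)) : Prop := ∀ g, ∃ n, ∀ r, n ≤ r → T r g = 0

open Classical in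
/-- the sum of a locally finite family of operators -/
noncomputable def ls (T : ℕ → Module.End K (MvPolynomial ℕ K)) : Module.End K (MvPolynomial ℕ K) :=
  if h : LF T then
    { toFun := fun g => ∑ r ∈ Finset.range (h g).choose, T r g
      map_add' := by
        intro g f
        have key : ∀ g N, (∀ r, N ≤ r → T r g = 0) → ∑ r ∈ Finset.range (h g).choose, T r g = ∑ r ∈ Finset.range N, T r g := by
          intro g N hN
          rcases le_total N (h g).choose with hl | hl
          · refine (Finset.sum_subset (Finset.range_subset_range.mpr hl) fun r _ hr => hN r ?_).symm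
            exact not_lt.1 fun h' => hr (Finset.mem_range.2 h')
          · refine Finset.sum_subset (Finset.range_subset_range.mpr hl) fun r _ hr => (h g).choose_spec r ?_
            exact not_lt.1 fun h' => hr (Finset.mem_range.2 h')
        have h1 := (h g).choose_spec
        have h2 := (h f).choose_spec
        set N := (h g).choose + (h f).choose with hNdef
        rw [key (g + f) N (fun r hr => by rw [map_add, h1 r (by omega), h2 r (by omega), add_zero]),
          key g N (fun r hr => h1 r (by omega)), key f N (fun r hr => h2 r (by omega)), ← Finset.sum_add_distrib]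
        exact Finset.sum_congr rfl fun r _ => map_add _ _ _
      map_smul' := by
        intro a g
        have key : ∀ g N, (∀ r, N ≤ r → T r g = 0) → ∑ r ∈ Finset.range (h g).choose, T r g = ∑ r ∈ Finset.range N, T r g := by
          intro g N hN
          rcases le_total N (h g).choose with hl | hl
          · refine (Finset.sum_subset (Finset.range_subset_range.mpr hl) fun r _ hr => hN r ?_).symm
            exact not_lt.1 fun h' => hr (Finset.mem_range.2 h')
          · refine Finset.sum_subset (Finset.range_subset_range.mpr hl) fun r _ hr => (h g).choose_spec r ?_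
            exact not_lt.1 fun h' => hr (Finset.mem_range.2 h')
        rw [key (a • g) (h g).choose (fun r hr => by rw [map_smul, (h g).choose_spec r hr, smul_zero]), RingHom.id_apply,
          Finset.smul_sum]
        exact Finset.sum_congr rfl fun r _ => map_smul _ _ _ }
  else 0

/-- Negut's element for the list `b :: γ` -/
noncomputable def EE (q t : K) : ℤ → List ℤ → Module.End K (MvPolynomial ℕ K)
  | b, [] => Dz q t b
  | b, c :: γ => ls fun r => (q * t) ^ r • (Dz q t (b + r) * EE q t (c - r) γ)

/-- Negut's elements, `Es q t [] = 1` -/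
noncomputable def Es (q t : K) : List ℤ → Module.End K (MvPolynomial ℕ K)
  | [] => 1
  | b :: γ => EE q t b γ

/-- the signed sum `∑_(l ≤ X < b) f X - ∑_(b ≤ X < l) f X` -/
noncomputable def isum {A : Type} [AddCommGroup A] (l b : ℤ) (f : ℤ → A) : A :=
  ∑ X ∈ Finset.Ico l b, f X - ∑ X ∈ Finset.Ico b l, f X

/-- `w_0 = 1`, `w_j = -M ∑_(i<j) q^i t^(j-1-i)`, the coefficients of `(1-x)(1-qtx)/((1-qx)(1-tx))` -/
noncomputable def om (q t : K) (j : ℕ) : K :=
  if j = 0 then 1 else -((1 - q) * (1 - t)) * ∑ i ∈ Finset.range j, q ^ i * t ^ (j - 1 - i)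

end ops

section words

/-- the list of numbers of a word: `false` is `c`, `true` is `c + 1` -/
def wd (c : ℕ) (w : List Bool) : List ℤ := w.map fun x => if x then (c : ℤ) + 1 else (c : ℤ)

/-- the differences of `⌈i v / u⌉`, `i = 0, ..., u` -/
def Cl (u v : ℕ) : List ℤ :=
  (List.range u).map fun i => ((((i + 1) * v + (u - 1)) / u : ℕ) : ℤ) - ((((i * v) + (u - 1)) / u : ℕ) : ℤ)

/-- the differences of the boundary `bdry a b k` -/
def Vl (a b k : ℕ) : List ℤ := (List.range (a * k)).map fun i => (TPath.bdry a b k (i + 1) : ℤ) - (TPath.bdry a b k i : ℤ)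

/-- `n` copies of `V 1`, followed by `V k` -/
def VV (V : ℕ → List ℤ) (n k : ℕ) : List ℤ := (List.replicate n (V 1)).flatten ++ V k

/-- `V (i + j)` is `V i` followed by `V j`, with the last entry of `V i` increased and the first one of `V j` decreased by one -/
def Glue (V : ℕ → List ℤ) : Prop := ∀ i j, 1 ≤ i → 1 ≤ j → ∃ (β : List ℤ) (m c : ℤ) (γ : List ℤ),
  V i = β ++ [m] ∧ V j = c :: γ ∧ V (i + j) = β ++ (m + 1) :: (c - 1) :: γ

end words

section free

variable {K : Type} [Field K]

/-- the free algebra on the letters `false, true` -/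
abbrev FA (K : Type) [Field K] := MonoidAlgebra K (FreeMonoid Bool)

/-- a word as an element of the free algebra -/
noncomputable def mo (K : Type) [Field K] (w : List Bool) : FA K := MonoidAlgebra.of K (FreeMonoid Bool) (FreeMonoid.ofList w)

/-- a derivation of the free algebra -/
def IsDer (d : FA K →ₗ[K] FA K) : Prop := ∀ x y, d (x * y) = d x * y + x * d y

/-- the linear map with `mo w ↦ Es q t (wd c w)` -/
noncomputable def EF (q t : K) (c : ℕ) : FA K →ₗ[K] Module.End K (MvPolynomial ℕ K) where
  toFun x := x.coeff.sum fun w a => a • Es q t (wd c (FreeMonoid.toList w))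
  map_add' x y := by
    rw [MonoidAlgebra.coeff_add]
    exact Finsupp.sum_add_index' (fun _ => zero_smul _ _) (fun _ _ _ => add_smul _ _ _)
  map_smul' a x := by
    rw [MonoidAlgebra.coeff_smul, RingHom.id_apply, Finsupp.smul_sum]
    rw [Finsupp.sum_smul_index (h := fun w a => a • Es q t (wd c (FreeMonoid.toList w))) (fun _ => zero_smul _ _)]
    refine Finsupp.sum_congr fun w _ => ?_
    rw [mul_smul]

/-- `[X, E_x] = M E_(d x)` for all `x` -/
def Act (q t : K) (c : ℕ) (X : Module.End K (MvPolynomial ℕ K)) (d : FA K →ₗ[K] FA K) : Prop :=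
  ∀ x, X * EF q t c x - EF q t c x * X = ((1 - q) * (1 - t)) • EF q t c (d x)

/-- a Farey pair of words, with the two derivations -/
structure Pair (q t : K) (c : ℕ) (A B : List Bool) (d d' : FA K →ₗ[K] FA K) : Prop where
  der : IsDer d
  der' : IsDer d'
  act : Act q t c (Es q t (wd c A)) d
  act' : Act q t c (Es q t (wd c B)) d'
  dA : d (mo K A) = 0
  dB : d (mo K B) = - mo K (B ++ A)
  dA' : d' (mo K A) = mo K (B ++ A)
  dB' : d' (mo K B) = 0

/-- `A` ends with `0`, `B` starts with `1`, and `B A` is `A B` with these two letters exchanged -/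
def Swap (A B : List Bool) : Prop := ∃ A0 B0, A = A0 ++ [false] ∧ B = true :: B0 ∧ A0 ++ true :: false :: B0 = B ++ A

end free

section one

variable {K : Type} [Field K]

/-- the symmetric functions `q_d` of the text -/
noncomputable def qd (q t : K) (d : ℕ) : MvPolynomial ℕ K :=
  ∑ j ∈ Finset.range d, ((-(q * t)) ^ j)⁻¹ • hook K j (d - 1 - j)

/-- `E_β(1)` at `t = 1` -/
noncomputable def ps (q : K) (β : List ℤ) : MvPolynomial ℕ K := Es q 1 β 1

/-- `s_k = q^(k-1) E_(V_k)(1)` at `t = 1` -/
noncomputable def sk (q : K) (V : ℕ → List ℤ) (k : ℕ) : MvPolynomial ℕ K := q ^ (k - 1) • ps q (V k)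

/-- `U_0 = 1`, `U_(n+1) = ∑_(j ≤ n) s_(j+1) U_(n-j)` -/
noncomputable def UU (s : ℕ → MvPolynomial ℕ K) : ℕ → MvPolynomial ℕ K
  | 0 => 1
  | n + 1 => ∑ j : Fin (n + 1), s ((j : ℕ) + 1) * UU s (n - j)

/-- the value of `T_(a d, b d)` at `t = 1` -/
noncomputable def kap (q : K) (a b d : ℕ) : MvPolynomial ℕ K :=
  (-1) ^ (b * d) * ∑ k ∈ Finset.range d, ps q (VV (Vl a b) (d - 1 - k) (k + 1))

end one

section real

/-- the value of `G` at the real number `q` -/
noncomputable def evF (q : ℝ) : Polynomial (MvPolynomial ℕ ℚ) →+* MvPolynomial ℕ ℝ :=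
  Polynomial.eval₂RingHom (MvPolynomial.map (algebraMap ℚ ℝ)) (C q)

/-- `X` depends polynomially on `t` -/
def PD (X : ℝ → MvPolynomial ℕ ℝ) : Prop := ∃ F : Polynomial (MvPolynomial ℕ ℝ), ∀ t, X t = F.eval (C t)

/-- the operator `O` depends polynomially on `t` -/
def PO (O : ℝ → Module.End ℝ (MvPolynomial ℕ ℝ)) : Prop := ∀ g, PD fun t => O t g

/-- the operator `T_(a m, b m)` as a sum of Negut's elements -/
noncomputable def GG (q : ℝ) (a b m : ℕ) (t : ℝ) : Module.End ℝ (MvPolynomial ℕ ℝ) :=
  (-1 : ℝ) ^ (b * m) • ∑ k ∈ Finset.range m, Es q t (VV (Vl a b) (m - 1 - k) (k + 1))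

end real

end NG
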