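import Pool.Agent.Lib.MP_630b78_co.NG.Defs
import Pool.Agent.Lib.MP_630b78_co.EH.Newton

/-!
# The operators `D_k`: first properties
-/

namespace NG

open MvPolynomial EllHall

variable {K : Type} [Field K]

private theorem DzA_add {R : Type} [CommRing R] (f : ℕ → R) (p r : Polynomial R) :
    (p + r).sum (fun j c => c * f j) = p.sum (fun j c => c * f j) + r.sum (fun j c => c * f j) :=
  Polynomial.sum_add_index _ _ _ (fun _ => by simp) (fun _ _ _ => by ring)

private theorem DzA_mono {R : Type} [CommRing R] (f : ℕ → R) (n : ℕ) (b : R) :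
    (Polynomial.monomial n b).sum (fun j c => c * f j) = b * f n :=
  Polynomial.sum_monomial_index b _ (by simp)

private theorem DzA_C_mul {R : Type} [CommRing R] (f : ℕ → R) (a : R) (p : Polynomial R) :
    (Polynomial.C a * p).sum (fun j c => c * f j) = a * p.sum (fun j c => c * f j) := by
  induction p using Polynomial.induction_on' with
  | add p r hp hr => rw [mul_add, DzA_add, DzA_add, hp, hr, mul_add]
  | monomial n b => rw [Polynomial.C_mul_monomial, DzA_mono, DzA_mono, mul_assoc]

private theorem DzA_shift {R : Type} [CommRing R] (f : ℕ → R) (k : ℕ) (p : Polynomial R) :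
    (Polynomial.X ^ k * p).sum (fun j c => c * f j) = p.sum (fun j c => c * f (j + k)) := by
  induction p using Polynomial.induction_on' with
  | add p r hp hr => rw [mul_add, DzA_add, hp, hr, DzA_add (fun j => f (j + k))]
  | monomial n b => rw [Polynomial.X_pow_mul_monomial, DzA_mono, DzA_mono (fun j => f (j + k))]

private theorem DzA_apply (q t : K) (k : ℤ) (g : MvPolynomial ℕ K) :
    Dz q t k g = (shift q t g).sum (fun j c => c * ez K (k + j)) := rfl

theorem ez_cast (n : ℕ) : ez K (n : ℤ) = (-1) ^ n * ee K n := by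
  rw [ez, if_pos (Int.natCast_nonneg n), Int.toNat_natCast]

theorem ez_neg {z : ℤ} (hz : z < 0) : ez K z = 0 := by
  rw [ez, if_neg (not_le.mpr hz)]

theorem Dz_one (q t : K) (k : ℤ) : Dz q t k 1 = ez K k := by
  rw [DzA_apply, map_one, ← Polynomial.C_1, ← Polynomial.monomial_zero_left,
    DzA_mono (fun j : ℕ => ez K (k + j)), one_mul, Nat.cast_zero, add_zero]

theorem D0_eq (q t : K) : D0 q t = Dz q t 0 := by
  apply LinearMap.ext
  intro g
  show (shift q t g).sum (fun n c => c * ((-1) ^ n * ee K n)) = (shift q t g).sum (fun n c => c * ez K (0 + n))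
  simp only [zero_add, ez_cast]

theorem Dz_X_mul (q t : K) (k : ℤ) (n : ℕ) (g : MvPolynomial ℕ K) : Dz q t k (X n * g) =
    X n * Dz q t k g + ((1 - q ^ (n + 1)) * (1 - t ^ (n + 1))) • Dz q t (k + n + 1) g := by
  have h : shift q t (X n * g) = Polynomial.C (X n) * shift q t g +
      Polynomial.C (C ((1 - q ^ (n + 1)) * (1 - t ^ (n + 1)))) * (Polynomial.X ^ (n + 1) * shift q t g) := by
    have h1 : shift q t (X n) = Polynomial.C (X n) +
        Polynomial.C (C ((1 - q ^ (n + 1)) * (1 - t ^ (n + 1)))) * Polynomial.X ^ (n + 1) := by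
      simp only [shift, aeval_X]
    rw [map_mul, h1]
    ring
  rw [DzA_apply, h, DzA_add (fun j : ℕ => ez K (k + j)), DzA_C_mul (fun j : ℕ => ez K (k + j)),
    DzA_C_mul (fun j : ℕ => ez K (k + j)), DzA_shift (fun j : ℕ => ez K (k + j)), ← DzA_apply,
    MvPolynomial.smul_eq_C_mul, DzA_apply q t (k + n + 1)]
  have e : ∀ j : ℕ, k + ((j + (n + 1) : ℕ) : ℤ) = k + n + 1 + j := fun j => by push_cast; ring
  simp only [e]

theorem Dz_mul_X (q t : K) (k : ℤ) (n : ℕ) : Dz q t k * LinearMap.mulLeft K (X n) =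
    LinearMap.mulLeft K (X n) * Dz q t k + ((1 - q ^ (n + 1)) * (1 - t ^ (n + 1))) • Dz q t (k + n + 1) := by
  apply LinearMap.ext
  intro g
  exact Dz_X_mul q t k n g

theorem ez_newton [CharZero K] (z : ℤ) (N : ℕ) (hN : z ≤ N) :
    (z : K) • ez K z = -∑ i ∈ Finset.range N, X i * ez K (z - 1 - i) := by
  rcases le_or_gt z 0 with hz | hz
  · have h1 : (z : K) • ez K z = 0 := by
      rcases hz.lt_or_eq with h | h
      · rw [ez_neg h, smul_zero]
      · rw [h, Int.cast_zero, zero_smul]
    rw [h1, Finset.sum_eq_zero, neg_zero]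
    intro i _
    rw [ez_neg (by omega), mul_zero]
  · obtain ⟨l, rfl⟩ : ∃ l : ℕ, z = ((l + 1 : ℕ) : ℤ) := ⟨z.toNat - 1, by omega⟩
    have hl : l + 1 ≤ N := by exact_mod_cast hN
    rw [← Finset.sum_subset (Finset.range_subset_range.mpr hl)]
    · rw [ez_cast, Int.cast_natCast, ← mul_smul_comm, ee_succ, Finset.mul_sum, ← Finset.sum_neg_distrib]
      refine Finset.sum_congr rfl fun i hi => ?_
      have hi' := Finset.mem_range.mp hi
      obtain ⟨m, rfl⟩ : ∃ m, l = i + m := ⟨l - i, by omega⟩
      have e1 : ((i + m + 1 : ℕ) : ℤ) - 1 - i = (m : ℕ) := by push_cast; ring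
      have e2 : i + m - i = m := by omega
      rw [e1, ez_cast, e2]
      have e3 : ((-1 : MvPolynomial ℕ K)) ^ (i + m + 1) * (-1) ^ i = -(-1) ^ m := by
        rw [← pow_add, show i + m + 1 + i = 2 * i + (m + 1) by ring, pow_add, pow_mul, neg_one_sq, one_pow, one_mul,
          pow_succ]
        ring
      linear_combination (X i * ee K m) * e3
    · intro i _ hi
      have hi' : ¬ i < l + 1 := fun h => hi (Finset.mem_range.mpr h)
      rw [ez_neg (by push_cast; omega), mul_zero]

end NG
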