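import Pool.Agent.Lib.MP_630b78_co.NG.Defs

/-!
# The coefficients `w_j`: Newton
-/

namespace NG

open MvPolynomial EllHall

variable {K : Type} [Field K]

theorem om_zero (q t : K) : om q t 0 = 1 := by
  simp [om]

private theorem Om_geo (a : K) : (1 - PowerSeries.C a * PowerSeries.X) * PowerSeries.mk (fun n => a ^ n) = 1 := by
  ext n
  rcases n with _ | n
  · simp
  · rw [sub_mul, one_mul, map_sub, mul_assoc, PowerSeries.coeff_C_mul, PowerSeries.coeff_succ_X_mul, PowerSeries.coeff_mk,
      PowerSeries.coeff_mk, pow_succ', sub_self, PowerSeries.coeff_one, if_neg (Nat.succ_ne_zero n)]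

private theorem Om_eq (q t : K) : PowerSeries.mk (om q t) =
    1 - PowerSeries.C ((1 - q) * (1 - t)) * (PowerSeries.X * (PowerSeries.mk (fun n => q ^ n) * PowerSeries.mk (fun n => t ^ n))) := by
  ext n
  rcases n with _ | n
  · simp [om]
  · rw [PowerSeries.coeff_mk, map_sub, PowerSeries.coeff_C_mul, PowerSeries.coeff_succ_X_mul, PowerSeries.coeff_one,
      if_neg (Nat.succ_ne_zero n), zero_sub, PowerSeries.coeff_mul, om, if_neg (Nat.succ_ne_zero n), neg_mul, Nat.add_sub_cancel]
    simp only [PowerSeries.coeff_mk]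
    rw [Finset.Nat.sum_antidiagonal_eq_sum_range_succ (fun i j => q ^ i * t ^ j) n]

private theorem Om_AN (q t : K) : (1 - PowerSeries.C q * PowerSeries.X) * (1 - PowerSeries.C t * PowerSeries.X) * PowerSeries.mk (om q t) =
    (1 - PowerSeries.C 1 * PowerSeries.X) * (1 - PowerSeries.C (q * t) * PowerSeries.X) := by
  have h1 := Om_geo q
  have h2 := Om_geo t
  rw [Om_eq]
  simp only [map_mul, map_sub, map_one]
  linear_combination (-(1 - PowerSeries.C q) * (1 - PowerSeries.C t) * PowerSeries.X) *
    ((1 - PowerSeries.C t * PowerSeries.X) * PowerSeries.mk (fun n => t ^ n) * h1 + h2)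

private theorem Om_gam (a : K) : (1 - PowerSeries.C a * PowerSeries.X) * PowerSeries.mk (fun n => a ^ (n + 1)) = PowerSeries.C a := by
  have h : PowerSeries.mk (fun n => a ^ (n + 1)) = PowerSeries.C a * PowerSeries.mk (fun n => a ^ n) := by
    ext n
    rw [PowerSeries.coeff_C_mul, PowerSeries.coeff_mk, PowerSeries.coeff_mk, pow_succ']
  rw [h]
  linear_combination PowerSeries.C a * Om_geo a

private theorem Om_D (a : K) : PowerSeries.derivative K (1 - PowerSeries.C a * PowerSeries.X) = -PowerSeries.C a := by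
  ext n
  rw [PowerSeries.coeff_derivative, map_sub, map_neg, PowerSeries.coeff_C_mul, PowerSeries.coeff_one, if_neg (Nat.succ_ne_zero n),
    PowerSeries.coeff_X, PowerSeries.coeff_C]
  rcases n with _ | n
  · simp
  · simp

private theorem Om_cancel {A B C' : PowerSeries K} (hA : PowerSeries.coeff 0 A = 1) (h : A * B = A * C') : B = C' := by
  have hne : A ≠ 0 := by
    intro h0
    rw [h0, map_zero] at hA
    exact zero_ne_one hA
  exact mul_left_cancel₀ hne h

private theorem Om_der (q t : K) : PowerSeries.derivative K (PowerSeries.mk (om q t)) =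
    (PowerSeries.mk (fun n => q ^ (n + 1)) + PowerSeries.mk (fun n => t ^ (n + 1)) - PowerSeries.mk (fun n => 1 ^ (n + 1)) -
      PowerSeries.mk (fun n => (q * t) ^ (n + 1))) * PowerSeries.mk (om q t) := by
  refine Om_cancel (A := (1 - PowerSeries.C q * PowerSeries.X) * (1 - PowerSeries.C t * PowerSeries.X)) (by simp) ?_
  have h0 := Om_AN q t
  have h1 := congrArg (PowerSeries.derivative K) h0
  rw [Derivation.leibniz, Derivation.leibniz, Derivation.leibniz, Om_D, Om_D, Om_D, Om_D] at h1
  simp only [smul_eq_mul] at h1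
  have g1 := Om_gam q
  have g2 := Om_gam t
  have g3 := Om_gam (1 : K)
  have g4 := Om_gam (q * t)
  generalize PowerSeries.mk (fun n => q ^ (n + 1)) = G1 at *
  generalize PowerSeries.mk (fun n => t ^ (n + 1)) = G2 at *
  generalize PowerSeries.mk (fun n => (1 : K) ^ (n + 1)) = G3 at *
  generalize PowerSeries.mk (fun n => (q * t) ^ (n + 1)) = G4 at *
  generalize PowerSeries.mk (om q t) = W at *
  generalize PowerSeries.C q * PowerSeries.X = x1 at *
  generalize PowerSeries.C t * PowerSeries.X = x2 at *
  generalize PowerSeries.C (1 : K) * PowerSeries.X = x3 at *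
  generalize PowerSeries.C (q * t) * PowerSeries.X = x4 at *
  generalize PowerSeries.C q = c1 at *
  generalize PowerSeries.C t = c2 at *
  generalize PowerSeries.C (1 : K) = c3 at *
  generalize PowerSeries.C (q * t) = c4 at *
  linear_combination h1 - (1 - x2) * W * g1 - (1 - x1) * W * g2 + (1 - x4) * g3 + (1 - x3) * g4 + (G3 + G4) * h0

theorem om_newton (q t : K) (n : ℕ) : ((n + 1 : ℕ) : K) * om q t (n + 1) =
    -∑ i ∈ Finset.range (n + 1), (1 - q ^ (i + 1)) * (1 - t ^ (i + 1)) * om q t (n - i) := by
  have h := congrArg (PowerSeries.coeff n) (Om_der q t)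
  rw [PowerSeries.coeff_derivative, PowerSeries.coeff_mk, PowerSeries.coeff_mul] at h
  simp only [map_add, map_sub, PowerSeries.coeff_mk] at h
  rw [Finset.Nat.sum_antidiagonal_eq_sum_range_succ
    (fun i j => (q ^ (i + 1) + t ^ (i + 1) - 1 ^ (i + 1) - (q * t) ^ (i + 1)) * om q t j) n] at h
  rw [← Finset.sum_neg_distrib, Nat.cast_add, Nat.cast_one, mul_comm, h]
  refine Finset.sum_congr rfl fun i _ => ?_
  rw [one_pow, mul_pow]
  ring

end NG
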