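import Pool.Agent.Lib.MP_630b78_co.NG.DzA
import Pool.Agent.Lib.MP_630b78_co.NG.Om

/-!
# `D_b` on `e_l`
-/

namespace NG

open MvPolynomial EllHall

variable {K : Type} [Field K]

private theorem dzc_dbl {A : Type} [AddCommMonoid A] (m : ℕ) (f : ℕ → ℕ → A) (h : ∀ i j, m < i + j → f i j = 0) :
    ∑ i ∈ Finset.range (m + 1), ∑ j ∈ Finset.range (m + 1), f i j =
      ∑ n ∈ Finset.range (m + 1), ∑ i ∈ Finset.range (n + 1), f i (n - i) := by
  rw [Finset.sum_range_diag_flip]
  refine Finset.sum_congr rfl fun i _ => ?_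
  refine (Finset.sum_subset (Finset.range_subset_range.mpr (by omega)) fun j _ hj => h i j ?_).symm
  rw [Finset.mem_range] at hj
  omega

private theorem dzc_cut (q t : K) (b : ℤ) (l N : ℕ) (hN : l < N) :
    ∑ j ∈ Finset.range N, om q t j • (ez K (b + j) * ez K ((l : ℤ) - j)) =
      ∑ j ∈ Finset.range (l + 1), om q t j • (ez K (b + j) * ez K ((l : ℤ) - j)) := by
  refine (Finset.sum_subset (Finset.range_subset_range.mpr (by omega)) fun j _ hj => ?_).symm
  rw [Finset.mem_range] at hj
  rw [ez_neg (K := K) (z := (l : ℤ) - j) (by omega), mul_zero, smul_zero]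

private theorem dzc_nat [CharZero K] (q t : K) (l : ℕ) : ∀ b : ℤ, Dz q t b (ez K l) =
    ∑ j ∈ Finset.range (l + 1), om q t j • (ez K (b + j) * ez K ((l : ℤ) - j)) := by
  induction l using Nat.strong_induction_on with
  | _ l ih =>
    intro b
    rcases l with _ | m
    · have h0 : ez K ((0 : ℕ) : ℤ) = 1 := by
        rw [ez_cast]
        simp [ee]
      rw [h0, Dz_one]
      have h1 : ez K 0 = 1 := h0
      simp [om_zero, h1]
    · -- the induction hypothesis
      have ih' : ∀ (c : ℤ) (i : ℕ), i < m + 1 → Dz q t c (ez K ((m : ℤ) - i)) =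
          ∑ j ∈ Finset.range (m + 1), om q t j • (ez K (c + j) * ez K ((m : ℤ) - i - j)) := by
        intro c i hi
        have e : (m : ℤ) - i = ((m - i : ℕ) : ℤ) := by omega
        rw [e, ih (m - i) (by omega) c]
        exact (dzc_cut q t c (m - i) (m + 1) (by omega)).symm
      -- Newton
      have hn := ez_newton (K := K) ((m : ℤ) + 1) (m + 1) (by push_cast; exact le_rfl)
      have hn' : ((m : K) + 1) • ez K ((m : ℤ) + 1) = -∑ i ∈ Finset.range (m + 1), X i * ez K ((m : ℤ) - i) := by
        have e : (((m : ℤ) + 1 : ℤ) : K) = (m : K) + 1 := by push_cast; rfl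
        rw [← e, hn]
        congr 1
        refine Finset.sum_congr rfl fun i _ => ?_
        rw [show (m : ℤ) + 1 - 1 - i = (m : ℤ) - i by ring]
      have hD : ((m : K) + 1) • Dz q t b (ez K ((m : ℤ) + 1)) =
          -(∑ i ∈ Finset.range (m + 1), X i * Dz q t b (ez K ((m : ℤ) - i))) -
          ∑ i ∈ Finset.range (m + 1), ((1 - q ^ (i + 1)) * (1 - t ^ (i + 1))) •
            Dz q t (b + i + 1) (ez K ((m : ℤ) - i)) := by
        rw [← map_smul, hn', map_neg, map_sum]
        rw [Finset.sum_congr rfl fun i _ => Dz_X_mul q t b i (ez K ((m : ℤ) - i)), Finset.sum_add_distrib]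
        ring
      -- the first sum
      have h1 : -(∑ i ∈ Finset.range (m + 1), X i * Dz q t b (ez K ((m : ℤ) - i))) =
          ∑ j ∈ Finset.range (m + 1), (((m : K) + 1 - j) * om q t j) • (ez K (b + j) * ez K ((m : ℤ) + 1 - j)) := by
        rw [Finset.sum_congr rfl fun i hi => by rw [ih' b i (Finset.mem_range.1 hi), Finset.mul_sum], Finset.sum_comm,
          ← Finset.sum_neg_distrib]
        refine Finset.sum_congr rfl fun j _ => ?_
        have hj := ez_newton (K := K) ((m : ℤ) + 1 - j) (m + 1) (by push_cast; omega)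
        have e : (((m : ℤ) + 1 - j : ℤ) : K) = (m : K) + 1 - j := by push_cast; rfl
        rw [e] at hj
        rw [mul_comm ((m : K) + 1 - j), mul_smul, ← mul_smul_comm, hj, mul_neg, smul_neg, Finset.mul_sum, Finset.smul_sum]
        congr 1
        refine Finset.sum_congr rfl fun i _ => ?_
        rw [show (m : ℤ) + 1 - j - 1 - i = (m : ℤ) - i - j by ring, mul_smul_comm]
        congr 1
        ring
      -- the second sum
      have h2 : -∑ i ∈ Finset.range (m + 1), ((1 - q ^ (i + 1)) * (1 - t ^ (i + 1))) •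
            Dz q t (b + i + 1) (ez K ((m : ℤ) - i)) =
          ∑ n ∈ Finset.range (m + 1), (((n + 1 : ℕ) : K) * om q t (n + 1)) •
            (ez K (b + ((n + 1 : ℕ) : ℤ)) * ez K ((m : ℤ) + 1 - ((n + 1 : ℕ) : ℤ))) := by
        rw [Finset.sum_congr rfl fun i hi => by rw [ih' (b + i + 1) i (Finset.mem_range.1 hi), Finset.smul_sum]]
        rw [dzc_dbl m (fun i j => ((1 - q ^ (i + 1)) * (1 - t ^ (i + 1))) • om q t j •
          (ez K (b + i + 1 + j) * ez K ((m : ℤ) - i - j))) (fun i j hij => by
            show _ • _ • (_ * ez K ((m : ℤ) - i - j)) = 0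
            rw [ez_neg (K := K) (z := (m : ℤ) - i - j) (by omega), mul_zero, smul_zero, smul_zero])]
        rw [← Finset.sum_neg_distrib]
        refine Finset.sum_congr rfl fun n _ => ?_
        rw [om_newton, neg_smul, Finset.sum_smul]
        congr 1
        refine Finset.sum_congr rfl fun i hi => ?_
        have hi' := Finset.mem_range.1 hi
        rw [smul_smul]
        rw [show b + i + 1 + ((n - i : ℕ) : ℤ) = b + ((n + 1 : ℕ) : ℤ) by omega,
          show (m : ℤ) - i - ((n - i : ℕ) : ℤ) = (m : ℤ) + 1 - ((n + 1 : ℕ) : ℤ) by omega]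
      -- together
      have h3 : ((m : K) + 1) • Dz q t b (ez K ((m : ℤ) + 1)) =
          ((m : K) + 1) • ∑ j ∈ Finset.range (m + 1 + 1), om q t j • (ez K (b + j) * ez K ((m : ℤ) + 1 - j)) := by
        rw [hD, h1, sub_eq_add_neg, h2]
        have e1 : ∑ j ∈ Finset.range (m + 1), (((m : K) + 1 - j) * om q t j) •
              (ez K (b + j) * ez K ((m : ℤ) + 1 - j)) =
            ∑ j ∈ Finset.range (m + 1 + 1), (((m : K) + 1 - j) * om q t j) •
              (ez K (b + j) * ez K ((m : ℤ) + 1 - j)) := by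
          rw [Finset.sum_range_succ _ (m + 1)]
          push_cast
          rw [sub_self, zero_mul, zero_smul, add_zero]
        have e2 : ∑ n ∈ Finset.range (m + 1), (((n + 1 : ℕ) : K) * om q t (n + 1)) •
              (ez K (b + ((n + 1 : ℕ) : ℤ)) * ez K ((m : ℤ) + 1 - ((n + 1 : ℕ) : ℤ))) =
            ∑ j ∈ Finset.range (m + 1 + 1), ((j : K) * om q t j) •
              (ez K (b + j) * ez K ((m : ℤ) + 1 - j)) := by
          rw [Finset.sum_range_succ' _ (m + 1)]
          push_cast
          rw [zero_mul, zero_smul, add_zero]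
        rw [e1, e2, ← Finset.sum_add_distrib, Finset.smul_sum]
        refine Finset.sum_congr rfl fun j _ => ?_
        rw [← add_smul, smul_smul]
        congr 1
        ring
      have hne : (m : K) + 1 ≠ 0 := by exact_mod_cast (Nat.succ_ne_zero m)
      have h4 := smul_right_injective _ hne h3
      push_cast
      exact h4

theorem Dz_ez [CharZero K] (q t : K) (b l : ℤ) (N : ℕ) (hN : l < N) : Dz q t b (ez K l) =
    ∑ j ∈ Finset.range N, om q t j • (ez K (b + j) * ez K (l - j)) := by
  rcases lt_or_ge l 0 with hl | hl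
  · rw [ez_neg hl, map_zero]
    refine (Finset.sum_eq_zero fun j _ => ?_).symm
    rw [ez_neg (K := K) (z := l - j) (by omega), mul_zero, smul_zero]
  · obtain ⟨n, rfl⟩ := Int.eq_ofNat_of_zero_le hl
    rw [dzc_nat, dzc_cut q t b n N (by exact_mod_cast hN)]

end NG
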