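import Pool.Agent.Lib.MP_630b78_co.NG.Defs

/-!
# Signed interval sums
-/

namespace NG

open MvPolynomial EllHall

variable {K : Type} [Field K]

variable {A B : Type} [AddCommGroup A] [AddCommGroup B]

private theorem Isum_step (l n : ℤ) (f : ℤ → A) : isum l (n + 1) f = isum l n f + f n := by
  unfold isum
  by_cases h : l ≤ n
  · have e1 : Finset.Ico l (n + 1) = insert n (Finset.Ico l n) := by
      ext x
      simp only [Finset.mem_Ico, Finset.mem_insert]
      omega
    have e2 : Finset.Ico (n + 1) l = ∅ := Finset.Ico_eq_empty (by omega)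
    have e3 : Finset.Ico n l = ∅ := Finset.Ico_eq_empty (by omega)
    have e4 : n ∉ Finset.Ico l n := by simp
    rw [e1, e2, e3, Finset.sum_insert e4]
    simp only [Finset.sum_empty]
    abel
  · have e1 : Finset.Ico n l = insert n (Finset.Ico (n + 1) l) := by
      ext x
      simp only [Finset.mem_Ico, Finset.mem_insert]
      omega
    have e2 : Finset.Ico l (n + 1) = ∅ := Finset.Ico_eq_empty (by omega)
    have e3 : Finset.Ico l n = ∅ := Finset.Ico_eq_empty (by omega)
    have e4 : n ∉ Finset.Ico (n + 1) l := by simp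
    rw [e1, e2, e3, Finset.sum_insert e4]
    simp only [Finset.sum_empty]
    abel

theorem isum_prim (f : ℤ → A) : ∃ G : ℤ → A, ∀ n, G (n + 1) = G n + f n :=
  ⟨fun n => isum 0 n f, fun n => Isum_step 0 n f⟩

theorem isum_of (l b : ℤ) (f G : ℤ → A) (h : ∀ n, G (n + 1) = G n + f n) : isum l b f = G b - G l := by
  induction b using Int.inductionOn' (b := l) with
  | zero => unfold isum; simp
  | succ k hk ih => rw [Isum_step, ih, h]; abel
  | pred k hk ih =>
    have e := Isum_step l (k - 1) f
    have e' := h (k - 1)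
    rw [sub_add_cancel] at e e'
    rw [ih, e'] at e
    rw [← sub_eq_iff_eq_add] at e
    rw [← e]
    abel

theorem isum_self (l : ℤ) (f : ℤ → A) : isum l l f = 0 := by
  obtain ⟨G, h⟩ := isum_prim f
  rw [isum_of l l f G h, sub_self]

theorem isum_one (l : ℤ) (f : ℤ → A) : isum l (l + 1) f = f l := by
  obtain ⟨G, h⟩ := isum_prim f
  rw [isum_of _ _ f G h, h]
  abel

theorem isum_one' (l : ℤ) (f : ℤ → A) : isum (l + 1) l f = -f l := by
  obtain ⟨G, h⟩ := isum_prim f
  rw [isum_of _ _ f G h, h]
  abel

theorem isum_trans (a b c : ℤ) (f : ℤ → A) : isum a b f + isum b c f = isum a c f := by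
  obtain ⟨G, h⟩ := isum_prim f
  rw [isum_of _ _ f G h, isum_of _ _ f G h, isum_of _ _ f G h]
  abel

theorem isum_shift (l b n : ℤ) (f : ℤ → A) : isum l b (fun X => f (X + n)) = isum (l + n) (b + n) f := by
  obtain ⟨G, h⟩ := isum_prim f
  rw [isum_of (l + n) (b + n) f G h, isum_of l b (fun X => f (X + n)) (fun X => G (X + n))]
  intro X
  show G (X + 1 + n) = G (X + n) + f (X + n)
  rw [← h, add_right_comm]

theorem isum_congr (l b : ℤ) {f g : ℤ → A} (h : ∀ X, f X = g X) : isum l b f = isum l b g := by
  rw [show f = g from funext h]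

theorem isum_add (l b : ℤ) (f g : ℤ → A) : isum l b (fun X => f X + g X) = isum l b f + isum l b g := by
  unfold isum
  rw [Finset.sum_add_distrib, Finset.sum_add_distrib]
  abel

theorem isum_sub (l b : ℤ) (f g : ℤ → A) : isum l b (fun X => f X - g X) = isum l b f - isum l b g := by
  unfold isum
  rw [Finset.sum_sub_distrib, Finset.sum_sub_distrib]
  abel

theorem isum_nat (l : ℤ) (r : ℕ) (f : ℤ → A) : isum l (l + r) f = ∑ s ∈ Finset.range r, f (l + s) := by
  induction r with
  | zero => simp [isum_self]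
  | succ r ih =>
    rw [Finset.sum_range_succ, ← ih, ← Isum_step]
    congr 1
    push_cast
    ring

theorem isum_nat' (l : ℤ) (r : ℕ) (f : ℤ → A) : isum (l - r) l f = ∑ s ∈ Finset.range r, f (l - (s + 1 : ℕ)) := by
  obtain ⟨G, h⟩ := isum_prim f
  rw [isum_of _ _ f G h]
  induction r with
  | zero => simp
  | succ r ih =>
    rw [Finset.sum_range_succ, ← ih]
    have e := h (l - ((r + 1 : ℕ) : ℤ))
    have e' : l - ((r + 1 : ℕ) : ℤ) + 1 = l - (r : ℤ) := by push_cast; ring
    rw [e'] at e
    rw [e]
    abel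

theorem isum_map (φ : A →+ B) (l b : ℤ) (f : ℤ → A) : φ (isum l b f) = isum l b fun X => φ (f X) := by
  unfold isum
  rw [map_sub, map_sum, map_sum]

theorem isum_smul [Module K A] (a : K) (l b : ℤ) (f : ℤ → A) : a • isum l b f = isum l b fun X => a • f X := by
  unfold isum
  rw [smul_sub, Finset.smul_sum, Finset.smul_sum]

theorem isum_mul_left {R : Type} [Ring R] (a : R) (l b : ℤ) (f : ℤ → R) : a * isum l b f = isum l b fun X => a * f X := by
  unfold isum
  rw [mul_sub, Finset.mul_sum, Finset.mul_sum]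

theorem isum_mul_right {R : Type} [Ring R] (a : R) (l b : ℤ) (f : ℤ → R) : isum l b f * a = isum l b fun X => f X * a := by
  unfold isum
  rw [sub_mul, Finset.sum_mul, Finset.sum_mul]

theorem isum_apply (l b : ℤ) (f : ℤ → Module.End K (MvPolynomial ℕ K)) (g : MvPolynomial ℕ K) :
    isum l b f g = isum l b fun X => f X g := by
  unfold isum
  rw [LinearMap.sub_apply, LinearMap.sum_apply, LinearMap.sum_apply]

end NG
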