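import Pool.Agent.Lib.MP_630b78_co.NG.Defs

/-!
# Locally finite sums
-/

namespace NG

open MvPolynomial EllHall

variable {K : Type} [Field K]

variable {T S : ℕ → Module.End K (MvPolynomial ℕ K)}

theorem ls_apply (h : LF T) (g : MvPolynomial ℕ K) (N : ℕ) (hN : ∀ r, N ≤ r → T r g = 0) :
    ls T g = ∑ r ∈ Finset.range N, T r g := by
  unfold ls
  rw [dif_pos h]
  show ∑ r ∈ Finset.range (h g).choose, T r g = ∑ r ∈ Finset.range N, T r g
  rcases le_total N (h g).choose with hl | hl
  · refine (Finset.sum_subset (Finset.range_subset_range.mpr hl) fun r _ hr => hN r ?_).symm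
    exact not_lt.1 fun h' => hr (Finset.mem_range.2 h')
  · refine Finset.sum_subset (Finset.range_subset_range.mpr hl) fun r _ hr => (h g).choose_spec r ?_
    exact not_lt.1 fun h' => hr (Finset.mem_range.2 h')

theorem LF.zero : LF (fun _ => (0 : Module.End K (MvPolynomial ℕ K))) := fun _ => ⟨0, fun _ _ => rfl⟩

theorem LF.add (h : LF T) (h' : LF S) : LF fun r => T r + S r := by
  intro g
  obtain ⟨n, hn⟩ := h g
  obtain ⟨m, hm⟩ := h' g
  refine ⟨n + m, fun r hr => ?_⟩
  rw [LinearMap.add_apply, hn r (by omega), hm r (by omega), add_zero]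

theorem LF.sub (h : LF T) (h' : LF S) : LF fun r => T r - S r := by
  intro g
  obtain ⟨n, hn⟩ := h g
  obtain ⟨m, hm⟩ := h' g
  refine ⟨n + m, fun r hr => ?_⟩
  rw [LinearMap.sub_apply, hn r (by omega), hm r (by omega), sub_zero]

theorem LF.neg (h : LF T) : LF fun r => -T r := by
  intro g
  obtain ⟨n, hn⟩ := h g
  refine ⟨n, fun r hr => ?_⟩
  rw [LinearMap.neg_apply, hn r hr, neg_zero]

theorem LF.smul (h : LF T) (a : K) : LF fun r => a • T r := by
  intro g
  obtain ⟨n, hn⟩ := h g
  refine ⟨n, fun r hr => ?_⟩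
  rw [LinearMap.smul_apply, hn r hr, smul_zero]

theorem LF.mul_left (h : LF T) (A : Module.End K (MvPolynomial ℕ K)) : LF fun r => A * T r := by
  intro g
  obtain ⟨n, hn⟩ := h g
  refine ⟨n, fun r hr => ?_⟩
  rw [Module.End.mul_apply, hn r hr, map_zero]

theorem LF.mul_right (h : LF T) (A : Module.End K (MvPolynomial ℕ K)) : LF fun r => T r * A := by
  intro g
  obtain ⟨n, hn⟩ := h (A g)
  refine ⟨n, fun r hr => ?_⟩
  rw [Module.End.mul_apply, hn r hr]

theorem LF.shift (h : LF T) : LF fun r => T (r + 1) := by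
  intro g
  obtain ⟨n, hn⟩ := h g
  exact ⟨n, fun r hr => hn (r + 1) (by omega)⟩

theorem LF.sum {ι : Type} (s : Finset ι) (F : ι → ℕ → Module.End K (MvPolynomial ℕ K)) (h : ∀ i ∈ s, LF (F i)) :
    LF fun r => ∑ i ∈ s, F i r := by
  classical
  induction s using Finset.induction_on with
  | empty => simpa using LF.zero
  | insert i s hi ih =>
    have h1 := (h i (Finset.mem_insert_self i s)).add (ih fun j hj => h j (Finset.mem_insert_of_mem hj))
    simpa [Finset.sum_insert hi] using h1

theorem LF.isum (l b : ℤ) (F : ℤ → ℕ → Module.End K (MvPolynomial ℕ K)) (h : ∀ X, LF (F X)) :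
    LF fun r => NG.isum l b fun X => F X r := by
  unfold NG.isum
  exact (LF.sum _ F fun X _ => h X).sub (LF.sum _ F fun X _ => h X)

theorem ls_congr (h : ∀ r, T r = S r) : ls T = ls S := by
  rw [funext h]

theorem ls_add (h : LF T) (h' : LF S) : ls (fun r => T r + S r) = ls T + ls S := by
  refine LinearMap.ext fun g => ?_
  obtain ⟨n, hn⟩ := h g
  obtain ⟨m, hm⟩ := h' g
  rw [ls_apply (h.add h') g (n + m) (fun r hr => by rw [LinearMap.add_apply, hn r (by omega), hm r (by omega), add_zero]),
    LinearMap.add_apply, ls_apply h g (n + m) (fun r hr => hn r (by omega)),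
    ls_apply h' g (n + m) (fun r hr => hm r (by omega)), ← Finset.sum_add_distrib]
  exact Finset.sum_congr rfl fun r _ => rfl

theorem ls_neg (h : LF T) : ls (fun r => -T r) = -ls T := by
  refine LinearMap.ext fun g => ?_
  obtain ⟨n, hn⟩ := h g
  rw [ls_apply h.neg g n (fun r hr => by rw [LinearMap.neg_apply, hn r hr, neg_zero]), LinearMap.neg_apply,
    ls_apply h g n hn, ← Finset.sum_neg_distrib]
  exact Finset.sum_congr rfl fun r _ => rfl

theorem ls_sub (h : LF T) (h' : LF S) : ls (fun r => T r - S r) = ls T - ls S := by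
  have h1 := ls_add h h'.neg
  rw [ls_neg h', ← sub_eq_add_neg] at h1
  rw [← h1]
  exact ls_congr fun r => sub_eq_add_neg _ _

theorem ls_smul (h : LF T) (a : K) : ls (fun r => a • T r) = a • ls T := by
  refine LinearMap.ext fun g => ?_
  obtain ⟨n, hn⟩ := h g
  rw [ls_apply (h.smul a) g n (fun r hr => by rw [LinearMap.smul_apply, hn r hr, smul_zero]), LinearMap.smul_apply,
    ls_apply h g n hn, Finset.smul_sum]
  exact Finset.sum_congr rfl fun r _ => rfl

theorem ls_mul_left (h : LF T) (A : Module.End K (MvPolynomial ℕ K)) : ls (fun r => A * T r) = A * ls T := by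
  refine LinearMap.ext fun g => ?_
  obtain ⟨n, hn⟩ := h g
  rw [ls_apply (h.mul_left A) g n (fun r hr => by rw [Module.End.mul_apply, hn r hr, map_zero]), Module.End.mul_apply,
    ls_apply h g n hn, map_sum]
  exact Finset.sum_congr rfl fun r _ => rfl

theorem ls_mul_right (h : LF T) (A : Module.End K (MvPolynomial ℕ K)) : ls (fun r => T r * A) = ls T * A := by
  refine LinearMap.ext fun g => ?_
  obtain ⟨n, hn⟩ := h (A g)
  rw [ls_apply (h.mul_right A) g n (fun r hr => by rw [Module.End.mul_apply, hn r hr]), Module.End.mul_apply,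
    ls_apply h (A g) n hn]
  exact Finset.sum_congr rfl fun r _ => rfl

theorem ls_shift (h : LF T) : ls T = T 0 + ls fun r => T (r + 1) := by
  refine LinearMap.ext fun g => ?_
  obtain ⟨n, hn⟩ := h g
  rw [ls_apply h g (n + 1) (fun r hr => hn r (by omega)), LinearMap.add_apply,
    ls_apply h.shift g n (fun r hr => hn (r + 1) (by omega)), Finset.sum_range_succ', add_comm]

theorem ls_sum {ι : Type} (s : Finset ι) (F : ι → ℕ → Module.End K (MvPolynomial ℕ K)) (h : ∀ i ∈ s, LF (F i)) :
    ls (fun r => ∑ i ∈ s, F i r) = ∑ i ∈ s, ls (F i) := by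
  classical
  induction s using Finset.induction_on with
  | empty =>
    refine LinearMap.ext fun g => ?_
    rw [Finset.sum_empty, ls_apply (by simpa using LF.zero) g 0 (fun r _ => by simp)]
    simp
  | insert i s hi ih =>
    have h1 : ∀ j ∈ s, LF (F j) := fun j hj => h j (Finset.mem_insert_of_mem hj)
    rw [Finset.sum_insert hi, ← ih h1, ← ls_add (h i (Finset.mem_insert_self i s)) (LF.sum s F h1)]
    exact ls_congr fun r => Finset.sum_insert hi

theorem ls_isum (l b : ℤ) (F : ℤ → ℕ → Module.End K (MvPolynomial ℕ K)) (h : ∀ X, LF (F X)) :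
    ls (fun r => isum l b fun X => F X r) = isum l b fun X => ls (F X) := by
  unfold isum
  rw [ls_sub (LF.sum _ F fun X _ => h X) (LF.sum _ F fun X _ => h X), ls_sum _ F fun X _ => h X,
    ls_sum _ F fun X _ => h X]

end NG
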