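import Pool.Agent.Lib.MP_630b78_co.NG.LeB
import Pool.Agent.Lib.MP_630b78_co.NG.LS
import Pool.Agent.Lib.MP_630b78_co.NG.Isum

/-!
# Negut elements: weights and local finiteness
-/

namespace NG

open MvPolynomial EllHall

variable {K : Type} [Field K]

private theorem EsA_nil (q t : K) (b : ℤ) : EE q t b [] = Dz q t b := by
  rw [EE]

private theorem EsA_cons (q t : K) (b c : ℤ) (γ : List ℤ) :
    EE q t b (c :: γ) = ls fun r : ℕ => (q * t) ^ r • (Dz q t (b + r) * EE q t (c - r) γ) := by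
  rw [EE]

private theorem EsA_cut (q t : K) (b c : ℤ) (γ : List ℤ) (hγ : ∀ b, DegBy (b + γ.sum) (EE q t b γ)) (n : ℤ)
    (g : MvPolynomial ℕ K) (hg : Le n g) (r : ℕ) (hr : n + c + γ.sum < r) :
    (Dz q t (b + r) * EE q t (c - r) γ) g = 0 := by
  have h1 : EE q t (c - r) γ g = 0 := Le_neg (by linarith) (hγ (c - r) n g hg)
  rw [Module.End.mul_apply, h1, map_zero]

private theorem EsA_LF (q t : K) (b c : ℤ) (γ : List ℤ) (hγ : ∀ b, DegBy (b + γ.sum) (EE q t b γ)) :
    LF fun r : ℕ => (q * t) ^ r • (Dz q t (b + r) * EE q t (c - r) γ) := by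
  intro g
  obtain ⟨n, hn⟩ := exists_Le g
  refine ⟨(n + c + γ.sum + 1).toNat, fun r hr => ?_⟩
  have hr' : n + c + γ.sum < r := by omega
  rw [LinearMap.smul_apply, EsA_cut q t b c γ hγ n g hn r hr', smul_zero]

theorem DegBy_EE (q t : K) (b : ℤ) (γ : List ℤ) : DegBy (b + γ.sum) (EE q t b γ) := by
  induction γ generalizing b with
  | nil =>
    rw [EsA_nil, List.sum_nil, add_zero]
    exact DegBy_Dz q t b
  | cons c γ ih =>
    intro m g hg
    rw [EsA_cons]
    have hN : ∀ r : ℕ, (m + c + γ.sum + 1).toNat ≤ r →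
        ((q * t) ^ r • (Dz q t (b + r) * EE q t (c - r) γ)) g = 0 := by
      intro r hr
      have hr' : m + c + γ.sum < r := by omega
      rw [LinearMap.smul_apply, EsA_cut q t b c γ ih m g hg r hr', smul_zero]
    rw [ls_apply (EsA_LF q t b c γ ih) g _ hN]
    refine Le.sum _ _ fun r _ => ?_
    have h1 := ((DegBy_Dz q t (b + r)).mul (ih (c - r))).smul ((q * t) ^ r) m g hg
    refine h1.mono (le_of_eq ?_)
    rw [List.sum_cons]
    ring

theorem DegBy_Es (q t : K) (β : List ℤ) : DegBy β.sum (Es q t β) := by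
  cases β with
  | nil =>
    rw [Es, List.sum_nil]
    exact DegBy.one
  | cons b γ =>
    rw [Es, List.sum_cons]
    exact DegBy_EE q t b γ

theorem EE_cut (q t : K) (b c : ℤ) (γ : List ℤ) (n : ℤ) (g : MvPolynomial ℕ K) (hg : Le n g) (r : ℕ) (hr : n + c + γ.sum < r) :
    (Dz q t (b + r) * EE q t (c - r) γ) g = 0 :=
  EsA_cut q t b c γ (fun b => DegBy_EE q t b γ) n g hg r hr

theorem LF_EE (q t : K) (b c : ℤ) (γ : List ℤ) : LF fun r : ℕ => (q * t) ^ r • (Dz q t (b + r) * EE q t (c - r) γ) :=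
  EsA_LF q t b c γ fun b => DegBy_EE q t b γ

private theorem EsA_zero (q t : K) (c : ℤ) (γ : List ℤ) (n : ℤ) (g : MvPolynomial ℕ K) (hg : Le n g)
    (h : n + c + γ.sum < 0) (β : List ℤ) : ∀ b, EE q t b (β ++ c :: γ) g = 0 := by
  induction β with
  | nil =>
    intro b
    rw [List.nil_append, EsA_cons, ls_apply (LF_EE q t b c γ) g 0, Finset.sum_range_zero]
    intro r _
    rw [LinearMap.smul_apply, EE_cut q t b c γ n g hg r (by omega), smul_zero]
  | cons d β ih =>
    intro b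
    rw [List.cons_append, EsA_cons, ls_apply (LF_EE q t b d (β ++ c :: γ)) g 0, Finset.sum_range_zero]
    intro r _
    rw [LinearMap.smul_apply, Module.End.mul_apply, ih (d - r), map_zero, smul_zero]

theorem Es_cut (q t : K) (β : List ℤ) (c : ℤ) (γ : List ℤ) (n : ℤ) (g : MvPolynomial ℕ K) (hg : Le n g)
    (h : n + c + γ.sum < 0) : Es q t (β ++ c :: γ) g = 0 := by
  cases β with
  | nil =>
    rw [List.nil_append, Es]
    exact Le_neg (by linarith) (DegBy_EE q t c γ n g hg)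
  | cons b β =>
    rw [List.cons_append, Es]
    exact EsA_zero q t c γ n g hg h β b

theorem DegBy_isum (l b : ℤ) (n : ℤ) (F : ℤ → Module.End K (MvPolynomial ℕ K)) (h : ∀ X, DegBy n (F X)) :
    DegBy n (isum l b F) := by
  intro m g hg
  rw [isum_apply]
  unfold isum
  exact (Le.sum _ _ fun X _ => h X m g hg).sub (Le.sum _ _ fun X _ => h X m g hg)

theorem LF_deg (x : K) (c : ℤ) (Y Z : ℕ → Module.End K (MvPolynomial ℕ K)) (hZ : ∀ r : ℕ, DegBy (c - r) (Z r)) :
    LF fun r : ℕ => x ^ r • (Y r * Z r) := by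
  intro g
  obtain ⟨n, hn⟩ := exists_Le g
  refine ⟨(n + c + 1).toNat, fun r hr => ?_⟩
  have h1 : Z r g = 0 := Le_neg (by omega) (hZ r n g hn)
  rw [LinearMap.smul_apply, Module.End.mul_apply, h1, map_zero, smul_zero]

theorem LF_Es (q t : K) (β : List ℤ) (m c : ℤ) (γ : List ℤ) :
    LF fun r : ℕ => (q * t) ^ r • (Es q t (β ++ [m + r]) * Es q t ((c - r) :: γ)) := by
  refine LF_deg (q * t) (c + γ.sum) (fun r => Es q t (β ++ [m + r])) (fun r => Es q t ((c - r) :: γ)) fun r => ?_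
  have h1 := DegBy_Es q t ((c - r) :: γ)
  rw [List.sum_cons, sub_add_eq_add_sub] at h1
  exact h1

end NG
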