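import Pool.Agent.Lib.MP_630b78_co.NG.EsA

/-!
# The relation (R1)
-/

namespace NG

open MvPolynomial EllHall

variable {K : Type} [Field K]

private theorem EE_cons (q t : K) (b c : ℤ) (γ : List ℤ) :
    EE q t b (c :: γ) = ls fun r : ℕ => (q * t) ^ r • (Dz q t (b + r) * EE q t (c - r) γ) := rfl

private theorem step (q t : K) (b e₁ e₂ e₃ : ℤ) (δ₁ δ₂ δ₃ : List ℤ) (Y : Module.End K (MvPolynomial ℕ K))
    (h : ∀ r : ℕ, EE q t (e₁ - r) δ₁ = EE q t (e₂ - r) δ₂ * Y + (q * t) • EE q t (e₃ - r) δ₃) :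
    EE q t b (e₁ :: δ₁) = EE q t b (e₂ :: δ₂) * Y + (q * t) • EE q t b (e₃ :: δ₃) := by
  rw [EE_cons, EE_cons, EE_cons, ← ls_mul_right (LF_EE q t b e₂ δ₂) Y, ← ls_smul (LF_EE q t b e₃ δ₃) (q * t),
    ← ls_add ((LF_EE q t b e₂ δ₂).mul_right Y) ((LF_EE q t b e₃ δ₃).smul (q * t))]
  refine ls_congr fun r => ?_
  rw [h r, mul_add, smul_add, ← mul_assoc, smul_mul_assoc, mul_smul_comm, smul_comm]

private theorem base (q t : K) (m c : ℤ) (γ : List ℤ) :
    EE q t m (c :: γ) = EE q t m [] * EE q t c γ + (q * t) • EE q t (m + 1) ((c - 1) :: γ) := by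
  rw [EE_cons, ls_shift (LF_EE q t m c γ), EE_cons, ← ls_smul (LF_EE q t (m + 1) (c - 1) γ) (q * t)]
  congr 1
  · have : EE q t m [] = Dz q t m := rfl
    rw [this]
    simp
  · refine ls_congr fun r => ?_
    have e1 : m + ((r + 1 : ℕ) : ℤ) = m + 1 + (r : ℤ) := by push_cast; ring
    have e2 : c - ((r + 1 : ℕ) : ℤ) = c - 1 - (r : ℤ) := by push_cast; ring
    rw [e1, e2, smul_smul, pow_succ']

private theorem aux (q t : K) (c : ℤ) (γ : List ℤ) (n : ℕ) : ∀ (β : List ℤ) (m : ℤ), β.length = n →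
    Es q t (β ++ m :: c :: γ) =
      Es q t (β ++ [m]) * Es q t (c :: γ) + (q * t) • Es q t (β ++ (m + 1) :: (c - 1) :: γ) := by
  induction n with
  | zero =>
    intro β m hβ
    rw [List.length_eq_zero_iff] at hβ
    subst hβ
    exact base q t m c γ
  | succ n ih =>
    intro β m hβ
    rcases β with _ | ⟨b, β⟩
    · simp at hβ
    · rw [List.length_cons, Nat.add_right_cancel_iff] at hβ
      rcases β with _ | ⟨e, β⟩
      · refine step q t b m m (m + 1) (c :: γ) [] ((c - 1) :: γ) (EE q t c γ) fun r => ?_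
        have e1 : m + 1 - (r : ℤ) = m - r + 1 := by ring
        rw [e1]
        exact base q t (m - r) c γ
      · exact step q t b e e e (β ++ m :: c :: γ) (β ++ [m]) (β ++ (m + 1) :: (c - 1) :: γ) (EE q t c γ)
          fun r => ih ((e - r) :: β) m (by simpa using hβ)

theorem R1 (q t : K) (β : List ℤ) (m c : ℤ) (γ : List ℤ) : Es q t (β ++ m :: c :: γ) =
    Es q t (β ++ [m]) * Es q t (c :: γ) + (q * t) • Es q t (β ++ (m + 1) :: (c - 1) :: γ) :=
  aux q t c γ β.length β m rfl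

end NG
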