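import Pool.Agent.Lib.MP_630b78_co.NG.EsB

/-!
# The relation (Rs)
-/

namespace NG

open MvPolynomial EllHall

variable {K : Type} [Field K]

private theorem Rs_fin (q t : K) (β : List ℤ) (m c : ℤ) (γ : List ℤ) (N : ℕ) : Es q t (β ++ m :: c :: γ) =
    ∑ r ∈ Finset.range N, (q * t) ^ r • (Es q t (β ++ [m + r]) * Es q t ((c - r) :: γ)) +
      (q * t) ^ N • Es q t (β ++ (m + N) :: (c - N) :: γ) := by
  induction N with
  | zero => simp
  | succ N ih =>
    have h1 : m + ((N + 1 : ℕ) : ℤ) = m + (N : ℤ) + 1 := by push_cast; ring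
    have h2 : c - ((N + 1 : ℕ) : ℤ) = c - (N : ℤ) - 1 := by push_cast; ring
    rw [ih, Finset.sum_range_succ, R1 q t β (m + N) (c - N) γ, smul_add, smul_smul, ← pow_succ, h1, h2]
    exact (add_assoc _ _ _).symm

theorem Rs (q t : K) (β : List ℤ) (m c : ℤ) (γ : List ℤ) : Es q t (β ++ m :: c :: γ) =
    ls fun r : ℕ => (q * t) ^ r • (Es q t (β ++ [m + r]) * Es q t ((c - r) :: γ)) := by
  refine LinearMap.ext fun g => ?_
  obtain ⟨n, hn⟩ := exists_Le g
  set N : ℕ := (n + c + γ.sum + 1).toNat with hN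
  have hN' : n + c + γ.sum < N := by omega
  have hz : ∀ r : ℕ, N ≤ r →
      ((q * t) ^ r • (Es q t (β ++ [m + r]) * Es q t ((c - r) :: γ))) g = 0 := by
    intro r hr
    have h1 := Es_cut q t [] (c - r) γ n g hn (by omega)
    rw [List.nil_append] at h1
    rw [LinearMap.smul_apply, Module.End.mul_apply, h1, map_zero, smul_zero]
  rw [ls_apply (LF_Es q t β m c γ) g N hz, Rs_fin q t β m c γ N, LinearMap.add_apply,
    LinearMap.sum_apply, LinearMap.smul_apply]
  have h2 := Es_cut q t (β ++ [m + N]) (c - N) γ n g hn (by omega)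
  rw [List.append_assoc, List.singleton_append] at h2
  rw [h2, smul_zero, add_zero]

end NG
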