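import Pool.Agent.Lib.MP_630b78_co.NG.Defs
import Pool.Agent.Lib.MP_630b78_co.TP.Defs

/-!
# From `ℚ` to `ℝ`
-/

namespace NG

open MvPolynomial EllHall TPath

private theorem map_Cinv (n : ℕ) : MvPolynomial.map (algebraMap ℚ ℝ) (C (((n + 1 : ℕ) : ℚ)⁻¹) : MvPolynomial ℕ ℚ) =
    C (((n + 1 : ℕ) : ℝ)⁻¹) := by
  rw [MvPolynomial.map_C, map_inv₀, map_natCast]

theorem map_ee (n : ℕ) : MvPolynomial.map (algebraMap ℚ ℝ) (ee ℚ n) = ee ℝ n := by
  induction n using Nat.strong_induction_on with
  | _ n ih =>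
    rcases n with _ | n
    · unfold ee
      exact map_one _
    · unfold ee
      rw [map_mul, map_Cinv, map_sum]
      congr 1
      refine Finset.sum_congr rfl fun i _ => ?_
      rw [map_mul, map_mul, map_pow, map_neg, map_one, MvPolynomial.map_X, ih (n - i) (by omega)]

theorem map_hh (n : ℕ) : MvPolynomial.map (algebraMap ℚ ℝ) (hh ℚ n) = hh ℝ n := by
  induction n using Nat.strong_induction_on with
  | _ n ih =>
    rcases n with _ | n
    · unfold hh
      exact map_one _
    · unfold hh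
      rw [map_mul, map_Cinv, map_sum]
      congr 1
      refine Finset.sum_congr rfl fun i _ => ?_
      rw [map_mul, MvPolynomial.map_X, ih (n - i) (by omega)]

private theorem map_hz (z : ℤ) : MvPolynomial.map (algebraMap ℚ ℝ) (hz ℚ z) = hz ℝ z := by
  unfold hz
  split_ifs
  · exact map_hh _
  · exact map_zero _

private theorem map_schur (l : List ℕ) : MvPolynomial.map (algebraMap ℚ ℝ) (schur ℚ l) = schur ℝ l := by
  unfold schur
  rw [RingHom.map_det]
  congr 1
  ext1 i j
  exact map_hz _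

private theorem hall_map (g f : MvPolynomial ℕ ℚ) :
    hall (MvPolynomial.map (algebraMap ℚ ℝ) g) (MvPolynomial.map (algebraMap ℚ ℝ) f) = ((hall g f : ℚ) : ℝ) := by
  unfold hall
  rw [MvPolynomial.support_map_of_injective _ (algebraMap ℚ ℝ).injective]
  push_cast
  refine Finset.sum_congr rfl fun m _ => ?_
  rw [MvPolynomial.coeff_map, MvPolynomial.coeff_map, eq_ratCast, eq_ratCast]

private theorem sc_map (g : MvPolynomial ℕ ℚ) (μ : Multiset ℕ) :
    sc (MvPolynomial.map (algebraMap ℚ ℝ) g) μ = ((sc g μ : ℚ) : ℝ) := by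
  unfold sc
  rw [← map_schur, hall_map]

theorem barCoeff_map (g : MvPolynomial ℕ ℚ) (n : ℕ) (ρ : Multiset ℕ) :
    barCoeff (MvPolynomial.map (algebraMap ℚ ℝ) g) n ρ = ((barCoeff g n ρ : ℚ) : ℝ) := by
  unfold barCoeff
  rw [Rat.cast_sum]
  refine Finset.sum_congr rfl fun μ _ => ?_
  split_ifs
  · exact sc_map _ _
  · exact Rat.cast_zero.symm

end NG
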