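import Pool.Agent.Lib.MP_630b78_co.NG.EvA
import Pool.Agent.Lib.MP_630b78_co.TP.Fin

/-!
# The values of the path sums at real `q`
-/

namespace NG

open MvPolynomial EllHall TPath

private theorem EvF_add {K : Type} [Field K] [CharZero K] (g g' : MvPolynomial ℕ K) (n : ℕ) (ρ : Multiset ℕ) :
    barCoeff (g + g') n ρ = barCoeff g n ρ + barCoeff g' n ρ := by
  unfold barCoeff
  rw [← Finset.sum_add_distrib]
  refine Finset.sum_congr rfl fun μ _ => ?_
  split_ifs
  · exact hall_add_left _ _ _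
  · rw [add_zero]

private theorem EvF_zero {K : Type} [Field K] [CharZero K] (n : ℕ) (ρ : Multiset ℕ) : barCoeff (0 : MvPolynomial ℕ K) n ρ = 0 := by
  have h := EvF_add (0 : MvPolynomial ℕ K) 0 n ρ
  rw [add_zero] at h
  exact left_eq_add.1 h

private theorem EvF_sum {K : Type} [Field K] [CharZero K] (s : Finset ℕ) (g : ℕ → MvPolynomial ℕ K) (n : ℕ) (ρ : Multiset ℕ) :
    barCoeff (∑ m ∈ s, g m) n ρ = ∑ m ∈ s, barCoeff (g m) n ρ := by
  classical
  induction s using Finset.induction_on with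
  | empty => rw [Finset.sum_empty, Finset.sum_empty, EvF_zero]
  | insert a s ha ih => rw [Finset.sum_insert ha, Finset.sum_insert ha, EvF_add, ih]

private theorem EvF_C {K : Type} [Field K] [CharZero K] (a : K) (g : MvPolynomial ℕ K) (n : ℕ) (ρ : Multiset ℕ) :
    barCoeff (C a * g) n ρ = a * barCoeff g n ρ := by
  unfold barCoeff
  rw [Finset.mul_sum]
  refine Finset.sum_congr rfl fun μ _ => ?_
  split_ifs
  · rw [← MvPolynomial.smul_eq_C_mul]
    exact hall_smul_left _ _ _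
  · rw [mul_zero]

private theorem EvF_eval (G : Polynomial (MvPolynomial ℕ ℚ)) (q : ℝ) (N : ℕ) (hN : G.natDegree < N) :
    evF q G = ∑ m ∈ Finset.range N, C (q ^ m) * MvPolynomial.map (algebraMap ℚ ℝ) (G.coeff m) := by
  unfold evF
  rw [Polynomial.coe_eval₂RingHom, Polynomial.eval₂_eq_sum_range' _ hN]
  refine Finset.sum_congr rfl fun m _ => ?_
  rw [map_pow, mul_comm]

theorem evF_bar (G : Polynomial (MvPolynomial ℕ ℚ)) (q : ℝ) (n : ℕ) (ρ : Multiset ℕ) (N : ℕ) (hN : G.natDegree < N) :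
    barCoeff (evF q G) n ρ = ∑ m ∈ Finset.range N, ((barCoeff (G.coeff m) n ρ : ℚ) : ℝ) * q ^ m := by
  rw [EvF_eval G q N hN, EvF_sum]
  refine Finset.sum_congr rfl fun m _ => ?_
  rw [EvF_C, barCoeff_map, mul_comm]

theorem exists_P (a b d : ℕ) (ha : 1 ≤ a) (hab : a ≤ b) (c : Nat.Partition d → Polynomial ℕ) (ρ : Multiset ℕ) :
    ∃ P : Polynomial ℕ, ∀ q : ℝ, barCoeff (evF q (F a b c)) (b * d) ρ - barCoeff (evF q (F b a c)) (a * d) ρ =
      P.eval₂ (Nat.castRingHom ℝ) q := by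
  choose n hn using fun m => TPath.main a b d ha hab c m ρ
  refine ⟨∑ m ∈ Finset.range (max (F a b c).natDegree (F b a c).natDegree + 1), Polynomial.C (n m) * Polynomial.X ^ m, fun q => ?_⟩
  rw [evF_bar _ q _ ρ _ (Nat.lt_succ_of_le (le_max_left (F a b c).natDegree (F b a c).natDegree)),
    evF_bar _ q _ ρ _ (Nat.lt_succ_of_le (le_max_right (F a b c).natDegree (F b a c).natDegree)), ← Finset.sum_sub_distrib,
    Polynomial.eval₂_finsetSum]
  refine Finset.sum_congr rfl fun m _ => ?_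
  rw [Polynomial.eval₂_mul, Polynomial.eval₂_C, Polynomial.eval₂_X_pow, ← sub_mul, ← Rat.cast_sub, hn m, Rat.cast_natCast]
  rfl

theorem row_evF (a b d : ℕ) (ha : 1 ≤ a) (hab : a ≤ b) (c : Nat.Partition d → Polynomial ℕ) (j : ℕ) (q : ℝ) :
    barCoeff (evF q (F a b c)) (b * d) (if j = 0 then 0 else {j}) =
      barCoeff (evF q (F b a c)) (a * d) (if j = 0 then 0 else {j}) := by
  rw [evF_bar _ q _ _ _ (Nat.lt_succ_of_le (le_max_left (F a b c).natDegree (F b a c).natDegree)),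
    evF_bar _ q _ _ _ (Nat.lt_succ_of_le (le_max_right (F a b c).natDegree (F b a c).natDegree))]
  refine Finset.sum_congr rfl fun m _ => ?_
  rw [TPath.main_row a b d ha hab c m j]

private theorem EvF_nat (p : Polynomial ℕ) (q : ℝ) : evF q (p.map (Nat.castRingHom (MvPolynomial ℕ ℚ))) =
    C (p.eval₂ (Nat.castRingHom ℝ) q) := by
  unfold evF
  rw [Polynomial.coe_eval₂RingHom, Polynomial.eval₂_map, Polynomial.hom_eval₂]
  congr 1
  exact Subsingleton.elim _ _

theorem evF_F (a b d : ℕ) (c : Nat.Partition d → Polynomial ℕ) (q : ℝ) : evF q (F a b c) =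
    ∑ μ : Nat.Partition d, ((c μ).eval₂ (Nat.castRingHom ℝ) q) • (μ.parts.map fun k => evF q (S a b k)).prod := by
  unfold F
  rw [map_sum]
  refine Finset.sum_congr rfl fun μ _ => ?_
  rw [map_mul, EvF_nat, map_multiset_prod, Multiset.map_map, MvPolynomial.smul_eq_C_mul]
  rfl

end NG
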