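import Pool.Agent.Lib.MP_630b78_co.NG.LimC

/-!
# The limit of `f^(a,b)`
-/

namespace NG

open MvPolynomial EllHall Filter Topology

private theorem LimE_PO (q : ℝ) (a b : ℕ) (L : List ℕ) : PO fun t => (L.map fun m => GG q a b m t).prod := by
  induction L with
  | nil =>
    simp only [List.map_nil, List.prod_nil]
    exact PO.one
  | cons m L ih =>
    simp only [List.map_cons, List.prod_cons]
    exact (PO_GG q a b m).mul ih

private theorem LimE_one (q : ℝ) (a b : ℕ) (L : List ℕ) :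
    (L.map fun m => GG q a b m 1).prod 1 = (L.map (kap q a b)).prod := by
  induction L with
  | nil => simp
  | cons m L ih =>
    rw [List.map_cons, List.prod_cons, Module.End.mul_apply, ih, GG_one, List.map_cons, List.prod_cons]

theorem tendsto_ff {q : ℝ} {a b d : ℕ} {T : ℝ → ℕ → ℕ → Module.End ℝ (MvPolynomial ℕ ℝ)}
    (hT : ∀ᶠ t in 𝓝[≠] (1 : ℝ), ∀ m, 1 ≤ m → T t (a * m) (b * m) = GG q a b m t)
    {s : ℝ → Nat.Partition d → ℝ} {s1 : Nat.Partition d → ℝ}
    (hs : ∀ μ, Tendsto (fun t => s t μ) (𝓝[≠] (1 : ℝ)) (𝓝 (s1 μ))) (φ : MvPolynomial ℕ ℝ →ₗ[ℝ] ℝ) :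
    Tendsto (fun t => φ (ff (T t) (fun _ => (1 : ℝ)) (s t) a b)) (𝓝[≠] (1 : ℝ))
      (𝓝 (φ (∑ μ : Nat.Partition d, s1 μ • (μ.parts.map (kap q a b)).prod))) := by
  have h1 : (fun t => φ (ff (T t) (fun _ => (1 : ℝ)) (s t) a b)) =ᶠ[𝓝[≠] (1 : ℝ)]
      fun t => ∑ μ : Nat.Partition d, s t μ * φ (((μ.parts.sort (· ≥ ·)).map fun m => GG q a b m t).prod 1) := by
    filter_upwards [hT] with t ht
    unfold ff opProd
    rw [map_sum]
    refine Finset.sum_congr rfl fun μ _ => ?_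
    rw [map_smul, smul_eq_mul]
    have e : ((μ.parts.sort (· ≥ ·)).map fun m => (1 : ℝ) • T t (a * m) (b * m)) =
        (μ.parts.sort (· ≥ ·)).map fun m => GG q a b m t := by
      refine List.map_congr_left fun m hm => ?_
      have hm' : m ∈ μ.parts := (Multiset.mem_sort (· ≥ ·)).1 hm
      rw [one_smul, ht m (μ.parts_pos hm')]
    rw [e]
  have h2 : φ (∑ μ : Nat.Partition d, s1 μ • (μ.parts.map (kap q a b)).prod) =
      ∑ μ : Nat.Partition d, s1 μ * φ (((μ.parts.sort (· ≥ ·)).map fun m => GG q a b m 1).prod 1) := by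
    rw [map_sum]
    refine Finset.sum_congr rfl fun μ _ => ?_
    rw [map_smul, smul_eq_mul, LimE_one]
    have e : (μ.parts.map (kap q a b)).prod = ((μ.parts.sort (· ≥ ·)).map (kap q a b)).prod := by
      conv_lhs => rw [← Multiset.sort_eq μ.parts (· ≥ ·)]
      rw [Multiset.map_coe, Multiset.prod_coe]
    rw [e]
  rw [h2]
  refine Tendsto.congr' h1.symm ?_
  refine tendsto_finset_sum _ fun μ _ => ?_
  refine (hs μ).mul ?_
  have h3 : PD fun t => ((μ.parts.sort (· ≥ ·)).map fun m => GG q a b m t).prod 1 := LimE_PO q a b _ 1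
  exact (h3.tendsto φ).mono_left nhdsWithin_le_nhds

end NG
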