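import Pool.Agent.Lib.MP_630b78_co.NG.Defs
import Pool.Agent.Lib.MP_630b78_co.TP.Defs

/-!
# The sum of the boundary
-/

namespace NG

open MvPolynomial EllHall TPath

private theorem LowS_card (a b k e : ℕ) (ha : 1 ≤ a) (hb : 1 ≤ b) (h : Nat.Coprime a b) (he : e + 1 < a * k) :
    b * (e + 1) / a + 1 = ((Finset.range (b * k)).filter fun y => a * y < b * (e + 1)).card + (if a ∣ e + 1 then 1 else 0) := by
  have h1 : b * (e + 1) / a < b * k := by
    rw [Nat.div_lt_iff_lt_mul (by omega)]
    calc b * (e + 1) < b * (a * k) := Nat.mul_lt_mul_of_pos_left he (by omega)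
      _ = b * k * a := by ring
  have h2 := Nat.div_add_mod (b * (e + 1)) a
  have h3 := Nat.mod_lt (b * (e + 1)) (show a > 0 by omega)
  have h4 : a ∣ e + 1 ↔ b * (e + 1) % a = 0 := by
    rw [← Nat.dvd_iff_mod_eq_zero, h.dvd_mul_left]
  generalize b * (e + 1) / a = q at *
  generalize b * (e + 1) % a = m at *
  rw [← h2]
  by_cases hd : a ∣ e + 1
  · have hm : m = 0 := h4.1 hd
    rw [if_pos hd]
    congr 1
    have h5 : (Finset.range (b * k)).filter (fun y => a * y < a * q + m) = Finset.range q := by
      ext y
      simp only [Finset.mem_filter, Finset.mem_range]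
      rw [hm, add_zero, Nat.mul_lt_mul_left (by omega)]
      omega
    rw [h5, Finset.card_range]
  · have hm : m ≠ 0 := fun h0 => hd (h4.2 h0)
    rw [if_neg hd, add_zero]
    have h5 : (Finset.range (b * k)).filter (fun y => a * y < a * q + m) = Finset.range (q + 1) := by
      ext y
      simp only [Finset.mem_filter, Finset.mem_range]
      constructor
      · rintro ⟨-, h6⟩
        by_contra h7
        have h8 : a * (q + 1) ≤ a * y := Nat.mul_le_mul_left a (by omega)
        rw [Nat.mul_add, mul_one] at h8
        omega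
      · intro h6
        have h8 : a * y ≤ a * q := Nat.mul_le_mul_left a (by omega)
        omega
    rw [h5, Finset.card_range]

theorem sum_bdry (a b k : ℕ) (ha : 1 ≤ a) (hb : 1 ≤ b) (hk : 1 ≤ k) (h : Nat.Coprime a b) :
    ∑ i ∈ Finset.range (a * k), bdry a b k (i + 1) = low a b k + (k - 1) := by
  obtain ⟨n, hn⟩ : ∃ n, a * k = n + 1 := ⟨a * k - 1, by have := Nat.mul_pos (show 0 < a by omega) (show 0 < k by omega); omega⟩
  have h1 : ∀ i ∈ Finset.range n, bdry a b k (i + 1) =
      ((Finset.range (b * k)).filter fun y => a * y < b * (i + 1)).card + (if a ∣ i + 1 then 1 else 0) := by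
    intro i hi
    rw [Finset.mem_range] at hi
    unfold bdry
    rw [if_neg (by omega), if_neg (by omega)]
    exact LowS_card a b k i ha hb h (by omega)
  have h2 : ∑ i ∈ Finset.range n, (if a ∣ i + 1 then 1 else 0) = k - 1 := by
    rw [← Finset.card_filter, Nat.card_multiples]
    obtain ⟨j, rfl⟩ : ∃ j, k = j + 1 := ⟨k - 1, by omega⟩
    have h3 : n = (a - 1) + a * j := by
      rw [Nat.mul_add, mul_one] at hn
      omega
    rw [h3, Nat.add_mul_div_left _ _ (by omega), Nat.div_eq_of_lt (by omega)]
    omega
  have h3 : bdry a b k (n + 1) = ((Finset.range (b * k)).filter fun y => a * y < b * (n + 1)).card := by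
    unfold bdry
    rw [if_neg (by omega), if_pos hn.symm, Finset.filter_true_of_mem, Finset.card_range]
    intro y hy
    rw [Finset.mem_range] at hy
    rw [← hn]
    calc a * y < a * (b * k) := Nat.mul_lt_mul_of_pos_left hy (by omega)
      _ = b * (a * k) := by ring
  unfold low
  rw [hn, Finset.sum_range_succ, Finset.sum_range_succ, Finset.sum_congr rfl h1, Finset.sum_add_distrib, h2, h3]
  ring

end NG
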