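import Pool.Agent.Lib.MP_630b78_co.NG.PathB
import Pool.Agent.Lib.MP_630b78_co.NG.LowS
import Pool.Agent.Lib.MP_630b78_co.NG.EvA
import Pool.Agent.Lib.MP_630b78_co.TP.Prm
import Pool.Agent.Lib.MP_630b78_co.TP.Area

/-!
# The path sums and the lists `V_k`
-/

namespace NG

open MvPolynomial EllHall TPath

private theorem pathC_len (w : List Bool) : w.length = w.count true + w.count false := by
  induction w with
  | nil => rfl
  | cons a w ih =>
    rw [List.length_cons, ih]
    cases a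
    · rw [List.count_cons_of_ne (by decide), List.count_cons_self]
      omega
    · rw [List.count_cons_self, List.count_cons_of_ne (by decide)]
      omega

private theorem pathC_prim (a b k : ℕ) (ha : 1 ≤ a) (hb : 1 ≤ b) (hk : 1 ≤ k) :
    prim a b k = PW (bdry a b k) (b * k) (a * k) 0 0 := by
  ext w
  rw [mem_prim ha hb hk]
  simp only [PW, Finset.mem_filter, mem_words]
  constructor
  · rintro ⟨h1, h2, h3⟩
    exact ⟨by rw [pathC_len, h1, h2], h1, h2, h3⟩
  · rintro ⟨-, h1, h2, h3⟩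
    exact ⟨h1, h2, h3⟩

private theorem pathC_ev (q : ℝ) (n : ℕ) (l : List ℕ) :
    evF q (Polynomial.X ^ n * Polynomial.C ((l.map (ee ℚ)).prod)) = q ^ n • (l.map (ee ℝ)).prod := by
  have h1 : evF q (Polynomial.X ^ n) = C (q ^ n) := by
    unfold evF
    rw [map_pow, Polynomial.coe_eval₂RingHom, Polynomial.eval₂_X, C_pow]
  have h2 : evF q (Polynomial.C ((l.map (ee ℚ)).prod)) = (l.map (ee ℝ)).prod := by
    unfold evF
    rw [Polynomial.coe_eval₂RingHom, Polynomial.eval₂_C, map_list_prod, List.map_map]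
    congr 2
    funext i
    exact map_ee i
  rw [map_mul, h1, h2, smul_eq_C_mul]

private theorem pathC_Vd (φ : ℕ → ℕ) (B : ℕ) : ∀ e : ℕ, Vd φ (φ e : ℤ) e B =
    (List.range B).map fun i => (φ (e + i + 1) : ℤ) - (φ (e + i) : ℤ) := by
  induction B with
  | zero => intro e; rfl
  | succ B ih =>
    intro e
    rw [List.range_succ_eq_map, List.map_cons, List.map_map]
    show ((φ (e + 1) : ℤ) - φ e) :: Vd φ (φ (e + 1) : ℤ) (e + 1) B = _
    rw [ih (e + 1)]
    congr 1
    apply List.map_congr_left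
    intro i _
    show (φ (e + 1 + i + 1) : ℤ) - (φ (e + 1 + i) : ℤ) = (φ (e + (i + 1) + 1) : ℤ) - (φ (e + (i + 1)) : ℤ)
    rw [show e + 1 + i = e + (i + 1) by ring]

theorem evF_S (a b k : ℕ) (ha : 1 ≤ a) (hb : 1 ≤ b) (hk : 1 ≤ k) (h : Nat.Coprime a b) (q : ℝ) (hq : q ≠ 0) :
    evF q (S a b k) = (-1 : ℝ) ^ (b * k) • sk q (Vl a b) k := by
  have hak : 1 ≤ a * k := Nat.mul_pos ha hk
  have h1 : evF q (S a b k) =
      ∑ w ∈ prim a b k, q ^ area a b 0 0 w • ((vr 0 w).map (ee ℝ)).prod := by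
    unfold S
    rw [map_sum]
    exact Finset.sum_congr rfl fun w _ => pathC_ev q _ _
  have h2 : q ^ low a b k • evF q (S a b k) = PS q (bdry a b k) (b * k) (a * k) 0 0 0 := by
    rw [h1, Finset.smul_sum]
    unfold PS
    rw [← pathC_prim a b k ha hb hk]
    refine Finset.sum_congr rfl fun w hw => ?_
    rw [smul_smul, ar_area hw, pow_add, mul_comm]
  have h0 : bdry a b k 0 = 0 := by
    unfold bdry
    rw [if_pos rfl]
  have h3 : bdry a b k (a * k) = b * k := by
    unfold bdry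
    rw [if_neg (by omega), if_pos rfl]
  obtain ⟨B, hB⟩ : ∃ B, a * k = B + 1 := ⟨a * k - 1, by omega⟩
  have h4 : PS q (bdry a b k) (b * k) (B + 1) 0 0 0 =
      ((-1) ^ (b * k) * q ^ (∑ i ∈ Finset.range (B + 1), bdry a b k (0 + 1 + i))) •
        ps q (Vd (bdry a b k) ((0 : ℕ) : ℤ) 0 (B + 1)) := by
    refine PS_eq q (bdry a b k) B (b * k) 0 0 (by rw [h0]) ?_
    rw [zero_add, zero_add, ← hB, h3]
  rw [← hB] at h4
  have h5 : ∑ i ∈ Finset.range (a * k), bdry a b k (0 + 1 + i) = low a b k + (k - 1) := by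
    rw [← sum_bdry a b k ha hb hk h]
    refine Finset.sum_congr rfl fun i _ => ?_
    rw [show 0 + 1 + i = i + 1 by ring]
  have h6 : Vd (bdry a b k) ((0 : ℕ) : ℤ) 0 (a * k) = Vl a b k := by
    have h7 := pathC_Vd (bdry a b k) (a * k) 0
    rw [h0] at h7
    rw [h7]
    unfold Vl
    apply List.map_congr_left
    intro i _
    rw [zero_add]
  rw [h4, h5, h6] at h2
  have hq2 : q ^ low a b k ≠ 0 := pow_ne_zero _ hq
  apply smul_right_injective _ hq2
  show q ^ low a b k • evF q (S a b k) = q ^ low a b k • ((-1 : ℝ) ^ (b * k) • sk q (Vl a b) k)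
  rw [h2]
  unfold sk
  rw [smul_smul, smul_smul, pow_add]
  congr 1
  ring

end NG
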