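import Pool.Agent.Lib.MP_630b78_co.NG.Kap
import Pool.Agent.Lib.MP_630b78_co.EH.Newton

/-!
# The homomorphism `θ`: values at `e_n` and `q_d`
-/

namespace NG

open MvPolynomial EllHall

variable {K : Type} [Field K] [CharZero K]

private theorem thB_sign (n : ℕ) : ((-1 : MvPolynomial ℕ K) ^ n) * (-1) ^ n = 1 := by
  rw [← mul_pow, neg_mul_neg, one_mul, one_pow]

theorem theta_ee {q : K} {V : ℕ → List ℤ} {b : ℕ} {θ : MvPolynomial ℕ K →ₐ[K] MvPolynomial ℕ K}
    (hθ : ∀ n, 1 ≤ n → θ (hh K n) = (-1) ^ (n - 1) * ((-1) ^ (b * n) * sk q V n)) (n : ℕ) :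
    θ (ee K n) = (-1) ^ (b * n) * UU (sk q V) n := by
  induction n using Nat.strong_induction_on with
  | _ n ih =>
    cases n with
    | zero => rw [ee, map_one, UU, mul_zero, pow_zero, one_mul]
    | succ n =>
      have h1 := congrArg θ (alt_sum (K := K) (n + 1) (Nat.succ_pos n))
      rw [map_sum, map_zero, Finset.sum_range_succ, Nat.sub_self] at h1
      have h2 : ∀ i ∈ Finset.range (n + 1), θ ((-1) ^ i * (ee K i * hh K (n + 1 - i))) =
          (-1) ^ n * ((-1) ^ (b * (n + 1)) * (UU (sk q V) i * sk q V (n + 1 - i))) := by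
        intro i hi
        rw [Finset.mem_range] at hi
        rw [map_mul, map_mul, map_pow, map_neg, map_one, ih i hi, hθ (n + 1 - i) (by omega)]
        have e1 : (-1 : MvPolynomial ℕ K) ^ n = (-1) ^ i * (-1) ^ (n + 1 - i - 1) := by
          rw [← pow_add]
          congr 1
          omega
        have e2 : (-1 : MvPolynomial ℕ K) ^ (b * (n + 1)) = (-1) ^ (b * i) * (-1) ^ (b * (n + 1 - i)) := by
          rw [← pow_add, ← Nat.mul_add]
          congr 2
          omega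
        rw [e1, e2]
        ring
      rw [Finset.sum_congr rfl h2, ← Finset.mul_sum, ← Finset.mul_sum, map_mul, map_mul, map_pow, map_neg, map_one,
        hh, map_one, mul_one] at h1
      have h3 : UU (sk q V) (n + 1) = ∑ i ∈ Finset.range (n + 1), UU (sk q V) i * sk q V (n + 1 - i) := by
        rw [UU, ← Finset.sum_range fun j => sk q V (j + 1) * UU (sk q V) (n - j), ← Finset.sum_range_reflect]
        refine Finset.sum_congr rfl fun i hi => ?_
        rw [Finset.mem_range] at hi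
        rw [show n + 1 - 1 - i + 1 = n + 1 - i by omega, show n - (n + 1 - 1 - i) = i by omega, mul_comm]
      rw [← h3] at h1
      have h4 : (-1 : MvPolynomial ℕ K) ^ (n + 1) * ((-1) ^ (n + 1) * θ (ee K (n + 1))) =
          (-1) ^ (n + 1) * (-((-1) ^ n * ((-1) ^ (b * (n + 1)) * UU (sk q V) (n + 1)))) := by
        congr 1
        linear_combination h1
      rw [← mul_assoc, thB_sign, one_mul] at h4
      rw [h4, pow_succ (-1 : MvPolynomial ℕ K) n]
      have h5 := thB_sign (K := K) n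
      linear_combination ((-1) ^ (b * (n + 1)) * UU (sk q V) (n + 1)) * h5

private theorem qd_eq {q : K} (d : ℕ) : qd q 1 d = ∑ J ∈ Finset.range d,
    ((-1) ^ J * ∑ j ∈ Finset.range (J + 1), (q ^ j)⁻¹) • (hh K (J + 1) * ee K (d - 1 - J)) := by
  unfold qd hook
  have h1 : ∀ j ∈ Finset.range d, ((-(q * 1)) ^ j)⁻¹ • ∑ i ∈ Finset.range (d - 1 - j + 1),
      (-1) ^ i * hh K (j + 1 + i) * ee K (d - 1 - j - i) =
      ∑ i ∈ Finset.range (d - 1 - j + 1), ((-1) ^ (j + i) * (q ^ j)⁻¹) • (hh K (j + i + 1) * ee K (d - 1 - (j + i))) := by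
    intro j _
    rw [Finset.smul_sum]
    refine Finset.sum_congr rfl fun i _ => ?_
    rw [show (-1 : MvPolynomial ℕ K) ^ i = C ((-1) ^ i) by rw [C_pow, C_neg, C_1], mul_assoc, ← smul_eq_C_mul, smul_smul,
      show j + 1 + i = j + i + 1 by omega, show d - 1 - j - i = d - 1 - (j + i) by omega]
    congr 1
    rw [mul_one, neg_pow, mul_inv, pow_add]
    have h2 : (((-1 : K) ^ j)⁻¹) = (-1) ^ j := by
      rw [← inv_pow, inv_neg, inv_one]
    rw [h2]
    ring
  rw [Finset.sum_congr rfl h1]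
  simp only [Finset.mul_sum, Finset.sum_smul]
  rw [Finset.sum_sigma', Finset.sum_sigma']
  refine Finset.sum_bij' (fun x _ => ⟨x.1 + x.2, x.1⟩) (fun x _ => ⟨x.2, x.1 - x.2⟩) ?_ ?_ ?_ ?_ ?_
  · rintro ⟨j, i⟩ h
    simp only [Finset.mem_sigma, Finset.mem_range] at h ⊢
    omega
  · rintro ⟨J, j⟩ h
    simp only [Finset.mem_sigma, Finset.mem_range] at h ⊢
    omega
  · rintro ⟨j, i⟩ h
    simp
  · rintro ⟨J, j⟩ h
    simp only [Finset.mem_sigma, Finset.mem_range] at h
    simp only [Sigma.mk.injEq, heq_eq_eq, and_true]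
    omega
  · rintro ⟨j, i⟩ h
    rfl

theorem theta_qd {q : K} (hq : q ≠ 0) {a b : ℕ} (ha : 1 ≤ a) (hb : 1 ≤ b)
    {θ : MvPolynomial ℕ K →ₐ[K] MvPolynomial ℕ K}
    (hθ : ∀ n, 1 ≤ n → θ (hh K n) = (-1) ^ (n - 1) * ((-1) ^ (b * n) * sk q (Vl a b) n)) (d : ℕ) :
    θ (qd q 1 d) = kap q a b d := by
  rw [kap_eq hq ha hb, qd_eq, map_sum, Finset.mul_sum]
  refine Finset.sum_congr rfl fun J hJ => ?_
  rw [Finset.mem_range] at hJ
  rw [map_smul, map_mul, hθ (J + 1) (by omega), theta_ee hθ, Nat.add_sub_cancel]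
  have e2 : (-1 : MvPolynomial ℕ K) ^ (b * d) = (-1) ^ (b * (J + 1)) * (-1) ^ (b * (d - 1 - J)) := by
    rw [← pow_add, ← Nat.mul_add]
    congr 2
    omega
  rw [e2, smul_eq_C_mul, smul_eq_C_mul, C_mul, C_pow, C_neg, C_1]
  have h5 := thB_sign (K := K) J
  linear_combination (C (∑ i ∈ Finset.range (J + 1), (q ^ i)⁻¹) * (-1) ^ (b * (J + 1)) * (-1) ^ (b * (d - 1 - J)) *
    (UU (sk q (Vl a b)) (d - 1 - J) * sk q (Vl a b) (J + 1))) * h5

end NG
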