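import Pool.Agent.Lib.MP_630b78_co.NG.ThA
import Pool.Agent.Lib.MP_630b78_co.NG.ThB
import Pool.Agent.Lib.MP_630b78_co.NG.PathC
import Pool.Agent.Lib.MP_630b78_co.NG.EvF

/-!
# The value at `t = 1` of the seeds
-/

namespace NG

open MvPolynomial EllHall TPath

private theorem Seed_sign {A : Type} [CommRing A] : ∀ (s : Multiset ℕ), (∀ n ∈ s, 1 ≤ n) →
    Multiset.card s ≤ s.sum ∧ (s.map fun n => (-1 : A) ^ (n - 1)).prod = (-1) ^ (s.sum - Multiset.card s) := by
  intro s
  induction s using Multiset.induction_on with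
  | empty =>
    intro _
    simp
  | cons n s ih =>
    intro h
    obtain ⟨h1, h2⟩ := ih fun m hm => h m (Multiset.mem_cons_of_mem hm)
    have h3 := h n (Multiset.mem_cons_self n s)
    rw [Multiset.card_cons, Multiset.sum_cons, Multiset.map_cons, Multiset.prod_cons, h2, ← pow_add]
    refine ⟨by omega, ?_⟩
    congr 1
    omega

theorem seed_value {q : ℝ} (hq : q ≠ 0) {a b d : ℕ} (ha : 1 ≤ a) (hb : 1 ≤ b) (hab : Nat.Coprime a b)
    (c : Nat.Partition d → Polynomial ℕ) (s1 : Nat.Partition d → ℝ)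
    (hs : ∑ μ : Nat.Partition d, s1 μ • (μ.parts.map (qd q 1)).prod =
      ∑ μ : Nat.Partition d, (((c μ).map (Nat.castRingHom ℝ)).eval q * (-1) ^ (d - Multiset.card μ.parts)) •
        (μ.parts.map (hh ℝ)).prod) :
    ∑ μ : Nat.Partition d, s1 μ • (μ.parts.map (kap q a b)).prod = evF q (F a b c) := by
  obtain ⟨θ, hθ⟩ := exists_hom_hh (K := ℝ)
    (fun n => if n = 0 then 1 else (-1) ^ (n - 1) * ((-1) ^ (b * n) * sk q (Vl a b) n)) (if_pos rfl)
  have hθ' : ∀ n, 1 ≤ n → θ (hh ℝ n) = (-1) ^ (n - 1) * ((-1) ^ (b * n) * sk q (Vl a b) n) := by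
    intro n hn
    rw [hθ]
    exact if_neg (by omega)
  have hk := theta_qd hq ha hb hθ'
  have hev : ∀ n, 1 ≤ n → θ (hh ℝ n) = (-1) ^ (n - 1) * evF q (S a b n) := by
    intro n hn
    rw [hθ' n hn, evF_S a b n ha hb hn hab q hq, smul_eq_C_mul, map_pow, map_neg, map_one]
  have hL : ∀ μ : Nat.Partition d, θ (s1 μ • (μ.parts.map (qd q 1)).prod) = s1 μ • (μ.parts.map (kap q a b)).prod := by
    intro μ
    rw [map_smul, map_multiset_prod, Multiset.map_map]
    congr 2
    exact Multiset.map_congr rfl fun n _ => hk n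
  have hR : ∀ μ : Nat.Partition d, θ ((((c μ).map (Nat.castRingHom ℝ)).eval q * (-1) ^ (d - Multiset.card μ.parts)) •
      (μ.parts.map (hh ℝ)).prod) =
      ((c μ).eval₂ (Nat.castRingHom ℝ) q) • (μ.parts.map fun k => evF q (S a b k)).prod := by
    intro μ
    have h1 : θ (μ.parts.map (hh ℝ)).prod =
        (-1) ^ (d - Multiset.card μ.parts) * (μ.parts.map fun k => evF q (S a b k)).prod := by
      rw [map_multiset_prod, Multiset.map_map]
      have h2 : μ.parts.map (θ ∘ hh ℝ) = μ.parts.map fun n => (-1) ^ (n - 1) * evF q (S a b n) :=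
        Multiset.map_congr rfl fun n hn => hev n (μ.parts_pos hn)
      rw [h2, Multiset.prod_map_mul, (Seed_sign μ.parts fun n hn => μ.parts_pos hn).2, μ.parts_sum]
    rw [map_smul, h1, Polynomial.eval_map, smul_eq_C_mul, smul_eq_C_mul, map_mul, map_pow, map_neg, map_one]
    have h3 : ((-1 : MvPolynomial ℕ ℝ) ^ (d - Multiset.card μ.parts)) * (-1) ^ (d - Multiset.card μ.parts) = 1 := by
      rw [← mul_pow]
      simp
    calc C ((c μ).eval₂ (Nat.castRingHom ℝ) q) * (-1) ^ (d - Multiset.card μ.parts) *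
          ((-1) ^ (d - Multiset.card μ.parts) * (μ.parts.map fun k => evF q (S a b k)).prod) =
          C ((c μ).eval₂ (Nat.castRingHom ℝ) q) * (((-1 : MvPolynomial ℕ ℝ) ^ (d - Multiset.card μ.parts)) *
            (-1) ^ (d - Multiset.card μ.parts)) * (μ.parts.map fun k => evF q (S a b k)).prod := by ring
      _ = C ((c μ).eval₂ (Nat.castRingHom ℝ) q) * (μ.parts.map fun k => evF q (S a b k)).prod := by rw [h3, mul_one]
  have h1 := congrArg θ hs
  rw [map_sum, map_sum, Finset.sum_congr rfl fun μ _ => hL μ, Finset.sum_congr rfl fun μ _ => hR μ] at h1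
  rw [h1, evF_F]

end NG
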