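import Pool.Agent.Lib.MP_630b78_co.NG.Neg
import Pool.Agent.Lib.MP_630b78_co.NG.LimE
import Pool.Agent.Lib.MP_630b78_co.NG.Seed
import Pool.Agent.Lib.MP_630b78_co.NG.EvF

/-!
# The theorem
-/

namespace NG

open MvPolynomial EllHall TPath Filter Topology

private theorem exists_barL (n : ℕ) (ρ : Multiset ℕ) :
    ∃ φ : MvPolynomial ℕ ℝ →ₗ[ℝ] ℝ, ∀ g, φ g = barCoeff g n ρ := by
  refine ⟨{ toFun := fun g => barCoeff g n ρ, map_add' := ?_, map_smul' := ?_ }, fun _ => rfl⟩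
  · intro g f
    unfold barCoeff sc
    rw [← Finset.sum_add_distrib]
    refine Finset.sum_congr rfl fun μ _ => ?_
    split_ifs
    · exact hall_add_left _ _ _
    · rw [add_zero]
  · intro s g
    rw [RingHom.id_apply, smul_eq_mul]
    exact barCoeff_smul s g n ρ

theorem limit {q : ℝ} (hq0 : q ≠ 0) (hq1 : q ≠ 1) {a b d : ℕ} (ha : 1 ≤ a) (hb : 1 ≤ b) (hab : Nat.Coprime a b)
    (c : Nat.Partition d → Polynomial ℕ) {Q : ℝ → ℕ → ℕ → Module.End ℝ (MvPolynomial ℕ ℝ)}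
    (hQ : ∀ t : ℝ, t ≠ 1 → IsHall q t (Q t)) {s : ℝ → Nat.Partition d → ℝ} {s1 : Nat.Partition d → ℝ}
    (hs : ∀ μ, Tendsto (fun t => s t μ) (𝓝[≠] (1 : ℝ)) (𝓝 (s1 μ)))
    (h1 : ∑ μ : Nat.Partition d, s1 μ • (μ.parts.map (qd q 1)).prod =
      ∑ μ : Nat.Partition d, (((c μ).map (Nat.castRingHom ℝ)).eval q * (-1) ^ (d - Multiset.card μ.parts)) •
        (μ.parts.map (hh ℝ)).prod) (φ : MvPolynomial ℕ ℝ →ₗ[ℝ] ℝ) :
    Tendsto (fun t => φ (ff (Q t) (fun n => (-1 : ℝ) ^ (n + 1)) (s t) a b)) (𝓝[≠] (1 : ℝ)) (𝓝 (φ (evF q (F a b c)))) := by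
  have hM : ∀ t : ℝ, t ≠ 1 → (1 - q) * (1 - t) ≠ 0 := fun t ht =>
    mul_ne_zero (sub_ne_zero.2 hq1.symm) (sub_ne_zero.2 ht.symm)
  have hx : ∀ᶠ t in 𝓝[≠] (1 : ℝ), q * t ≠ 1 := by
    have h : Tendsto (fun t : ℝ => q * t) (𝓝[≠] 1) (𝓝 (q * 1)) :=
      ((continuous_const.mul continuous_id).tendsto 1).mono_left nhdsWithin_le_nhds
    rw [mul_one] at h
    exact h.eventually_ne hq1
  have hT : ∀ᶠ t in 𝓝[≠] (1 : ℝ), ∀ m, 1 ≤ m →
      (fun (t : ℝ) (m n : ℕ) => (-1 : ℝ) ^ (n + 1) • Q t m n) t (a * m) (b * m) = GG q a b m t := by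
    filter_upwards [hx, self_mem_nhdsWithin] with t h1 h2 m hm
    exact star (hM t h2) h1 (isT_of_isHall (hQ t h2)) a b m ha hb hab hm
  have key := tendsto_ff (T := fun (t : ℝ) (m n : ℕ) => (-1 : ℝ) ^ (n + 1) • Q t m n) hT hs φ
  rw [seed_value hq0 ha hb hab c s1 h1] at key
  refine key.congr fun t => ?_
  rw [ff_corrected]

theorem main_t (a b d : ℕ) (ha : 1 ≤ a) (hab : a ≤ b) (hc : Nat.Coprime a b) (c : Nat.Partition d → Polynomial ℕ) (ρ : Multiset ℕ) :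
    ∃ P : Polynomial ℕ, ∀ q : ℝ, q ≠ 0 → q ≠ 1 → ∀ Q : ℝ → ℕ → ℕ → Module.End ℝ (MvPolynomial ℕ ℝ),
      (∀ t : ℝ, t ≠ 1 → IsHall q t (Q t)) → ∀ (s : ℝ → Nat.Partition d → ℝ) (s1 : Nat.Partition d → ℝ),
      (∀ μ, Tendsto (fun t => s t μ) (𝓝[≠] (1 : ℝ)) (𝓝 (s1 μ))) →
      ∑ μ : Nat.Partition d, s1 μ • (μ.parts.map (qd q 1)).prod =
        ∑ μ : Nat.Partition d, (((c μ).map (Nat.castRingHom ℝ)).eval q * (-1) ^ (d - Multiset.card μ.parts)) •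
          (μ.parts.map (hh ℝ)).prod →
      Tendsto (fun t => barCoeff (ff (Q t) (fun n => (-1 : ℝ) ^ (n + 1)) (s t) a b) (b * d) ρ -
          barCoeff (ff (Q t) (fun n => (-1 : ℝ) ^ (n + 1)) (s t) b a) (a * d) ρ)
        (𝓝[≠] (1 : ℝ)) (𝓝 ((P.map (Nat.castRingHom ℝ)).eval q)) := by
  obtain ⟨P, hP⟩ := exists_P a b d ha hab c ρ
  refine ⟨P, fun q hq0 hq1 Q hQ s s1 hs h1 => ?_⟩
  obtain ⟨φ, hφ⟩ := exists_barL (b * d) ρ
  obtain ⟨ψ, hψ⟩ := exists_barL (a * d) ρ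
  have k1 := limit hq0 hq1 ha (ha.trans hab) hc c hQ hs h1 φ
  have k2 := limit hq0 hq1 (ha.trans hab) ha hc.symm c hQ hs h1 ψ
  have k3 := k1.sub k2
  simp only [hφ, hψ] at k3
  rw [hP q, ← Polynomial.eval_map] at k3
  exact k3

theorem main_t_row (a b d : ℕ) (ha : 1 ≤ a) (hab : a ≤ b) (hc : Nat.Coprime a b) (c : Nat.Partition d → Polynomial ℕ) (j : ℕ)
    (q : ℝ) (hq0 : q ≠ 0) (hq1 : q ≠ 1) (Q : ℝ → ℕ → ℕ → Module.End ℝ (MvPolynomial ℕ ℝ))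
    (hQ : ∀ t : ℝ, t ≠ 1 → IsHall q t (Q t)) (s : ℝ → Nat.Partition d → ℝ) (s1 : Nat.Partition d → ℝ)
    (hs : ∀ μ, Tendsto (fun t => s t μ) (𝓝[≠] (1 : ℝ)) (𝓝 (s1 μ)))
    (h1 : ∑ μ : Nat.Partition d, s1 μ • (μ.parts.map (qd q 1)).prod =
      ∑ μ : Nat.Partition d, (((c μ).map (Nat.castRingHom ℝ)).eval q * (-1) ^ (d - Multiset.card μ.parts)) •
        (μ.parts.map (hh ℝ)).prod) :
    Tendsto (fun t => barCoeff (ff (Q t) (fun n => (-1 : ℝ) ^ (n + 1)) (s t) a b) (b * d) (if j = 0 then 0 else {j}) -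
        barCoeff (ff (Q t) (fun n => (-1 : ℝ) ^ (n + 1)) (s t) b a) (a * d) (if j = 0 then 0 else {j}))
      (𝓝[≠] (1 : ℝ)) (𝓝 0) := by
  obtain ⟨φ, hφ⟩ := exists_barL (b * d) (if j = 0 then 0 else {j})
  obtain ⟨ψ, hψ⟩ := exists_barL (a * d) (if j = 0 then 0 else {j})
  have k1 := limit hq0 hq1 ha (ha.trans hab) hc c hQ hs h1 φ
  have k2 := limit hq0 hq1 (ha.trans hab) ha hc.symm c hQ hs h1 ψ
  have k3 := k1.sub k2
  simp only [hφ, hψ] at k3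
  rw [row_evF a b d ha hab c j q, sub_self] at k3
  exact k3

/-- the operators are symmetric in `q` and `t` -/
theorem hall_symm {q t : ℝ} {Q : ℕ → ℕ → Module.End ℝ (MvPolynomial ℕ ℝ)} (h : IsHall q t Q) : IsHall t q Q := by
  have e : D0 t q = D0 q t := by
    have h1 : shift t q = shift q t := by
      apply MvPolynomial.algHom_ext
      intro k
      simp only [shift, aeval_X]
      rw [mul_comm (1 - t ^ (k + 1))]
    apply LinearMap.ext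
    intro g
    show (shift t q g).sum (fun n c => c * ((-1) ^ n * ee ℝ n)) = (shift q t g).sum fun n c => c * ((-1) ^ n * ee ℝ n)
    rw [h1]
  refine ⟨by rw [h.q10, e], h.q01, ?_⟩
  intro a b k l d ha hb hd hk hl hdet
  rw [mul_comm (1 - t)]
  exact h.step a b k l d ha hb hd hk hl hdet

end NG
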