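import Pool.Agent.Lib.MP_630b78_co.NG.Defs

/-!
# The free algebra
-/

namespace NG

open MvPolynomial EllHall

variable {K : Type} [Field K]

theorem mo_append (v w : List Bool) : mo K (v ++ w) = mo K v * mo K w := by
  unfold mo
  rw [FreeMonoid.ofList_append, map_mul]

theorem mo_nil : mo K [] = 1 := by
  unfold mo
  rw [FreeMonoid.ofList_nil, map_one]

theorem EF_mo (q t : K) (c : ℕ) (w : List Bool) : EF q t c (mo K w) = Es q t (wd c w) := by
  show ((mo K w).coeff.sum fun w a => a • Es q t (wd c (FreeMonoid.toList w))) = _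
  unfold mo
  rw [MonoidAlgebra.of_apply, MonoidAlgebra.coeff_single, Finsupp.sum_single_index, one_smul, FreeMonoid.toList_ofList]
  exact zero_smul _ _

theorem lin_ext {N : Type} [AddCommGroup N] [Module K N] (f g : FA K →ₗ[K] N) (h : ∀ w, f (mo K w) = g (mo K w)) : f = g := by
  refine LinearMap.ext fun x => ?_
  induction x using MonoidAlgebra.induction_on with
  | of w => exact h (FreeMonoid.toList w)
  | add x y hx hy => rw [map_add, map_add, hx, hy]
  | smul r x hx => rw [map_smul, map_smul, hx]

theorem IsDer.one {d : FA K →ₗ[K] FA K} (h : IsDer d) : d 1 = 0 := by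
  have h1 := h 1 1
  rw [one_mul, mul_one, one_mul] at h1
  exact left_eq_add.1 h1

theorem IsDer.comm {d d' : FA K →ₗ[K] FA K} (h : IsDer d) (h' : IsDer d') : IsDer (d ∘ₗ d' - d' ∘ₗ d) := by
  intro x y
  simp only [LinearMap.sub_apply, LinearMap.comp_apply]
  rw [h' x y, h x y, map_add, map_add, h, h, h', h']
  noncomm_ring

theorem IsDer.mo {d : FA K →ₗ[K] FA K} (h : IsDer d) (w : List Bool) : d (NG.mo K w) =
    ∑ p ∈ Finset.range w.length, NG.mo K (w.take p) * d (NG.mo K [w.getD p false]) * NG.mo K (w.drop (p + 1)) := by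
  induction w with
  | nil => rw [mo_nil, h.one, List.length_nil, Finset.range_zero, Finset.sum_empty]
  | cons x w ih =>
    have e : NG.mo K (x :: w) = NG.mo K [x] * NG.mo K w := by
      rw [← mo_append, List.singleton_append]
    rw [e, h, ih, List.length_cons, Finset.sum_range_succ', Finset.mul_sum, add_comm]
    congr 1
    · refine Finset.sum_congr rfl fun p _ => ?_
      have e1 : NG.mo K (x :: w.take p) = NG.mo K [x] * NG.mo K (w.take p) := by
        rw [← mo_append, List.singleton_append]
      rw [List.take_succ_cons, List.getD_cons_succ, List.drop_succ_cons, e1]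
      simp only [mul_assoc]
    · rw [List.take_zero, mo_nil, one_mul, List.getD_cons_zero, List.drop_succ_cons, List.drop_zero]

end NG
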