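import Pool.Agent.Lib.MP_630b78_co.NG.FreeA

/-!
# Derivations of the free algebra
-/

namespace NG

open MvPolynomial EllHall

variable {K : Type} [Field K]

private noncomputable def FreeB_e (δ : Bool → FA K) : List Bool → FA K
  | [] => 0
  | x :: w => δ x * mo K w + mo K [x] * FreeB_e δ w

private theorem FreeB_append (δ : Bool → FA K) (v w : List Bool) :
    FreeB_e δ (v ++ w) = FreeB_e δ v * mo K w + mo K v * FreeB_e δ w := by
  induction v with
  | nil => rw [List.nil_append, mo_nil, one_mul, FreeB_e, zero_mul, zero_add]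
  | cons x v ih =>
    have h1 : mo K (x :: v) = mo K [x] * mo K v := mo_append [x] v
    rw [List.cons_append, FreeB_e, ih, mo_append v w, FreeB_e, h1]
    noncomm_ring

private noncomputable def FreeB_d (δ : Bool → FA K) : FA K →ₗ[K] FA K where
  toFun x := x.coeff.sum fun w a => a • FreeB_e δ (FreeMonoid.toList w)
  map_add' x y := by
    rw [MonoidAlgebra.coeff_add]
    exact Finsupp.sum_add_index' (fun _ => zero_smul _ _) (fun _ _ _ => add_smul _ _ _)
  map_smul' a x := by
    rw [MonoidAlgebra.coeff_smul, RingHom.id_apply, Finsupp.smul_sum]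
    rw [Finsupp.sum_smul_index (h := fun w a => a • FreeB_e δ (FreeMonoid.toList w)) (fun _ => zero_smul _ _)]
    refine Finsupp.sum_congr fun w _ => ?_
    rw [mul_smul]

private theorem FreeB_mo (δ : Bool → FA K) (w : List Bool) : FreeB_d δ (mo K w) = FreeB_e δ w := by
  have h1 : FreeB_d δ (mo K w) =
      (Finsupp.single (FreeMonoid.ofList w) (1 : K)).sum fun w a => a • FreeB_e δ (FreeMonoid.toList w) := rfl
  rw [h1, Finsupp.sum_single_index (h := fun w a => a • FreeB_e δ (FreeMonoid.toList w)) (zero_smul _ _),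
    one_smul, FreeMonoid.toList_ofList]

private theorem FreeB_word (δ : Bool → FA K) (v : List Bool) (y : FA K) :
    FreeB_d δ (mo K v * y) = FreeB_d δ (mo K v) * y + mo K v * FreeB_d δ y := by
  refine MonoidAlgebra.induction_on (motive := fun y : FA K =>
    FreeB_d δ (mo K v * y) = FreeB_d δ (mo K v) * y + mo K v * FreeB_d δ y) y ?_ ?_ ?_
  · intro n
    change FreeB_d δ (mo K v * mo K (FreeMonoid.toList n)) =
      FreeB_d δ (mo K v) * mo K (FreeMonoid.toList n) + mo K v * FreeB_d δ (mo K (FreeMonoid.toList n))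
    rw [← mo_append, FreeB_mo, FreeB_mo, FreeB_mo, FreeB_append]
  · intro a b ha hb
    rw [mul_add, map_add, ha, hb, map_add, mul_add, mul_add]
    abel
  · intro r a ha
    rw [mul_smul_comm, map_smul, ha, map_smul, smul_add, mul_smul_comm, mul_smul_comm]

private theorem FreeB_der (δ : Bool → FA K) : IsDer (FreeB_d δ) := by
  intro x y
  refine MonoidAlgebra.induction_on (motive := fun x : FA K =>
    FreeB_d δ (x * y) = FreeB_d δ x * y + x * FreeB_d δ y) x ?_ ?_ ?_
  · intro m
    exact FreeB_word δ (FreeMonoid.toList m) y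
  · intro a b ha hb
    rw [add_mul, map_add, ha, hb, map_add, add_mul, add_mul]
    abel
  · intro r a ha
    rw [smul_mul_assoc, map_smul, ha, map_smul, smul_add, smul_mul_assoc, smul_mul_assoc]

theorem exists_der (δ : Bool → FA K) : ∃ d : FA K →ₗ[K] FA K, IsDer d ∧ ∀ x, d (mo K [x]) = δ x := by
  refine ⟨FreeB_d δ, FreeB_der δ, fun x => ?_⟩
  rw [FreeB_mo, FreeB_e, FreeB_e, mo_nil, mul_one, mul_zero, add_zero]

end NG
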