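import Pool.Agent.Lib.MP_630b78_co.NG.DzA

/-!
# The operators `T_(1,n)`
-/

namespace NG

open MvPolynomial EllHall

variable {K : Type} [Field K]

theorem T_one {q t : K} {T : ℕ → ℕ → Module.End K (MvPolynomial ℕ K)} (hM : (1 - q) * (1 - t) ≠ 0) (hT : IsT q t T) (n : ℕ) :
    T 1 n = (-1 : K) ^ n • Dz q t n := by
  induction n with
  | zero => rw [hT.t10, D0_eq, pow_zero, one_smul, Nat.cast_zero]
  | succ n ih =>
    have h := Dz_mul_X q t (n : ℤ) 0
    rw [zero_add, pow_one, pow_one, Nat.cast_zero, add_zero] at h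
    rw [op_1n hM hT n, hT.t01, ih, smul_mul_assoc, h, mul_smul_comm, smul_add, sub_add_cancel_left, smul_neg,
      smul_comm ((-1 : K) ^ n), inv_smul_smul₀ hM, pow_succ, mul_neg_one, Nat.cast_succ]
    exact (neg_smul _ _).symm

end NG
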