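import Pool.Agent.Lib.MP_630b78_co.NG.PairB

/-!
# The lists `V_k` as words
-/

namespace NG

open MvPolynomial EllHall

variable {K : Type} [Field K]

private theorem wd_append (c : ℕ) (u v : List Bool) : wd c (u ++ v) = wd c u ++ wd c v := List.map_append

private theorem wd_true (c : ℕ) (u : List Bool) : wd c (true :: u) = ((c : ℤ) + 1) :: wd c u := by
  simp [wd]

private theorem wd_false (c : ℕ) (u : List Bool) : wd c (false :: u) = (c : ℤ) :: wd c u := by
  simp [wd]

private theorem wd_flatten (c i : ℕ) (u : List Bool) :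
    wd c (List.replicate i u).flatten = (List.replicate i (wd c u)).flatten := by
  unfold wd
  rw [List.map_flatten, List.map_replicate]

private theorem CB_zero (A B : List Bool) (k : ℕ) : CB A B 0 k = B ++ ((List.replicate k (B ++ A)).flatten ++ A) := by
  unfold CB
  rw [List.replicate_zero, List.flatten_nil, List.nil_append]

theorem Vl_word {V : ℕ → List ℤ} (hV : Glue V) {c : ℕ} {A B : List Bool} (h : wd c (B ++ A) = V 1) (hs : Swap A B) (k : ℕ) :
    V (k + 1) = wd c (CB A B 0 k) := by
  induction k with
  | zero =>
    rw [CB_zero, List.replicate_zero, List.flatten_nil, List.nil_append, h]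
  | succ k ih =>
    obtain ⟨A0, B0, hA, hB, hAB⟩ := hs
    obtain ⟨β, m, c', γ, h1, h2, h3⟩ := hV (k + 1) 1 (by omega) (by omega)
    have e1 : wd c (CB A B 0 k) = wd c (B ++ ((List.replicate k (B ++ A)).flatten ++ A0)) ++ [(c : ℤ)] := by
      have e0 : CB A B 0 k = (B ++ ((List.replicate k (B ++ A)).flatten ++ A0)) ++ [false] := by
        rw [CB_zero]
        generalize (List.replicate k (B ++ A)).flatten = C
        rw [hA]
        simp only [List.append_assoc]
      rw [e0, wd_append]
      congr 1
    rw [ih, e1] at h1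
    have e2 := List.append_inj' h1 rfl
    have e3 : m = (c : ℤ) := by
      have := e2.2
      rw [List.cons.injEq] at this
      exact this.1.symm
    have e4 : V 1 = ((c : ℤ) + 1) :: wd c (B0 ++ A) := by
      rw [← h, hB, List.cons_append, wd_true]
    rw [e4, List.cons.injEq] at h2
    have e5 : CB A B 0 (k + 1) =
        (B ++ ((List.replicate k (B ++ A)).flatten ++ A0)) ++ true :: false :: (B0 ++ A) := by
      rw [CB_zero, List.replicate_succ', List.flatten_append, List.flatten_singleton]
      have e6 : (B ++ A) ++ A = A0 ++ true :: false :: (B0 ++ A) := by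
        rw [← hAB]
        simp only [List.append_assoc, List.cons_append]
      generalize (List.replicate k (B ++ A)).flatten = C
      rw [List.append_assoc C, e6]
      simp only [List.append_assoc]
    rw [h3, e5, wd_append, wd_true, wd_false, ← e2.1, ← h2.1, ← h2.2, e3, add_sub_cancel_right]

theorem VV_word {V : ℕ → List ℤ} (hV : Glue V) {c : ℕ} {A B : List Bool} (h : wd c (B ++ A) = V 1) (hs : Swap A B) (i j : ℕ) :
    VV V i (j + 1) = wd c (CB A B i j) := by
  have h1 := Vl_word hV h hs j
  rw [CB_zero] at h1
  unfold VV CB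
  rw [wd_append, wd_flatten, h, h1]

theorem Swap.left {A B : List Bool} (h : Swap A B) : Swap A (B ++ A) := by
  obtain ⟨A0, B0, hA, hB, hAB⟩ := h
  refine ⟨A0, B0 ++ A, hA, by rw [hB, List.cons_append], ?_⟩
  rw [← hAB]
  simp only [List.append_assoc, List.cons_append]

theorem Swap.right {A B : List Bool} (h : Swap A B) : Swap (B ++ A) B := by
  obtain ⟨A0, B0, hA, hB, hAB⟩ := h
  refine ⟨B ++ A0, B0, ?_, hB, ?_⟩
  · conv_lhs => rw [hA]
    rw [List.append_assoc]
  · rw [List.append_assoc, hAB]

end NG
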