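import Pool.Agent.Lib.MP_630b78_co.NG.Chn
import Pool.Agent.Lib.MP_630b78_co.NG.ActA
import Pool.Agent.Lib.MP_630b78_co.NG.ClA
import Pool.Agent.Lib.MP_630b78_co.NG.VW
import Pool.Agent.Lib.MP_630b78_co.NG.TOne

/-!
# The Farey induction
-/

namespace NG

open MvPolynomial EllHall

variable {K : Type} [Field K]

private theorem Fy_wd (c : ℕ) (A B : List Bool) : wd c (A ++ B) = wd c A ++ wd c B := by
  unfold wd
  exact List.map_append

private theorem Fy_base {c u v k l : ℕ} (hu : 1 ≤ u) (hd : u * l = k * v + 1) (hv : c * u ≤ v) (hl : l ≤ (c + 1) * k) (h : u = k) :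
    u = 1 ∧ k = 1 ∧ v = c ∧ l = c + 1 := by
  subst h
  have h1 : u ∣ 1 := by
    have h2 : u ∣ u * v + 1 := ⟨l, hd.symm⟩
    exact (Nat.dvd_add_right (dvd_mul_right u v)).1 h2
  have h2 : u = 1 := Nat.dvd_one.1 h1
  subst h2
  omega

private theorem Fy_gt {c u v k l : ℕ} (hk : 1 ≤ k) (hd : u * l = k * v + 1) (hv : c * u ≤ v) (h : k < u) :
    ∃ u' v', u = k + u' ∧ v = l + v' ∧ 1 ≤ u' ∧ u' * l = k * v' + 1 ∧ c * u' ≤ v' := by
  obtain ⟨u', rfl⟩ := Nat.exists_eq_add_of_lt h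
  have hl0 : l ≠ 0 := by
    rintro rfl
    rw [mul_zero] at hd
    omega
  have hlv : l ≤ v := by
    by_contra hc
    have h1 : v + 1 ≤ l := by omega
    have h2 : (k + u' + 1) * (v + 1) ≤ (k + u' + 1) * l := Nat.mul_le_mul_left _ h1
    have h3 : k * v ≤ (k + u' + 1) * v := Nat.mul_le_mul_right _ (by omega)
    nlinarith
  obtain ⟨v', rfl⟩ := Nat.exists_eq_add_of_le hlv
  have h4 : (u' + 1) * l = k * v' + 1 := by nlinarith
  refine ⟨u' + 1, v', by ring, rfl, by omega, h4, ?_⟩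
  have h5 : c * k + 1 ≤ l := by
    by_contra hc
    have h6 : l ≤ c * k := by omega
    have h7 : (k + u' + 1) * l ≤ (k + u' + 1) * (c * k) := Nat.mul_le_mul_left _ h6
    have h8 : k * (c * (k + u' + 1)) ≤ k * (l + v') := Nat.mul_le_mul_left _ hv
    nlinarith
  by_contra hc
  have h9 : v' + 1 ≤ c * (u' + 1) := by omega
  have h10 : k * (v' + 1) ≤ k * (c * (u' + 1)) := Nat.mul_le_mul_left _ h9
  have h11 : (u' + 1) * (c * k + 1) ≤ (u' + 1) * l := Nat.mul_le_mul_left _ h5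
  nlinarith

private theorem Fy_lt {c u v k l : ℕ} (hu : 1 ≤ u) (hd : u * l = k * v + 1) (hl : l ≤ (c + 1) * k) (h : u < k) :
    ∃ k' l', k = k' + u ∧ l = l' + v ∧ 1 ≤ k' ∧ u * l' = k' * v + 1 ∧ l' ≤ (c + 1) * k' := by
  obtain ⟨k', rfl⟩ := Nat.exists_eq_add_of_lt h
  have hlv : v ≤ l := by
    by_contra hc
    have h1 : l ≤ v := by omega
    have h2 : u * l ≤ u * v := Nat.mul_le_mul_left _ h1
    nlinarith
  obtain ⟨l', rfl⟩ := Nat.exists_eq_add_of_le hlv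
  have h4 : u * l' = (k' + 1) * v + 1 := by nlinarith
  refine ⟨k' + 1, l', by ring, by ring, by omega, h4, ?_⟩
  have h5 : v + 1 ≤ (c + 1) * u := by
    by_contra hc
    have h6 : (c + 1) * u ≤ v := by omega
    have h7 : (u + k' + 1) * ((c + 1) * u) ≤ (u + k' + 1) * v := Nat.mul_le_mul_left _ h6
    have h8 : u * (v + l') ≤ u * ((c + 1) * (u + k' + 1)) := Nat.mul_le_mul_left _ hl
    nlinarith
  have h9 : u * l' ≤ u * ((c + 1) * (k' + 1)) := by
    have h10 : (k' + 1) * (v + 1) ≤ (k' + 1) * ((c + 1) * u) := Nat.mul_le_mul_left _ h5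
    nlinarith
  exact Nat.le_of_mul_le_mul_left h9 hu

theorem farey [CharZero K] {q t : K} {T : ℕ → ℕ → Module.End K (MvPolynomial ℕ K)} (hM : (1 - q) * (1 - t) ≠ 0) (hx : q * t ≠ 1)
    (hT : IsT q t T) (c u v k l : ℕ) (hu : 1 ≤ u) (hk : 1 ≤ k) (hd : u * l = k * v + 1) (hv : c * u ≤ v) (hl : l ≤ (c + 1) * k) :
    ∃ A B d d', Pair q t c A B d d' ∧ Swap A B ∧ wd c A = Cl u v ∧ wd c B = Cl k l ∧
      T u v = (-1 : K) ^ v • Es q t (wd c A) ∧ T k l = (-1 : K) ^ l • Es q t (wd c B) := by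
  obtain ⟨n, hn⟩ : ∃ n, n = u + k := ⟨_, rfl⟩
  induction n using Nat.strong_induction_on generalizing u v k l with
  | _ n ih =>
    rcases lt_trichotomy k u with h | h | h
    · obtain ⟨u', v', rfl, rfl, hu', hd', hv'⟩ := Fy_gt hk hd hv h
      obtain ⟨A, B, d, d', hp, hs, hA, hB, hTA, hTB⟩ := ih (u' + k) (by omega) u' v' k l hu' hk hd' hv' hl rfl
      refine ⟨B ++ A, B, _, _, hp.right hM, hs.right, ?_, hB, ?_, hTB⟩
      · rw [Fy_wd, hA, hB, Cl_append u' v' k l hu' hk hd']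
      · exact T_mid hM hT hp u' v' k l hu' hk hd' hTA hTB
    · obtain ⟨rfl, rfl, rfl, rfl⟩ := Fy_base hu hd hv hl h.symm
      obtain ⟨d, d', hp⟩ := base_pair q t hx v
      have e1 : wd v [false] = [(v : ℤ)] := by simp [wd]
      have e2 : wd v [true] = [((v + 1 : ℕ) : ℤ)] := by simp [wd]
      refine ⟨[false], [true], d, d', hp, ⟨[], [], rfl, rfl, rfl⟩, ?_, ?_, ?_, ?_⟩
      · rw [e1, Cl_one]
      · rw [e2, Cl_one]
      · rw [e1, T_one hM hT]
        rfl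
      · rw [e2, T_one hM hT]
        rfl
    · obtain ⟨k', l', rfl, rfl, hk', hd', hl'⟩ := Fy_lt hu hd hl h
      obtain ⟨A, B, d, d', hp, hs, hA, hB, hTA, hTB⟩ := ih (u + k') (by omega) u v k' l' hu hk' hd' hv hl' rfl
      refine ⟨A, B ++ A, _, _, hp.left hM, hs.left, hA, ?_, hTA, ?_⟩
      · rw [Fy_wd, hA, hB, Cl_append u v k' l' hu hk' hd']
      · exact T_mid hM hT hp u v k' l' hu hk' hd' hTA hTB

end NG
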