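import Pool.Agent.Lib.MP_630b78_co.NG.Defs

/-!
# Gluing the boundaries
-/

namespace NG

open MvPolynomial EllHall

variable {K : Type} [Field K]

private theorem GlM_lt {a b i j x : ℕ} (ha : 1 ≤ a) (hj : 1 ≤ j) (hx : x < a * i) :
    TPath.bdry a b (i + j) x = TPath.bdry a b i x := by
  have h1 : a * (i + j) = a * i + a * j := Nat.mul_add a i j
  have h2 : 1 ≤ a * j := Nat.mul_pos ha hj
  unfold TPath.bdry
  rcases Nat.eq_zero_or_pos x with h | h
  · rw [if_pos h, if_pos h]
  · rw [if_neg (by omega), if_neg (by omega), if_neg (by omega), if_neg (by omega)]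

private theorem GlM_mid {a b i j : ℕ} (ha : 1 ≤ a) (hi : 1 ≤ i) (hj : 1 ≤ j) :
    TPath.bdry a b (i + j) (a * i) = b * i + 1 := by
  have h1 : a * (i + j) = a * i + a * j := Nat.mul_add a i j
  have h2 : 1 ≤ a * j := Nat.mul_pos ha hj
  have h3 : 1 ≤ a * i := Nat.mul_pos ha hi
  unfold TPath.bdry
  rw [if_neg (by omega), if_neg (by omega)]
  congr 1
  rw [Nat.mul_left_comm]
  exact Nat.mul_div_cancel_left _ ha

private theorem GlM_gt {a b i j y : ℕ} (ha : 1 ≤ a) (hi : 1 ≤ i) (hy : 1 ≤ y) (hy' : y ≤ a * j) :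
    TPath.bdry a b (i + j) (a * i + y) = b * i + TPath.bdry a b j y := by
  have h1 : a * (i + j) = a * i + a * j := Nat.mul_add a i j
  have h3 : 1 ≤ a * i := Nat.mul_pos ha hi
  unfold TPath.bdry
  rcases Nat.lt_or_ge y (a * j) with h | h
  · rw [if_neg (by omega), if_neg (by omega), if_neg (by omega), if_neg (by omega), Nat.mul_add,
      Nat.mul_left_comm b a i, Nat.mul_add_div ha, Nat.add_assoc]
  · rw [if_neg (by omega), if_pos (by omega), if_neg (by omega), if_pos (by omega), Nat.mul_add]

private theorem GlM_end {a b i : ℕ} (ha : 1 ≤ a) (hi : 1 ≤ i) : TPath.bdry a b i (a * i) = b * i := by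
  have h3 : 1 ≤ a * i := Nat.mul_pos ha hi
  unfold TPath.bdry
  rw [if_neg (by omega), if_pos rfl]

theorem Glue_Vl (a b : ℕ) (ha : 1 ≤ a) : Glue (Vl a b) := by
  intro i j hi hj
  obtain ⟨n, hn⟩ : ∃ n, a * i = n + 1 := ⟨a * i - 1, by have := Nat.mul_pos ha hi; omega⟩
  obtain ⟨p, hp⟩ : ∃ p, a * j = p + 1 := ⟨a * j - 1, by have := Nat.mul_pos ha hj; omega⟩
  have hij : a * (i + j) = (n + 1) + (p + 1) := by rw [Nat.mul_add, hn, hp]
  refine ⟨(List.range n).map fun x => (TPath.bdry a b i (x + 1) : ℤ) - (TPath.bdry a b i x : ℤ),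
    (TPath.bdry a b i (n + 1) : ℤ) - (TPath.bdry a b i n : ℤ),
    (TPath.bdry a b j (0 + 1) : ℤ) - (TPath.bdry a b j 0 : ℤ),
    (List.range p).map fun x => (TPath.bdry a b j (x + 1 + 1) : ℤ) - (TPath.bdry a b j (x + 1) : ℤ), ?_, ?_, ?_⟩
  · unfold Vl
    rw [hn, List.range_succ, List.map_append]
    rfl
  · unfold Vl
    rw [hp, List.range_succ_eq_map, List.map_cons, List.map_map]
    rfl
  · unfold Vl
    rw [hij, List.range_add, List.range_succ, List.range_succ_eq_map, List.map_append, List.map_append,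
      List.append_assoc]
    have hm1 : TPath.bdry a b (i + j) (n + 1) = b * i + 1 := by rw [← hn]; exact GlM_mid ha hi hj
    have hm2 : TPath.bdry a b i (n + 1) = b * i := by rw [← hn]; exact GlM_end ha hi
    have hm3 : TPath.bdry a b (i + j) n = TPath.bdry a b i n := GlM_lt ha hj (by omega)
    have hg : ∀ y, 1 ≤ y → y ≤ p + 1 →
        TPath.bdry a b (i + j) (n + 1 + y) = b * i + TPath.bdry a b j y := by
      intro y h1 h2
      rw [← hn]
      exact GlM_gt ha hi h1 (by omega)
    have hz : TPath.bdry a b j 0 = 0 := by simp [TPath.bdry]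
    congr 1
    · refine List.map_congr_left fun x hx => ?_
      have hx' := List.mem_range.1 hx
      rw [GlM_lt ha hj (by omega), GlM_lt ha hj (by omega)]
    · rw [List.map_cons, List.map_nil, List.singleton_append, List.map_map, List.map_cons]
      congr 1
      · rw [hm1, hm2, hm3]
        push_cast
        ring
      · congr 1
        · simp only [Function.comp_apply, Nat.add_zero]
          rw [hm1, hg 1 le_rfl (by omega), hz]
          push_cast
          ring
        · rw [List.map_map]
          refine List.map_congr_left fun x hx => ?_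
          have hx' := List.mem_range.1 hx
          simp only [Function.comp_apply, Nat.succ_eq_add_one]
          rw [Nat.add_assoc (n + 1) (x + 1) 1, hg (x + 1 + 1) (by omega) (by omega),
            hg (x + 1) (by omega) (by omega)]
          push_cast
          ring

end NG
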