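import Pool.Agent.Lib.MP_630b78_co.NG.GlM

/-!
# The boundary lists are glued
-/

namespace NG

theorem glue_Vl (a b : ℕ) (ha : 1 ≤ a) (_hb : 1 ≤ b) : Glue (Vl a b) := Glue_Vl a b ha

end NG
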