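import Pool.Agent.Lib.MP_630b78_co.NG.PsA
import Pool.Agent.Lib.MP_630b78_co.NG.GlV

/-!
# The value of `T_(a d, b d)` at `t = 1`
-/

namespace NG

open MvPolynomial EllHall

variable {K : Type} [Field K]

theorem kap_eq {q : K} (hq : q ≠ 0) {a b : ℕ} (ha : 1 ≤ a) (hb : 1 ≤ b) (d : ℕ) :
    kap q a b d = (-1) ^ (b * d) * ∑ j ∈ Finset.range d,
      (∑ i ∈ Finset.range (j + 1), (q ^ i)⁻¹) • (UU (sk q (Vl a b)) (d - 1 - j) * sk q (Vl a b) (j + 1)) := by
  unfold kap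
  congr 1
  have h1 : ∀ k ∈ Finset.range d, ps q (VV (Vl a b) (d - 1 - k) (k + 1)) =
      ∑ i ∈ Finset.range (d - 1 - k + 1), (q ^ k)⁻¹ • (UU (sk q (Vl a b)) i * sk q (Vl a b) (d - i)) := by
    intro k hk
    rw [Finset.mem_range] at hk
    rw [ps_VV (glue_Vl a b ha hb) hq (d - 1 - k) (k + 1) (Nat.le_add_left 1 k), Nat.add_sub_cancel, Finset.smul_sum]
    refine Finset.sum_congr rfl fun i _ => ?_
    rw [show d - 1 - k + (k + 1) - i = d - i by omega]
  rw [Finset.sum_congr rfl h1]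
  simp only [Finset.sum_smul]
  rw [Finset.sum_sigma', Finset.sum_sigma']
  refine Finset.sum_bij' (fun x _ => ⟨d - 1 - x.2, x.1⟩) (fun x _ => ⟨x.2, d - 1 - x.1⟩) ?_ ?_ ?_ ?_ ?_
  · rintro ⟨k, i⟩ h
    simp only [Finset.mem_sigma, Finset.mem_range] at h ⊢
    omega
  · rintro ⟨j, i⟩ h
    simp only [Finset.mem_sigma, Finset.mem_range] at h ⊢
    omega
  · rintro ⟨k, i⟩ h
    simp only [Finset.mem_sigma, Finset.mem_range] at h
    simp only [Sigma.mk.injEq, heq_eq_eq, true_and]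
    omega
  · rintro ⟨j, i⟩ h
    simp only [Finset.mem_sigma, Finset.mem_range] at h
    simp only [Sigma.mk.injEq, heq_eq_eq, and_true]
    omega
  · rintro ⟨k, i⟩ h
    simp only [Finset.mem_sigma, Finset.mem_range] at h
    dsimp only
    rw [show d - 1 - (d - 1 - i) = i by omega, show d - 1 - i + 1 = d - i by omega]

end NG
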