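import Pool.Agent.Lib.MP_630b78_co.NG.LS

/-!
# Double sums
-/

namespace NG

open MvPolynomial EllHall

variable {K : Type} [Field K]

/-- a locally finite family with two indices -/
def LFF (T : ℕ → ℕ → Module.End K (MvPolynomial ℕ K)) : Prop := ∀ g, ∃ n, ∀ r s, n ≤ r + s → T r s g = 0

variable {T : ℕ → ℕ → Module.End K (MvPolynomial ℕ K)}

theorem LFF.left (h : LFF T) (r : ℕ) : LF (T r) := by
  intro g
  obtain ⟨n, hn⟩ := h g
  exact ⟨n, fun s hs => hn r s (by omega)⟩

private theorem outer_zero (h : LFF T) {g : MvPolynomial ℕ K} {n : ℕ} (hn : ∀ r s, n ≤ r + s → T r s g = 0) {r : ℕ}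
    (hr : n ≤ r) : ls (T r) g = 0 := by
  rw [ls_apply (h.left r) g 0 (fun s _ => hn r s (by omega)), Finset.sum_range_zero]

private theorem diag_zero {g : MvPolynomial ℕ K} {n : ℕ} (hn : ∀ r s, n ≤ r + s → T r s g = 0) {N : ℕ}
    (hN : n ≤ N) : (∑ r ∈ Finset.range (N + 1), T r (N - r)) g = 0 := by
  rw [LinearMap.sum_apply]
  exact Finset.sum_eq_zero fun r hr => hn _ _ (by have := Finset.mem_range.1 hr; omega)

theorem LFF.outer (h : LFF T) : LF fun r => ls (T r) := by
  intro g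
  obtain ⟨n, hn⟩ := h g
  exact ⟨n, fun r hr => outer_zero h hn hr⟩

theorem LFF.diag (h : LFF T) : LF fun N => ∑ r ∈ Finset.range (N + 1), T r (N - r) := by
  intro g
  obtain ⟨n, hn⟩ := h g
  exact ⟨n, fun N hN => diag_zero hn hN⟩

theorem ls_ls (h : LFF T) : ls (fun r => ls (T r)) = ls fun N => ∑ r ∈ Finset.range (N + 1), T r (N - r) := by
  refine LinearMap.ext fun g => ?_
  obtain ⟨n, hn⟩ := h g
  rw [ls_apply h.outer g n (fun r hr => outer_zero h hn hr), ls_apply h.diag g n (fun N hN => diag_zero hn hN)]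
  have h1 : ∀ r ∈ Finset.range n, ls (T r) g = ∑ s ∈ Finset.range (n - r), T r s g := fun r _ =>
    ls_apply (h.left r) g (n - r) fun s hs => hn r s (by omega)
  have h2 : ∀ N ∈ Finset.range n, (∑ r ∈ Finset.range (N + 1), T r (N - r)) g =
      ∑ r ∈ Finset.range (N + 1), T r (N - r) g := fun N _ => LinearMap.sum_apply _ _ _
  rw [Finset.sum_congr rfl h1, Finset.sum_congr rfl h2, Finset.sum_sigma', Finset.sum_sigma']
  refine Finset.sum_bij' (fun x _ => ⟨x.1 + x.2, x.1⟩) (fun y _ => ⟨y.2, y.1 - y.2⟩) ?_ ?_ ?_ ?_ ?_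
  · intro x hx
    rw [Finset.mem_sigma, Finset.mem_range, Finset.mem_range] at hx ⊢
    dsimp only
    omega
  · intro y hy
    rw [Finset.mem_sigma, Finset.mem_range, Finset.mem_range] at hy ⊢
    dsimp only
    omega
  · intro x _
    dsimp only
    rw [Nat.add_sub_cancel_left]
  · intro y hy
    rw [Finset.mem_sigma, Finset.mem_range, Finset.mem_range] at hy
    dsimp only
    rw [Nat.add_sub_cancel' (by omega)]
  · intro x _
    dsimp only
    rw [Nat.add_sub_cancel_left]

end NG
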