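import Pool.Agent.Lib.MP_630b78_co.NG.Defs

/-!
# The filtration by the weight
-/

namespace NG

open MvPolynomial EllHall

variable {K : Type} [Field K]

theorem Le.zero (n : ℤ) : Le n (0 : MvPolynomial ℕ K) := by
  intro m hm
  simp at hm

theorem Le.mono {n m : ℤ} {g : MvPolynomial ℕ K} (h : Le n g) (hnm : n ≤ m) : Le m g := by
  intro k hk
  exact (h k hk).trans hnm

theorem Le.add {n : ℤ} {g f : MvPolynomial ℕ K} (hg : Le n g) (hf : Le n f) : Le n (g + f) := by
  classical
  intro m hm
  rcases Finset.mem_union.1 (MvPolynomial.support_add hm) with h | h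
  · exact hg m h
  · exact hf m h

theorem Le.neg {n : ℤ} {g : MvPolynomial ℕ K} (hg : Le n g) : Le n (-g) := by
  intro m hm
  refine hg m ?_
  rw [MvPolynomial.mem_support_iff] at hm ⊢
  rw [MvPolynomial.coeff_neg] at hm
  exact fun h => hm (by rw [h, neg_zero])

theorem Le.sub {n : ℤ} {g f : MvPolynomial ℕ K} (hg : Le n g) (hf : Le n f) : Le n (g - f) := by
  rw [sub_eq_add_neg]
  exact hg.add hf.neg

theorem Le.smul {n : ℤ} {g : MvPolynomial ℕ K} (hg : Le n g) (a : K) : Le n (a • g) := by
  intro m hm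
  refine hg m ?_
  rw [MvPolynomial.mem_support_iff] at hm ⊢
  rw [MvPolynomial.coeff_smul] at hm
  exact fun h => hm (by rw [h, smul_zero])

theorem Le.mul {n m : ℤ} {g f : MvPolynomial ℕ K} (hg : Le n g) (hf : Le m f) : Le (n + m) (g * f) := by
  classical
  intro k hk
  obtain ⟨a, ha, b, hb, rfl⟩ := Finset.mem_add.1 (MvPolynomial.support_mul g f hk)
  rw [map_add]
  push_cast
  exact add_le_add (hg a ha) (hf b hb)

theorem Le.sum {ι : Type} (s : Finset ι) (f : ι → MvPolynomial ℕ K) {n : ℤ} (h : ∀ i ∈ s, Le n (f i)) :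
    Le n (∑ i ∈ s, f i) := by
  classical
  induction s using Finset.induction_on with
  | empty => simpa using Le.zero n
  | insert a s ha ih =>
    rw [Finset.sum_insert ha]
    exact (h a (Finset.mem_insert_self a s)).add (ih fun i hi => h i (Finset.mem_insert_of_mem hi))

theorem Le_monomial (m : ℕ →₀ ℕ) (a : K) : Le (Finsupp.weight (fun k : ℕ => k + 1) m : ℤ) (monomial m a) := by
  intro k hk
  have h := MvPolynomial.support_monomial_subset hk
  rw [Finset.mem_singleton.1 h]

theorem Le_one : Le 0 (1 : MvPolynomial ℕ K) := by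
  have h := Le_monomial (K := K) 0 1
  rw [map_zero] at h
  exact h

theorem Le_X (k : ℕ) : Le ((k : ℤ) + 1) (X k : MvPolynomial ℕ K) := by
  have h := Le_monomial (K := K) (Finsupp.single k 1) 1
  rw [Finsupp.weight_single] at h
  simpa [MvPolynomial.X] using h

theorem Le_neg {n : ℤ} (hn : n < 0) {g : MvPolynomial ℕ K} (h : Le n g) : g = 0 := by
  rw [← MvPolynomial.support_eq_empty, Finset.eq_empty_iff_forall_notMem]
  intro m hm
  have h1 := h m hm
  omega

theorem exists_Le (g : MvPolynomial ℕ K) : ∃ n : ℤ, Le n g := by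
  classical
  refine ⟨∑ m ∈ g.support, (Finsupp.weight (fun k : ℕ => k + 1) m : ℤ), fun m hm => ?_⟩
  exact Finset.single_le_sum (f := fun m : ℕ →₀ ℕ => (Finsupp.weight (fun k : ℕ => k + 1) m : ℤ))
    (fun i _ => by positivity) hm

theorem DegBy.mul {n m : ℤ} {S T : Module.End K (MvPolynomial ℕ K)} (hS : DegBy n S) (hT : DegBy m T) : DegBy (n + m) (S * T) := by
  intro k g hg
  have h := hS _ _ (hT _ _ hg)
  rw [show k + (n + m) = k + m + n by ring]
  exact h

theorem DegBy.smul {n : ℤ} {S : Module.End K (MvPolynomial ℕ K)} (hS : DegBy n S) (a : K) : DegBy n (a • S) := by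
  intro k g hg
  exact (hS _ _ hg).smul a

theorem DegBy.one : DegBy 0 (1 : Module.End K (MvPolynomial ℕ K)) := by
  intro k g hg
  rw [add_zero]
  exact hg

end NG
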