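import Pool.Agent.Lib.MP_630b78_co.NG.LeA
import Pool.Agent.Lib.MP_630b78_co.NG.DzA

/-!
# The operators `D_k` and the weight
-/

namespace NG

open MvPolynomial EllHall

variable {K : Type} [Field K]

private theorem LeB_sign (j : ℕ) {n : ℤ} {g : MvPolynomial ℕ K} (h : Le n g) : Le n ((-1) ^ j * g) := by
  rcases neg_one_pow_eq_or (MvPolynomial ℕ K) j with h1 | h1
  · rw [h1, one_mul]
    exact h
  · rw [h1, neg_one_mul]
    exact h.neg

private theorem LeB_ee (n : ℕ) : Le (n : ℤ) (ee K n) := by
  induction n using Nat.strong_induction_on with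
  | _ n ih =>
    rcases n with _ | n
    · rw [ee]
      exact Le_one
    · rw [ee, ← smul_eq_C_mul]
      refine Le.smul (Le.sum _ _ fun i _ => ?_) _
      rw [mul_assoc]
      refine LeB_sign _ ?_
      have hi : (i : ℕ) < n + 1 := i.2
      refine ((Le_X (i : ℕ)).mul (ih (n - i) (by omega))).mono (le_of_eq ?_)
      have : ((n - (i : ℕ) : ℕ) : ℤ) = (n : ℤ) - (i : ℕ) := by
        rw [Nat.cast_sub (by omega)]
      rw [this]
      push_cast
      ring

theorem Le_ez (z : ℤ) : Le z (ez K z) := by
  rcases lt_or_ge z 0 with hz | hz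
  · rw [ez_neg hz]
    exact Le.zero z
  · obtain ⟨n, rfl⟩ := Int.eq_ofNat_of_zero_le hz
    rw [ez_cast]
    exact LeB_sign n (LeB_ee n)

private theorem LeB_pow (q t : K) (i b : ℕ) {w : ℤ} {g : MvPolynomial ℕ K} (h : ∀ k : ℤ, Le (w + k) (Dz q t k g)) :
    ∀ k : ℤ, Le (w + (b : ℤ) * ((i : ℤ) + 1) + k) (Dz q t k (X i ^ b * g)) := by
  induction b with
  | zero =>
    intro k
    rw [pow_zero, one_mul]
    exact (h k).mono (by push_cast; linarith)
  | succ b ih =>
    intro k
    rw [pow_succ', mul_assoc, Dz_X_mul]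
    refine Le.add ?_ (Le.smul ?_ _)
    · exact ((Le_X i).mul (ih k)).mono (by push_cast; linarith)
    · exact (ih (k + i + 1)).mono (by push_cast; linarith)

private theorem LeB_mono (q t : K) (m : ℕ →₀ ℕ) (a : K) :
    ∀ k : ℤ, Le ((Finsupp.weight (fun k : ℕ => k + 1) m : ℤ) + k) (Dz q t k (monomial m a)) := by
  induction m using Finsupp.induction with
  | zero =>
    intro k
    have h1 : (monomial (0 : ℕ →₀ ℕ) a : MvPolynomial ℕ K) = a • 1 := by
      rw [smul_eq_C_mul, mul_one]
      rfl
    rw [h1, map_smul, Dz_one, map_zero]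
    exact ((Le_ez k).smul a).mono (by push_cast; linarith)
  | single_add i b f _ _ ih =>
    intro k
    have h1 : (monomial (Finsupp.single i b + f) a : MvPolynomial ℕ K) = X i ^ b * monomial f a := by
      rw [X_pow_eq_monomial, monomial_mul, one_mul]
    rw [h1]
    refine (LeB_pow q t i b ih k).mono (le_of_eq ?_)
    rw [map_add, Finsupp.weight_single, smul_eq_mul]
    push_cast
    ring

theorem DegBy_Dz (q t : K) (k : ℤ) : DegBy k (Dz q t k) := by
  intro m g hg
  rw [← support_sum_monomial_coeff g, map_sum]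
  refine Le.sum _ _ fun v hv => ?_
  exact (LeB_mono q t v _ k).mono (by linarith [hg v hv])

end NG
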