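import Pool.Agent.Lib.MP_630b78_co.NG.Defs

/-!
# Polynomial dependence on `t`
-/

namespace NG

open MvPolynomial EllHall

theorem PD.const (g : MvPolynomial ℕ ℝ) : PD fun _ => g :=
  ⟨Polynomial.C g, fun t => by rw [Polynomial.eval_C]⟩

theorem PD.add {X Y : ℝ → MvPolynomial ℕ ℝ} (hX : PD X) (hY : PD Y) : PD fun t => X t + Y t := by
  obtain ⟨F, hF⟩ := hX
  obtain ⟨G, hG⟩ := hY
  exact ⟨F + G, fun t => by dsimp only; rw [Polynomial.eval_add, hF, hG]⟩

theorem PD.mul {X Y : ℝ → MvPolynomial ℕ ℝ} (hX : PD X) (hY : PD Y) : PD fun t => X t * Y t := by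
  obtain ⟨F, hF⟩ := hX
  obtain ⟨G, hG⟩ := hY
  exact ⟨F * G, fun t => by dsimp only; rw [Polynomial.eval_mul, hF, hG]⟩

private theorem pd_scal (P : Polynomial ℝ) : PD fun t => C (P.eval t) := by
  refine ⟨P.map C, fun t => ?_⟩
  rw [Polynomial.eval_map, Polynomial.eval₂_at_apply]

theorem PD.smul {X : ℝ → MvPolynomial ℕ ℝ} (P : Polynomial ℝ) (hX : PD X) : PD fun t => P.eval t • X t := by
  have h := (pd_scal P).mul hX
  refine cast ?_ h
  congr 1
  funext t
  rw [smul_eq_C_mul]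

theorem PD.sum {ι : Type} (s : Finset ι) {X : ι → ℝ → MvPolynomial ℕ ℝ} (hX : ∀ i ∈ s, PD (X i)) :
    PD fun t => ∑ i ∈ s, X i t := by
  classical
  induction s using Finset.induction_on with
  | empty => simpa using PD.const 0
  | insert a s ha ih =>
    have h1 := (hX a (Finset.mem_insert_self a s)).add (ih fun i hi => hX i (Finset.mem_insert_of_mem hi))
    refine cast ?_ h1
    congr 1
    funext t
    rw [Finset.sum_insert ha]

theorem PD.tendsto {X : ℝ → MvPolynomial ℕ ℝ} (hX : PD X) (φ : MvPolynomial ℕ ℝ →ₗ[ℝ] ℝ) :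
    Filter.Tendsto (fun t => φ (X t)) (nhds 1) (nhds (φ (X 1))) := by
  obtain ⟨F, hF⟩ := hX
  have key : ∀ t, φ (X t) = ∑ i ∈ Finset.range (F.natDegree + 1), t ^ i * φ (F.coeff i) := by
    intro t
    rw [hF, Polynomial.eval_eq_sum_range, map_sum]
    refine Finset.sum_congr rfl fun i _ => ?_
    rw [← C_pow, mul_comm, ← smul_eq_C_mul, map_smul, smul_eq_mul]
  have hc : Continuous fun t : ℝ => φ (X t) := by
    simp only [key]
    exact continuous_finsetSum _ fun i _ => (continuous_pow i).mul continuous_const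
  exact hc.tendsto 1

end NG
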