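import Pool.Agent.Lib.MP_630b78_co.NG.LimA
import Pool.Agent.Lib.MP_630b78_co.NG.DzA

/-!
# Operators which depend polynomially on `t`
-/

namespace NG

open MvPolynomial EllHall

theorem PO.apply {O : ℝ → Module.End ℝ (MvPolynomial ℕ ℝ)} (hO : PO O) {X : ℝ → MvPolynomial ℕ ℝ} (hX : PD X) :
    PD fun t => O t (X t) := by
  obtain ⟨F, hF⟩ := hX
  have key : ∀ t, O t (X t) = ∑ i ∈ Finset.range (F.natDegree + 1), (Polynomial.X ^ i : Polynomial ℝ).eval t • O t (F.coeff i) := by
    intro t
    rw [hF, Polynomial.eval_eq_sum_range, map_sum]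
    refine Finset.sum_congr rfl fun i _ => ?_
    rw [← C_pow, mul_comm, ← smul_eq_C_mul, map_smul, Polynomial.eval_pow, Polynomial.eval_X]
  simp only [key]
  exact PD.sum _ fun i _ => (hO (F.coeff i)).smul _

theorem PO.mul {O O' : ℝ → Module.End ℝ (MvPolynomial ℕ ℝ)} (hO : PO O) (hO' : PO O') : PO fun t => O t * O' t :=
  fun g => hO.apply (hO' g)

theorem PO.one : PO fun _ => (1 : Module.End ℝ (MvPolynomial ℕ ℝ)) := fun g => PD.const g

theorem PO.smul {O : ℝ → Module.End ℝ (MvPolynomial ℕ ℝ)} (P : Polynomial ℝ) (hO : PO O) : PO fun t => P.eval t • O t :=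
  fun g => (hO g).smul P

theorem PO.sum {ι : Type} (s : Finset ι) {O : ι → ℝ → Module.End ℝ (MvPolynomial ℕ ℝ)} (hO : ∀ i ∈ s, PO (O i)) :
    PO fun t => ∑ i ∈ s, O i t := by
  intro g
  simp only [LinearMap.sum_apply]
  exact PD.sum s fun i hi => hO i hi g

theorem PO_Dz (q : ℝ) (k : ℤ) : PO fun t => Dz q t k := by
  intro g
  induction g using MvPolynomial.induction_on generalizing k with
  | C a =>
    have h : ∀ t, Dz q t k (C a) = a • ez ℝ k := fun t => by
      rw [← mul_one (C a), ← smul_eq_C_mul, map_smul, Dz_one]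
    simp only [h]
    exact PD.const _
  | add p r hp hr =>
    simp only [map_add]
    exact (hp k).add (hr k)
  | mul_X p n hp =>
    have h : ∀ t, Dz q t k (p * X n) = X n * Dz q t k p +
        (Polynomial.C (1 - q ^ (n + 1)) * (1 - Polynomial.X ^ (n + 1)) : Polynomial ℝ).eval t • Dz q t (k + n + 1) p := by
      intro t
      rw [mul_comm, Dz_X_mul, Polynomial.eval_mul, Polynomial.eval_C, Polynomial.eval_sub, Polynomial.eval_one,
        Polynomial.eval_pow, Polynomial.eval_X]
    simp only [h]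
    exact ((PD.const (X n)).mul (hp k)).add ((hp (k + n + 1)).smul _)

end NG
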