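import Pool.Agent.Lib.MP_630b78_co.NG.EsA

/-!
# The operators at `t = 1` are multiplications
-/

namespace NG

open MvPolynomial EllHall

variable {K : Type} [Field K]

private theorem EE_lf (q t : K) (b c : ℤ) (γ : List ℤ) :
    LF fun r : ℕ => (q * t) ^ r • (Dz q t (b + r) * EE q t (c - r) γ) := by
  intro g
  obtain ⟨n, hn⟩ := exists_Le g
  refine ⟨(n + c + γ.sum + 1).toNat, fun r hr => ?_⟩
  have h1 : n + c + γ.sum < (r : ℤ) := by omega
  show ((q * t) ^ r • (Dz q t (b + r) * EE q t (c - r) γ)) g = 0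
  rw [LinearMap.smul_apply, EE_cut q t b c γ n g hn r h1, smul_zero]

/-- the element `EE` as a finite sum, with a cut-off which does not depend on `t` -/
theorem EE_apply (q t : K) (b c : ℤ) (γ : List ℤ) (n : ℤ) (g : MvPolynomial ℕ K) (hg : Le n g) (N : ℕ)
    (hN : n + c + γ.sum < N) :
    EE q t b (c :: γ) g = ∑ r ∈ Finset.range N, (q * t) ^ r • Dz q t (b + r) (EE q t (c - r) γ g) := by
  rw [EE, ls_apply (EE_lf q t b c γ) g N]
  · rfl
  · intro r hr
    have h1 : n + c + γ.sum < (r : ℤ) := by omega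
    show ((q * t) ^ r • (Dz q t (b + r) * EE q t (c - r) γ)) g = 0
    rw [LinearMap.smul_apply, EE_cut q t b c γ n g hg r h1, smul_zero]

theorem Dz_t1 (q : K) (k : ℤ) (g : MvPolynomial ℕ K) : Dz q 1 k g = ez K k * g := by
  have h1 : shift q 1 g = Polynomial.C g := by
    have h2 : shift q (1 : K) = (Algebra.ofId (MvPolynomial ℕ K) (Polynomial (MvPolynomial ℕ K))).restrictScalars K := by
      refine MvPolynomial.algHom_ext fun i => ?_
      unfold shift
      rw [aeval_X, one_pow, sub_self, mul_zero, C_0, Polynomial.C_0, zero_mul, add_zero]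
      rfl
    rw [h2]
    rfl
  show ((shift q 1 g).sum fun n c => c * ez K (k + n)) = ez K k * g
  rw [h1, Polynomial.sum_C_index]
  · rw [Nat.cast_zero, add_zero, mul_comm]
  · rw [zero_mul]

theorem ps_nil (q : K) : ps q [] = 1 := rfl

theorem ps_single (q : K) (b : ℤ) : ps q [b] = ez K b := by
  show Dz q 1 b 1 = ez K b
  rw [Dz_t1, mul_one]

private theorem le_one : Le 0 (1 : MvPolynomial ℕ K) := by
  intro m hm
  rw [MvPolynomial.mem_support_iff, ← C_1, coeff_C] at hm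
  have h1 : (0 : ℕ →₀ ℕ) = m := by
    by_contra h
    exact hm (if_neg h)
  rw [← h1, map_zero]
  rfl

private theorem EE_t1 (q : K) : ∀ (γ : List ℤ) (b : ℤ) (g : MvPolynomial ℕ K),
    EE q 1 b γ g = EE q 1 b γ 1 * g
  | [], b, g => by
    show Dz q 1 b g = Dz q 1 b 1 * g
    rw [Dz_t1, Dz_t1, mul_one]
  | c :: γ, b, g => by
    obtain ⟨n, hn⟩ := exists_Le g
    obtain ⟨N, hN⟩ : ∃ N : ℕ, N = (n + c + γ.sum + 1).toNat + (c + γ.sum + 1).toNat := ⟨_, rfl⟩
    rw [EE_apply q 1 b c γ n g hn N (by omega), EE_apply q 1 b c γ 0 1 le_one N (by omega), Finset.sum_mul]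
    refine Finset.sum_congr rfl fun r _ => ?_
    rw [Dz_t1, Dz_t1, EE_t1 q γ (c - r) g, smul_mul_assoc, mul_assoc]

theorem Es_t1 (q : K) (β : List ℤ) (g : MvPolynomial ℕ K) : Es q 1 β g = ps q β * g := by
  cases β with
  | nil => rw [ps_nil, one_mul]; rfl
  | cons b γ => exact EE_t1 q γ b g

theorem ps_cons (q : K) (b c : ℤ) (γ : List ℤ) (N : ℕ) (hN : c + γ.sum < N) :
    ps q (b :: c :: γ) = ∑ r ∈ Finset.range N, q ^ r • (ez K (b + r) * ps q ((c - r) :: γ)) := by
  show EE q 1 b (c :: γ) 1 = _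
  rw [EE_apply q 1 b c γ 0 1 le_one N (by omega)]
  refine Finset.sum_congr rfl fun r _ => ?_
  rw [Dz_t1, mul_one]
  rfl

theorem ps_one (q : K) (b : ℤ) : ps q [b] = ez K b := ps_single q b

theorem ps_neg (q : K) (β : List ℤ) (h : β.sum < 0) : ps q β = 0 := by
  have h1 := DegBy_Es q (1 : K) β 0 1 Le_one
  rw [zero_add] at h1
  exact Le_neg h h1

end NG
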