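import Pool.Agent.Lib.MP_630b78_co.NG.LimB
import Pool.Agent.Lib.MP_630b78_co.NG.One

/-!
# Negut's elements depend polynomially on `t`
-/

namespace NG

open MvPolynomial EllHall

theorem PO_EE (q : ℝ) : ∀ (γ : List ℤ) (b : ℤ), PO fun t => EE q t b γ
  | [], b => PO_Dz q b
  | c :: γ, b => by
    intro g
    obtain ⟨n, hn⟩ := exists_Le g
    obtain ⟨N, hN⟩ : ∃ N : ℕ, N = (n + c + γ.sum + 1).toNat := ⟨_, rfl⟩
    have h : ∀ t, EE q t b (c :: γ) g = ∑ r ∈ Finset.range N,
        ((Polynomial.C q * Polynomial.X) ^ r : Polynomial ℝ).eval t • Dz q t (b + r) (EE q t (c - r) γ g) := by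
      intro t
      rw [EE_apply q t b c γ n g hn N (by omega)]
      refine Finset.sum_congr rfl fun r _ => ?_
      rw [Polynomial.eval_pow, Polynomial.eval_mul, Polynomial.eval_C, Polynomial.eval_X]
    simp only [h]
    exact PD.sum _ fun r _ => ((PO_Dz q (b + r)).apply (PO_EE q γ (c - r) g)).smul _

theorem PO_Es (q : ℝ) (β : List ℤ) : PO fun t => Es q t β := by
  cases β with
  | nil => exact PO.one
  | cons b γ => exact PO_EE q γ b

theorem PO_GG (q : ℝ) (a b m : ℕ) : PO fun t => GG q a b m t := by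
  have h := (PO.sum (Finset.range m) fun k _ => PO_Es q (VV (Vl a b) (m - 1 - k) (k + 1))).smul
    (Polynomial.C ((-1 : ℝ) ^ (b * m)))
  simp only [Polynomial.eval_C] at h
  exact h

theorem GG_one (q : ℝ) (a b m : ℕ) (g : MvPolynomial ℕ ℝ) : GG q a b m 1 g = kap q a b m * g := by
  unfold GG kap
  rw [LinearMap.smul_apply, LinearMap.sum_apply]
  simp only [Es_t1]
  rw [← Finset.sum_mul, smul_eq_C_mul, C_pow, C_neg, C_1, mul_assoc]

end NG
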