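import Pool.Agent.Lib.MP_630b78_co.NG.EsA

/-!
# The commutator with the multiplication by `p_1`
-/

namespace NG

open MvPolynomial EllHall

variable {K : Type} [Field K]

private theorem XZ_LF (q t : K) (b c : ℤ) (γ : List ℤ) :
    LF fun r : ℕ => (q * t) ^ r • (Dz q t (b + r) * EE q t (c - r) γ) := LF_EE q t b c γ

private theorem XZ_base (q t : K) (b : ℤ) : Dz q t b * LinearMap.mulLeft K (X 0) - LinearMap.mulLeft K (X 0) * Dz q t b =
    ((1 - q) * (1 - t)) • Dz q t (b + 1) := by
  have h := Dz_mul_X q t b 0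
  rw [h]
  simp

private theorem XZ_EE (q t : K) (γ : List ℤ) : ∀ b : ℤ,
    EE q t b γ * LinearMap.mulLeft K (X 0) - LinearMap.mulLeft K (X 0) * EE q t b γ = ((1 - q) * (1 - t)) •
      (∑ p ∈ Finset.range γ.length, EE q t b (γ.modify p fun x => x + 1) + EE q t (b + 1) γ) := by
  induction γ with
  | nil =>
    intro b
    show Dz q t b * LinearMap.mulLeft K (X 0) - LinearMap.mulLeft K (X 0) * Dz q t b = _
    rw [XZ_base]
    simp [EE]
  | cons c γ ih =>
    intro b
    have e1 : EE q t b (c :: γ) = ls fun r : ℕ => (q * t) ^ r • (Dz q t (b + r) * EE q t (c - r) γ) := rfl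
    have L0 := XZ_LF q t b c γ
    rw [e1, ← ls_mul_right L0, ← ls_mul_left L0, ← ls_sub (L0.mul_right _) (L0.mul_left _)]
    have e2 : ∀ r : ℕ, (q * t) ^ r • (Dz q t (b + r) * EE q t (c - r) γ) * LinearMap.mulLeft K (X 0) -
        LinearMap.mulLeft K (X 0) * ((q * t) ^ r • (Dz q t (b + r) * EE q t (c - r) γ)) =
        ((1 - q) * (1 - t)) • (∑ p ∈ Finset.range γ.length,
          (q * t) ^ r • (Dz q t (b + r) * EE q t (c - r) (γ.modify p fun x => x + 1)) +
          ((q * t) ^ r • (Dz q t (b + r) * EE q t (c + 1 - r) γ) +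
            (q * t) ^ r • (Dz q t (b + 1 + r) * EE q t (c - r) γ))) := by
      intro r
      have h1 : Dz q t (b + r) * EE q t (c - r) γ * LinearMap.mulLeft K (X 0) -
          LinearMap.mulLeft K (X 0) * (Dz q t (b + r) * EE q t (c - r) γ) =
          Dz q t (b + r) * (EE q t (c - r) γ * LinearMap.mulLeft K (X 0) - LinearMap.mulLeft K (X 0) * EE q t (c - r) γ) +
          (Dz q t (b + r) * LinearMap.mulLeft K (X 0) - LinearMap.mulLeft K (X 0) * Dz q t (b + r)) * EE q t (c - r) γ := by
        rw [mul_sub, sub_mul, mul_assoc, mul_assoc, mul_assoc]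
        abel
      have h2 : c - (r : ℤ) + 1 = c + 1 - r := by ring
      have h3 : b + (r : ℤ) + 1 = b + 1 + r := by ring
      rw [ih, XZ_base, h2, h3] at h1
      have h4 : (q * t) ^ r • (Dz q t (b + r) * EE q t (c - r) γ) * LinearMap.mulLeft K (X 0) -
          LinearMap.mulLeft K (X 0) * ((q * t) ^ r • (Dz q t (b + r) * EE q t (c - r) γ)) =
          (q * t) ^ r • (Dz q t (b + r) * EE q t (c - r) γ * LinearMap.mulLeft K (X 0) -
          LinearMap.mulLeft K (X 0) * (Dz q t (b + r) * EE q t (c - r) γ)) := by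
        rw [smul_mul_assoc, mul_smul_comm]
        exact (smul_sub _ _ _).symm
      rw [h4, h1, mul_smul_comm, smul_mul_assoc]
      have h5 : ∀ (x y : K) (A B : Module.End K (MvPolynomial ℕ K)), x • (y • A + y • B) = y • (x • A + x • B) := by
        intro x y A B
        rw [← smul_add, ← smul_add, smul_comm]
      rw [h5, mul_add, Finset.mul_sum]
      congr 1
      rw [smul_add, Finset.smul_sum, add_assoc]
    rw [ls_congr e2]
    have L1 : ∀ p ∈ Finset.range γ.length,
        LF fun r : ℕ => (q * t) ^ r • (Dz q t (b + r) * EE q t (c - r) (γ.modify p fun x => x + 1)) :=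
      fun p _ => XZ_LF q t b c _
    have L2 := XZ_LF q t b (c + 1) γ
    have L3 := XZ_LF q t (b + 1) c γ
    rw [ls_smul ((LF.sum _ _ L1).add (L2.add L3)), ls_add (LF.sum _ _ L1) (L2.add L3), ls_add L2 L3,
      ls_sum _ _ L1]
    congr 1
    rw [List.length_cons, Finset.sum_range_succ', add_assoc]
    congr 1

theorem Es_X0 (q t : K) (β : List ℤ) :
    Es q t β * LinearMap.mulLeft K (X 0) - LinearMap.mulLeft K (X 0) * Es q t β = ((1 - q) * (1 - t)) •
      ∑ p ∈ Finset.range β.length, Es q t (β.modify p fun x => x + 1) := by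
  cases β with
  | nil => simp [Es]
  | cons b γ =>
    show EE q t b γ * LinearMap.mulLeft K (X 0) - LinearMap.mulLeft K (X 0) * EE q t b γ = _
    rw [XZ_EE, List.length_cons, Finset.sum_range_succ']
    rfl

end NG
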