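import Pool.Agent.Lib.MP_630b78_co.NG.Chn
import Pool.Agent.Lib.MP_630b78_co.NG.ActA
import Pool.Agent.Lib.MP_630b78_co.NG.TOne
import Pool.Agent.Lib.MP_630b78_co.NG.XZ

/-!
# The formula for `T_(d, b d)`
-/

namespace NG

open MvPolynomial EllHall

variable {K : Type} [Field K]

private theorem NegB_Vl1 (b : ℕ) : Vl 1 b 1 = [(b : ℤ)] := by
  simp [Vl, TPath.bdry]

private theorem NegB_Vl2 (b j : ℕ) : Vl 1 b (j + 2) = ((b : ℤ) + 1) :: (List.replicate j (b : ℤ) ++ [(b : ℤ) - 1]) := by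
  have h0 : ((TPath.bdry 1 b (j + 2) (0 + 1) : ℤ) - (TPath.bdry 1 b (j + 2) 0 : ℤ)) = (b : ℤ) + 1 := by
    simp [TPath.bdry]
  have h1 : ∀ i, i < j → ((TPath.bdry 1 b (j + 2) (i + 1 + 1) : ℤ) - (TPath.bdry 1 b (j + 2) (i + 1) : ℤ)) = (b : ℤ) := by
    intro i hi
    have e1 : TPath.bdry 1 b (j + 2) (i + 1 + 1) = b * (i + 2) + 1 := by
      unfold TPath.bdry
      rw [if_neg (by omega), if_neg (by omega), Nat.div_one]
    have e2 : TPath.bdry 1 b (j + 2) (i + 1) = b * (i + 1) + 1 := by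
      unfold TPath.bdry
      rw [if_neg (by omega), if_neg (by omega), Nat.div_one]
    rw [e1, e2]
    push_cast
    ring
  have h2 : ((TPath.bdry 1 b (j + 2) (j + 1 + 1) : ℤ) - (TPath.bdry 1 b (j + 2) (j + 1) : ℤ)) = (b : ℤ) - 1 := by
    have e1 : TPath.bdry 1 b (j + 2) (j + 1 + 1) = b * (j + 2) := by
      unfold TPath.bdry
      rw [if_neg (by omega), if_pos (by omega)]
    have e2 : TPath.bdry 1 b (j + 2) (j + 1) = b * (j + 1) + 1 := by
      unfold TPath.bdry
      rw [if_neg (by omega), if_neg (by omega), Nat.div_one]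
    rw [e1, e2]
    push_cast
    ring
  unfold Vl
  rw [one_mul, List.range_succ, List.map_append, List.range_succ_eq_map, List.map_cons, List.map_map, List.map_cons,
    List.map_nil, List.cons_append, h0, h2]
  congr 2
  rw [List.eq_replicate_iff]
  refine ⟨by simp, fun x hx => ?_⟩
  rw [List.mem_map] at hx
  obtain ⟨i, hi, rfl⟩ := hx
  exact h1 i (List.mem_range.1 hi)

private theorem NegB_mod (b : ℕ) : ∀ p n : ℕ, p ≤ n →
    (List.replicate n (b : ℤ) ++ [(b : ℤ) - 1]).modify p (fun x => x + 1) = VV (Vl 1 b) p (n + 1 - p) := by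
  intro p
  induction p with
  | zero =>
    intro n _
    rcases n with _ | j
    · simp [VV, NegB_Vl1]
    · rw [VV, List.replicate_zero, List.flatten_nil, List.nil_append, Nat.sub_zero, NegB_Vl2, List.replicate_succ,
        List.cons_append, List.modify_zero_cons]
  | succ p ih =>
    intro n hn
    obtain ⟨m, rfl⟩ : ∃ m, n = m + 1 := ⟨n - 1, by omega⟩
    have h := ih m (by omega)
    rw [List.replicate_succ, List.cons_append, List.modify_succ_cons, h, VV, VV, List.replicate_succ, List.flatten_cons,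
      NegB_Vl1, show m + 1 + 1 - (p + 1) = m + 1 - p by omega]
    simp

private theorem NegB_wd (b : ℕ) (hb : 1 ≤ b) (n : ℕ) : wd (b - 1) (List.replicate n true ++ [false]) =
    List.replicate n (b : ℤ) ++ [(b : ℤ) - 1] := by
  have h : (((b - 1 : ℕ) : ℤ)) = (b : ℤ) - 1 := by omega
  simp [wd, h]

private theorem NegB_ss (c : K) (X Y : Module.End K (MvPolynomial ℕ K)) : c • X - c • Y = c • (X - Y) :=
  (smul_sub c X Y).symm

private theorem NegB_sn (c : K) (X Y : Module.End K (MvPolynomial ℕ K)) : (c * -1) • (X - Y) = c • (Y - X) := by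
  refine LinearMap.ext fun g => ?_
  show (c * -1) • (X g - Y g) = c • (Y g - X g)
  rw [mul_smul, neg_one_smul, neg_sub]

private theorem NegB_one (q t : K) (b : ℤ) : Es q t [b] = Dz q t b := by
  rw [Es, EE]

private theorem NegB_chain [CharZero K] {q t : K} {T : ℕ → ℕ → Module.End K (MvPolynomial ℕ K)} (hM : (1 - q) * (1 - t) ≠ 0)
    (hx : q * t ≠ 1) (hT : IsT q t T) (b : ℕ) (hb : 1 ≤ b) (n : ℕ) :
    (∃ e e', Pair q t (b - 1) (List.replicate n true ++ [false]) [true] e e') ∧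
      T (n + 1) (b * n + (b - 1)) = (-1 : K) ^ (b * n + (b - 1)) • Es q t (wd (b - 1) (List.replicate n true ++ [false])) := by
  have hB : wd (b - 1) [true] = [(b : ℤ)] := by
    have h : (((b - 1 : ℕ) : ℤ)) + 1 = (b : ℤ) := by omega
    simp [wd, h]
  have hT1 : T 1 b = (-1 : K) ^ b • Es q t (wd (b - 1) [true]) := by
    rw [hB, NegB_one]
    exact T_one hM hT b
  induction n with
  | zero =>
    refine ⟨?_, ?_⟩
    · rw [List.replicate_zero, List.nil_append]
      exact base_pair q t hx (b - 1)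
    · rw [mul_zero, zero_add, zero_add, T_one hM hT, List.replicate_zero, List.nil_append]
      have h : wd (b - 1) [false] = [((b - 1 : ℕ) : ℤ)] := by simp [wd]
      rw [h, NegB_one]
  | succ n ih =>
    obtain ⟨⟨e, e', hp⟩, hTn⟩ := ih
    have e1 : List.replicate (n + 1) true ++ [false] = [true] ++ (List.replicate n true ++ [false]) := by
      rw [List.replicate_succ]
      rfl
    rw [e1]
    refine ⟨⟨_, _, hp.right hM⟩, ?_⟩
    have h1 := hT.step (n + 1 + 1) (b * (n + 1) + (b - 1)) 1 b 1 (by omega) (by nlinarith) le_rfl (by omega)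
      (by nlinarith) (by
        obtain ⟨c, rfl⟩ : ∃ c, b = c + 1 := ⟨b - 1, by omega⟩
        rw [Nat.add_sub_cancel]
        ring)
    have e2 : b * (n + 1) + (b - 1) - b = b * n + (b - 1) := by
      rw [Nat.mul_succ]
      omega
    rw [mul_one, mul_one, e2, Nat.add_sub_cancel, hTn, hT1, smul_mul_smul_comm, smul_mul_smul_comm, mul_comm ((-1 : K) ^ (b * n + (b - 1))),
      NegB_ss, ← hp.br, smul_comm] at h1
    have h2 := smul_right_injective _ hM h1
    rw [h2, ← pow_add]
    congr 2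
    rw [Nat.mul_succ]
    omega

theorem star_one [CharZero K] {q t : K} {T : ℕ → ℕ → Module.End K (MvPolynomial ℕ K)} (hM : (1 - q) * (1 - t) ≠ 0) (hx : q * t ≠ 1)
    (hT : IsT q t T) (b d : ℕ) (hb : 1 ≤ b) (hd : 1 ≤ d) :
    T d (b * d) = (-1 : K) ^ (b * d) • ∑ k ∈ Finset.range d, Es q t (VV (Vl 1 b) (d - 1 - k) (k + 1)) := by
  obtain ⟨n, rfl⟩ : ∃ n, d = n + 1 := ⟨d - 1, by omega⟩
  obtain ⟨-, hc⟩ := NegB_chain hM hx hT b hb n
  rw [NegB_wd b hb] at hc
  have e0 : b * (n + 1) - 1 = b * n + (b - 1) := by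
    rw [Nat.mul_succ]
    omega
  have h1 := hT.step 1 b 0 1 (n + 1) le_rfl hb (by omega) (by omega) hb (by ring)
  rw [one_mul, Nat.sub_zero, e0, hc, hT.t01] at h1
  have h3 := Es_X0 q t (List.replicate n (b : ℤ) ++ [(b : ℤ) - 1])
  set E := Es q t (List.replicate n (b : ℤ) ++ [(b : ℤ) - 1]) with hE
  have h4 : LinearMap.mulLeft K (X 0) * ((-1 : K) ^ (b * n + (b - 1)) • E) -
      ((-1 : K) ^ (b * n + (b - 1)) • E) * LinearMap.mulLeft K (X 0) =
      (-1 : K) ^ (b * (n + 1)) • (E * LinearMap.mulLeft K (X 0) - LinearMap.mulLeft K (X 0) * E) := by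
    have e5 : b * (n + 1) = b * n + (b - 1) + 1 := by
      rw [Nat.mul_succ]
      omega
    rw [e5, pow_succ, mul_smul_comm, smul_mul_assoc, NegB_ss, NegB_sn]
  rw [h4, h3, smul_comm] at h1
  have h2 := smul_right_injective _ hM h1
  rw [h2]
  congr 1
  have hl : (List.replicate n (b : ℤ) ++ [(b : ℤ) - 1]).length = n + 1 := by simp
  rw [hl, ← Finset.sum_range_reflect]
  refine Finset.sum_congr rfl fun k hk => ?_
  rw [Finset.mem_range] at hk
  rw [NegB_mod b _ n (by omega)]
  congr 2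
  omega

end NG
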