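import Pool.Agent.Lib.MP_630b78_co.NG.NegA
import Pool.Agent.Lib.MP_630b78_co.NG.NegB

/-!
# The formula for `T_(a d, b d)`
-/

namespace NG

open MvPolynomial EllHall

variable {K : Type} [Field K]

theorem star [CharZero K] {q t : K} {T : ℕ → ℕ → Module.End K (MvPolynomial ℕ K)} (hM : (1 - q) * (1 - t) ≠ 0) (hx : q * t ≠ 1)
    (hT : IsT q t T) (a b d : ℕ) (ha : 1 ≤ a) (hb : 1 ≤ b) (hab : Nat.Coprime a b) (hd : 1 ≤ d) :
    T (a * d) (b * d) = (-1 : K) ^ (b * d) • ∑ k ∈ Finset.range d, Es q t (VV (Vl a b) (d - 1 - k) (k + 1)) := by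
  rcases Nat.lt_or_ge 1 a with h | h
  · exact star_two hM hx hT a b d h hb hab hd
  · have h1 : a = 1 := le_antisymm h ha
    subst h1
    rw [one_mul]
    exact star_one hM hx hT b d hb hd

end NG
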