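import Pool.Agent.Lib.MP_630b78_co.NG.Fy
import Pool.Agent.Lib.MP_630b78_co.NG.ClB
import Pool.Agent.Lib.MP_630b78_co.NG.GlM

/-!
# The formula for `T_(a d, b d)`, `a ≥ 2`
-/

namespace NG

open MvPolynomial EllHall

variable {K : Type} [Field K]

private theorem NegA_arith {a b k l u v : ℕ} (ha : 2 ≤ a) (hab : Nat.Coprime a b) (hau : a = k + u) (hbv : b = l + v)
    (hk : 1 ≤ k) (hu : 1 ≤ u) (hal : a * l = b * k + 1) :
    u * l = k * v + 1 ∧ b / a * u ≤ v ∧ l ≤ (b / a + 1) * k := by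
  obtain ⟨c, hc⟩ : ∃ c, b / a = c := ⟨_, rfl⟩
  rw [hc]
  have h1 : u * l = k * v + 1 := by
    rw [hau, hbv] at hal
    nlinarith
  have hlt : c * a < b := by
    have h2 : c * a ≤ b := by rw [← hc]; exact Nat.div_mul_le_self b a
    rcases Nat.lt_or_ge (c * a) b with h | h
    · exact h
    · have h3 : a ∣ b := ⟨c, by rw [mul_comm a c]; omega⟩
      have h4 : Nat.gcd a b = a := Nat.gcd_eq_left h3
      have h5 : Nat.gcd a b = 1 := hab
      omega
  have hub : b < (c + 1) * a := by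
    rw [← hc]
    exact Nat.lt_mul_of_div_lt (Nat.lt_succ_self _) (by omega)
  have h2 : u * b = v * a + 1 := by
    rw [hau, hbv]
    nlinarith
  refine ⟨h1, ?_, ?_⟩
  · by_contra hcon
    push Not at hcon
    have h3 : (v + 1) * a ≤ c * u * a := Nat.mul_le_mul_right a hcon
    have h4 : u * (c * a + 1) ≤ u * b := Nat.mul_le_mul_left u hlt
    nlinarith
  · by_contra hcon
    push Not at hcon
    have h3 : a * ((c + 1) * k + 1) ≤ a * l := Nat.mul_le_mul_left a hcon
    have h4 : (b + 1) * k ≤ (c + 1) * a * k := Nat.mul_le_mul_right k hub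
    nlinarith

theorem star_two [CharZero K] {q t : K} {T : ℕ → ℕ → Module.End K (MvPolynomial ℕ K)} (hM : (1 - q) * (1 - t) ≠ 0) (hx : q * t ≠ 1)
    (hT : IsT q t T) (a b d : ℕ) (ha : 2 ≤ a) (hb : 1 ≤ b) (hab : Nat.Coprime a b) (hd : 1 ≤ d) :
    T (a * d) (b * d) = (-1 : K) ^ (b * d) • ∑ k ∈ Finset.range d, Es q t (VV (Vl a b) (d - 1 - k) (k + 1)) := by
  obtain ⟨k, l, hka, hl1, hlb, hal⟩ := split a b (by omega) hb hab
  obtain ⟨u, hu⟩ : ∃ u, a = k + u := ⟨a - k, by omega⟩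
  obtain ⟨v, hv⟩ : ∃ v, b = l + v := ⟨b - l, by omega⟩
  have hu1 : 1 ≤ u := by omega
  have hk1 : 1 ≤ k := by
    by_contra hcon
    have h0 : k = 0 := by omega
    rw [h0, mul_zero, zero_add] at hal
    have := Nat.eq_one_of_mul_eq_one_right hal
    omega
  obtain ⟨hul, hcv, hlc⟩ := NegA_arith ha hab hu hv hk1 hu1 hal
  obtain ⟨c, hc⟩ : ∃ c, b / a = c := ⟨_, rfl⟩
  rw [hc] at hcv hlc
  obtain ⟨A, B, e, e', hP, hS, hA, hB, hTA, hTB⟩ := farey hM hx hT c u v k l hu1 hk1 hul hcv hlc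
  obtain ⟨n, rfl⟩ : ∃ n, d = n + 1 := ⟨d - 1, by omega⟩
  have hG : Glue (Vl a b) := Glue_Vl a b (by omega)
  have hw : wd c (B ++ A) = Vl a b 1 := by
    rw [Vl_one a b (by omega) hab]
    have h1 : wd c (B ++ A) = wd c B ++ wd c A := by
      unfold wd
      exact List.map_append
    rw [h1, hA, hB, ← Cl_append u v k l hu1 hk1 hul, ← hu, ← hv]
  have hstep := hT.step a b k l (n + 1) (by omega) hb (by omega) hka.le hlb hal
  have e1 : a * (n + 1) - k = (k + u) * n + u := by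
    have : a * (n + 1) = (k + u) * n + u + k := by rw [hu]; ring
    omega
  have e2 : b * (n + 1) - l = (l + v) * n + v := by
    have : b * (n + 1) = (l + v) * n + v + l := by rw [hv]; ring
    omega
  rw [e1, e2, T_chain hM hT hP u v k l hu1 hk1 hul hTA hTB n, hTB] at hstep
  have hact := hP.act' (mo K (CA A B n))
  rw [EF_mo, hP.dCA n, map_sum] at hact
  have e3 : ∑ i ∈ Finset.range (n + 1), EF q t c (mo K (CB A B i (n - i))) =
      ∑ k ∈ Finset.range (n + 1), Es q t (VV (Vl a b) (n + 1 - 1 - k) (k + 1)) := by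
    rw [← Finset.sum_range_reflect]
    refine Finset.sum_congr rfl fun j hj => ?_
    rw [Finset.mem_range] at hj
    rw [EF_mo, VV_word hG hw hS]
    congr 3
    omega
  rw [e3] at hact
  rw [smul_mul_smul_comm, smul_mul_smul_comm, mul_comm ((-1 : K) ^ ((l + v) * n + v))] at hstep
  replace hstep := hstep.trans (smul_sub ((-1 : K) ^ l * (-1) ^ ((l + v) * n + v)) _ _).symm
  rw [hact] at hstep
  have e4 : (-1 : K) ^ l * (-1) ^ ((l + v) * n + v) = (-1) ^ (b * (n + 1)) := by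
    rw [← pow_add]
    congr 1
    rw [hv]
    ring
  rw [e4, smul_comm] at hstep
  exact smul_right_injective _ hM hstep

end NG
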