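import Pool.Agent.Lib.MP_630b78_co.NG.Defs

/-!
# The coefficients `w_j`: a sum
-/

namespace NG

open MvPolynomial EllHall

variable {K : Type} [Field K]

private noncomputable def hs (q t : K) (j : ℕ) : K := ∑ i ∈ Finset.range j, q ^ i * t ^ (j - 1 - i)

private theorem hs_zero (q t : K) : hs q t 0 = 0 := by simp [hs]

private theorem hs_succ (q t : K) (j : ℕ) : hs q t (j + 1) = q ^ j + t * hs q t j := by
  unfold hs
  rw [Finset.sum_range_succ, Finset.mul_sum, add_comm]
  congr 1
  · simp
  · refine Finset.sum_congr rfl fun i hi => ?_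
    rw [Finset.mem_range] at hi
    obtain ⟨k, rfl⟩ : ∃ k, j = i + 1 + k := ⟨j - (i + 1), by omega⟩
    have h1 : i + 1 + k + 1 - 1 - i = k + 1 := by omega
    have h2 : i + 1 + k - 1 - i = k := by omega
    rw [h1, h2, pow_succ]
    ring

private theorem hs_rec (q t : K) (j : ℕ) : hs q t (j + 2) = (q + t) * hs q t (j + 1) - q * t * hs q t j := by
  rw [hs_succ q t (j + 1), hs_succ q t j]
  ring

private theorem om_succ (q t : K) (j : ℕ) : om q t (j + 1) = -((1 - q) * (1 - t)) * hs q t (j + 1) := by
  simp [om, hs]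

private theorem sum_one (q t : K) (N : ℕ) : ∑ j ∈ Finset.range (N + 1), om q t j = hs q t (N + 1) - q * t * hs q t N := by
  induction N with
  | zero => simp [om, hs]
  | succ N ih =>
    rw [Finset.sum_range_succ, ih, om_succ, hs_rec]
    ring

private theorem sum_two (q t : K) (N : ℕ) : ∑ j ∈ Finset.range (N + 1), (q * t) ^ (N - j) * om q t j = hs q t (N + 1) - hs q t N := by
  induction N with
  | zero => simp [om, hs]
  | succ N ih =>
    have h : ∑ j ∈ Finset.range (N + 1), (q * t) ^ (N + 1 - j) * om q t j = q * t * ∑ j ∈ Finset.range (N + 1), (q * t) ^ (N - j) * om q t j := by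
      rw [Finset.mul_sum]
      refine Finset.sum_congr rfl fun j hj => ?_
      rw [Finset.mem_range] at hj
      have h1 : N + 1 - j = (N - j) + 1 := by omega
      rw [h1, pow_succ]
      ring
    rw [Finset.sum_range_succ, h, ih, om_succ, hs_rec, Nat.sub_self, pow_zero]
    ring

theorem om_sum (q t : K) (N : ℕ) : ((1 - q) * (1 - t)) * ∑ j ∈ Finset.range (N + 1), ((q * t) ^ (N - j) - 1) * om q t j =
    (1 - q * t) * (om q t N - if N = 0 then 1 else 0) := by
  have h : ∑ j ∈ Finset.range (N + 1), ((q * t) ^ (N - j) - 1) * om q t j =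
      ∑ j ∈ Finset.range (N + 1), (q * t) ^ (N - j) * om q t j - ∑ j ∈ Finset.range (N + 1), om q t j := by
    rw [← Finset.sum_sub_distrib]
    exact Finset.sum_congr rfl fun j _ => by ring
  rw [h, sum_one, sum_two]
  cases N with
  | zero => simp [om, hs_zero]
  | succ N =>
    rw [om_succ, if_neg (Nat.succ_ne_zero N)]
    ring

end NG
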