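import Pool.Agent.Lib.MP_630b78_co.NG.ActB

/-!
# The two steps for a pair
-/

namespace NG

open MvPolynomial EllHall

variable {K : Type} [Field K]

variable {q t : K} {c : ℕ} {A B : List Bool} {d d' : FA K →ₗ[K] FA K}

theorem Pair.br (h : Pair q t c A B d d') : ((1 - q) * (1 - t)) • Es q t (wd c (B ++ A)) =
    Es q t (wd c B) * Es q t (wd c A) - Es q t (wd c A) * Es q t (wd c B) := by
  have h1 := h.act' (mo K A)
  rw [h.dA', EF_mo, EF_mo] at h1
  exact h1.symm

private theorem dBA (h : Pair q t c A B d d') : d (mo K (B ++ A)) = -mo K ((B ++ A) ++ A) := by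
  rw [mo_append (B ++ A) A, mo_append B A, h.der, h.dA, h.dB, mul_zero, add_zero, mo_append, neg_mul]

private theorem dBA' (h : Pair q t c A B d d') : d' (mo K (B ++ A)) = mo K (B ++ (B ++ A)) := by
  rw [mo_append B (B ++ A), mo_append B A, h.der', h.dA', h.dB', zero_mul, zero_add, mo_append]

private theorem comm_BA (h : Pair q t c A B d d') : (d' ∘ₗ d - d ∘ₗ d') (mo K (B ++ A)) = 0 := by
  have h1 : d' (mo K ((B ++ A) ++ A)) = mo K (B ++ (B ++ A)) * mo K A + mo K (B ++ A) * mo K (B ++ A) := by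
    rw [mo_append (B ++ A) A, h.der', dBA' h, h.dA']
  have h2 : d (mo K (B ++ (B ++ A))) = -(mo K (B ++ A) * mo K (B ++ A)) - mo K B * mo K ((B ++ A) ++ A) := by
    rw [mo_append B (B ++ A), h.der, h.dB, dBA h, neg_mul, mul_neg, sub_eq_add_neg]
  rw [LinearMap.sub_apply, LinearMap.comp_apply, LinearMap.comp_apply, dBA h, dBA' h, map_neg, h1, h2]
  simp only [mo_append]
  noncomm_ring

theorem Pair.left (hM : (1 - q) * (1 - t) ≠ 0) (h : Pair q t c A B d d') :
    Pair q t c A (B ++ A) d (d' ∘ₗ d - d ∘ₗ d') where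
  der := h.der
  der' := IsDer.comm h.der' h.der
  act := h.act
  act' := Act.comm hM h.act' h.act h.br
  dA := h.dA
  dB := dBA h
  dA' := by
    rw [LinearMap.sub_apply, LinearMap.comp_apply, LinearMap.comp_apply, h.dA, h.dA', dBA h, map_zero, zero_sub, neg_neg]
  dB' := comm_BA h

theorem Pair.right (hM : (1 - q) * (1 - t) ≠ 0) (h : Pair q t c A B d d') :
    Pair q t c (B ++ A) B (d' ∘ₗ d - d ∘ₗ d') d' where
  der := IsDer.comm h.der' h.der
  der' := h.der'
  act := Act.comm hM h.act' h.act h.br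
  act' := h.act'
  dA := comm_BA h
  dB := by
    rw [LinearMap.sub_apply, LinearMap.comp_apply, LinearMap.comp_apply, h.dB, h.dB', map_neg, dBA' h, map_zero, sub_zero]
  dA' := dBA' h
  dB' := h.dB'

end NG
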