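import Pool.Agent.Lib.MP_630b78_co.NG.Defs
import Pool.Agent.Lib.MP_630b78_co.TP.Defs

/-!
# Paths above a boundary, column by column
-/

namespace NG

open MvPolynomial EllHall TPath

variable {K : Type} [Field K]

open Classical in
/-- the words with `A` letters `true` and `B` letters `false` which stay above the boundary `φ` when started in `(e, n)` -/
noncomputable def PW (φ : ℕ → ℕ) (A B n e : ℕ) : Finset (List Bool) :=
  (words (A + B)).filter fun w => w.count true = A ∧ w.count false = B ∧ Above φ n e w

/-- the sum of `q^(cells below) ∏ e_(runs)` over these words -/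
noncomputable def PS (q : K) (φ : ℕ → ℕ) (A B m n e : ℕ) : MvPolynomial ℕ K :=
  ∑ w ∈ PW φ A B n e, q ^ ar n w • ((vr m w).map (ee K)).prod

private theorem PathA_mem {φ : ℕ → ℕ} {A B n e : ℕ} {w : List Bool} :
    w ∈ PW φ A B n e ↔ w.count true = A ∧ w.count false = B ∧ Above φ n e w := by
  simp only [PW, Finset.mem_filter, mem_words]
  constructor
  · rintro ⟨-, h⟩
    exact h
  · rintro ⟨h1, h2, h3⟩
    refine ⟨?_, h1, h2, h3⟩
    rw [← List.count_true_add_count_false w, h1, h2]

private theorem PathA_true {φ : ℕ → ℕ} {n e : ℕ} {w : List Bool} (h : φ e ≤ n) :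
    Above φ n e (true :: w) ↔ Above φ (n + 1) e w := by
  constructor
  · intro h1 p hp
    have h2 := h1 (true :: p) ((List.prefix_cons_inj true).2 hp)
    rw [List.count_cons_self, List.count_cons_of_ne (by decide)] at h2
    omega
  · intro h1 p hp
    rcases List.prefix_cons_iff.1 hp with rfl | ⟨r, rfl, hr⟩
    · simpa using h
    · have h2 := h1 r hr
      rw [List.count_cons_self, List.count_cons_of_ne (by decide)]
      omega

private theorem PathA_false {φ : ℕ → ℕ} {n e : ℕ} {w : List Bool} (h : φ e ≤ n) :
    Above φ n e (false :: w) ↔ Above φ n (e + 1) w := by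
  constructor
  · intro h1 p hp
    have h2 := h1 (false :: p) ((List.prefix_cons_inj false).2 hp)
    rw [List.count_cons_self, List.count_cons_of_ne (by decide)] at h2
    rw [show e + 1 + p.count false = e + (p.count false + 1) by ring]
    exact h2
  · intro h1 p hp
    rcases List.prefix_cons_iff.1 hp with rfl | ⟨r, rfl, hr⟩
    · simpa using h
    · have h2 := h1 r hr
      rw [List.count_cons_self, List.count_cons_of_ne (by decide)]
      rw [show e + 1 + r.count false = e + (r.count false + 1) by ring] at h2
      exact h2

private theorem PathA_empty (q : K) {φ : ℕ → ℕ} {A B m n e : ℕ} (h : ¬ φ e ≤ n) : PS q φ A B m n e = 0 := by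
  unfold PS
  refine Finset.sum_eq_zero fun w hw => ?_
  exfalso
  have h1 := (PathA_mem.1 hw).2.2 [] (List.nil_prefix)
  exact h (by simpa using h1)

private theorem PathA_ar (A n : ℕ) : ar n (List.replicate A true) = 0 := by
  induction A generalizing n with
  | zero => rfl
  | succ A ih =>
    rw [List.replicate_succ]
    exact ih (n + 1)

private theorem PathA_vr (A m : ℕ) : vr m (List.replicate A true) = [m + A] := by
  induction A generalizing m with
  | zero => rfl
  | succ A ih =>
    rw [List.replicate_succ]
    refine (ih (m + 1)).trans ?_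
    rw [show m + 1 + A = m + (A + 1) by ring]

theorem PS_zero (q : K) (φ : ℕ → ℕ) (A m n e : ℕ) (h : φ e ≤ n) : PS q φ A 0 m n e = ee K (m + A) := by
  have h1 : PW φ A 0 n e = {List.replicate A true} := by
    ext w
    rw [PathA_mem, Finset.mem_singleton]
    constructor
    · rintro ⟨h1, h2, -⟩
      rw [List.eq_replicate_iff]
      refine ⟨?_, fun b hb => ?_⟩
      · rw [← List.count_true_add_count_false w, h1, h2, Nat.add_zero]
      · cases b with
        | true => rfl
        | false => exact absurd hb (List.count_eq_zero.1 h2)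
    · rintro rfl
      refine ⟨List.count_replicate_self, ?_, ?_⟩
      · rw [List.count_eq_zero]
        intro hb
        exact absurd (List.eq_of_mem_replicate hb) (by decide)
      · intro p hp
        have h2 : p.count false = 0 := by
          rw [List.count_eq_zero]
          intro hb
          exact absurd (List.eq_of_mem_replicate (hp.subset hb)) (by decide)
        rw [h2, Nat.add_zero]
        omega
  unfold PS
  rw [h1, Finset.sum_singleton, PathA_ar, PathA_vr]
  simp

private theorem PathA_zero (q : K) (φ : ℕ → ℕ) (B m n e : ℕ) (h : φ e ≤ n) :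
    PS q φ 0 (B + 1) m n e = q ^ n • (ee K m * PS q φ 0 B 0 n (e + 1)) := by
  have h1 : PW φ 0 (B + 1) n e = (PW φ 0 B n (e + 1)).map ⟨List.cons false, List.cons_injective⟩ := by
    ext w
    rw [PathA_mem, Finset.mem_map]
    constructor
    · rintro ⟨h1, h2, h3⟩
      cases w with
      | nil => simp at h2
      | cons a w =>
        cases a with
        | true => simp at h1
        | false =>
          refine ⟨w, PathA_mem.2 ⟨?_, ?_, (PathA_false h).1 h3⟩, rfl⟩
          · simpa using h1
          · simpa using h2
    · rintro ⟨w, hw, rfl⟩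
      obtain ⟨h1, h2, h3⟩ := PathA_mem.1 hw
      refine ⟨?_, ?_, (PathA_false h).2 h3⟩
      · show (false :: w).count true = 0
        simpa using h1
      · show (false :: w).count false = B + 1
        simpa using h2
  unfold PS
  rw [h1, Finset.sum_map, Finset.mul_sum, Finset.smul_sum]
  refine Finset.sum_congr rfl fun w _ => ?_
  show q ^ (n + ar n w) • ((m :: vr 0 w).map (ee K)).prod = _
  rw [List.map_cons, List.prod_cons, pow_add, mul_smul, mul_smul_comm]

private theorem PathA_step (q : K) (φ : ℕ → ℕ) (A B m n e : ℕ) (h : φ e ≤ n) :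
    PS q φ (A + 1) (B + 1) m n e = PS q φ A (B + 1) (m + 1) (n + 1) e +
      q ^ n • (ee K m * PS q φ (A + 1) B 0 n (e + 1)) := by
  classical
  have h1 : PW φ (A + 1) (B + 1) n e =
      (PW φ A (B + 1) (n + 1) e).map ⟨List.cons true, List.cons_injective⟩ ∪
        (PW φ (A + 1) B n (e + 1)).map ⟨List.cons false, List.cons_injective⟩ := by
    ext w
    rw [PathA_mem, Finset.mem_union, Finset.mem_map, Finset.mem_map]
    constructor
    · rintro ⟨h1, h2, h3⟩
      cases w with
      | nil => simp at h2
      | cons a w =>
        cases a with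
        | true =>
          refine Or.inl ⟨w, PathA_mem.2 ⟨?_, ?_, (PathA_true h).1 h3⟩, rfl⟩
          · simpa using h1
          · simpa using h2
        | false =>
          refine Or.inr ⟨w, PathA_mem.2 ⟨?_, ?_, (PathA_false h).1 h3⟩, rfl⟩
          · simpa using h1
          · simpa using h2
    · rintro (⟨w, hw, rfl⟩ | ⟨w, hw, rfl⟩)
      · obtain ⟨h1, h2, h3⟩ := PathA_mem.1 hw
        refine ⟨?_, ?_, (PathA_true h).2 h3⟩
        · show (true :: w).count true = A + 1
          simpa using h1
        · show (true :: w).count false = B + 1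
          simpa using h2
      · obtain ⟨h1, h2, h3⟩ := PathA_mem.1 hw
        refine ⟨?_, ?_, (PathA_false h).2 h3⟩
        · show (false :: w).count true = A + 1
          simpa using h1
        · show (false :: w).count false = B + 1
          simpa using h2
  have hd : Disjoint ((PW φ A (B + 1) (n + 1) e).map ⟨List.cons true, List.cons_injective⟩)
      ((PW φ (A + 1) B n (e + 1)).map ⟨List.cons false, List.cons_injective⟩) := by
    rw [Finset.disjoint_left]
    intro w hw hw'
    obtain ⟨u, -, rfl⟩ := Finset.mem_map.1 hw
    obtain ⟨v, -, hv⟩ := Finset.mem_map.1 hw'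
    have h2 : (false :: v : List Bool) = true :: u := hv
    simp at h2
  unfold PS
  rw [h1, Finset.sum_union hd, Finset.sum_map, Finset.sum_map, Finset.mul_sum, Finset.smul_sum]
  congr 1
  refine Finset.sum_congr rfl fun w _ => ?_
  show q ^ (n + ar n w) • ((m :: vr 0 w).map (ee K)).prod = _
  rw [List.map_cons, List.prod_cons, pow_add, mul_smul, mul_smul_comm]

theorem PS_succ (q : K) (φ : ℕ → ℕ) (A B m n e : ℕ) (h : φ e ≤ n) : PS q φ A (B + 1) m n e =
    ∑ j ∈ Finset.range (A + 1), if φ (e + 1) ≤ n + j then
      q ^ (n + j) • (ee K (m + j) * PS q φ (A - j) B 0 (n + j) (e + 1)) else 0 := by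
  have key : ∀ A m n, φ e ≤ n → PS q φ A (B + 1) m n e =
      ∑ j ∈ Finset.range (A + 1), q ^ (n + j) • (ee K (m + j) * PS q φ (A - j) B 0 (n + j) (e + 1)) := by
    intro A
    induction A with
    | zero =>
      intro m n h
      rw [PathA_zero q φ B m n e h]
      simp
    | succ A ih =>
      intro m n h
      rw [PathA_step q φ A B m n e h, ih (m + 1) (n + 1) (by omega), Finset.sum_range_succ' _ (A + 1)]
      congr 1
      refine Finset.sum_congr rfl fun j _ => ?_
      rw [show n + 1 + j = n + (j + 1) by ring, show m + 1 + j = m + (j + 1) by ring, Nat.add_sub_add_right]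
  rw [key A m n h]
  refine Finset.sum_congr rfl fun j _ => ?_
  by_cases h1 : φ (e + 1) ≤ n + j
  · rw [if_pos h1]
  · rw [if_neg h1, PathA_empty q h1, mul_zero, smul_zero]

end NG
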