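import Pool.Agent.Lib.MP_630b78_co.NG.PathA
import Pool.Agent.Lib.MP_630b78_co.NG.One

/-!
# Paths and Negut elements at `t = 1`
-/

namespace NG

open MvPolynomial EllHall TPath

variable {K : Type} [Field K] [CharZero K]

/-- the differences of the boundary after the column `e`, started from the height `h` -/
def Vd (φ : ℕ → ℕ) : ℤ → ℕ → ℕ → List ℤ
  | _, _, 0 => []
  | h, e, B + 1 => ((φ (e + 1) : ℤ) - h) :: Vd φ (φ (e + 1)) (e + 1) B

theorem Vd_sum (φ : ℕ → ℕ) (h : ℤ) (e B : ℕ) : (Vd φ h e (B + 1)).sum = (φ (e + B + 1) : ℤ) - h := by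
  induction B generalizing h e with
  | zero =>
    show (((φ (e + 1) : ℤ) - h) :: []).sum = _
    simp
  | succ B ih =>
    show (((φ (e + 1) : ℤ) - h) :: Vd φ (φ (e + 1)) (e + 1) (B + 1)).sum = _
    rw [List.sum_cons, ih]
    have e1 : e + 1 + B + 1 = e + (B + 1) + 1 := by omega
    rw [e1]
    ring

/-- two ranges of heights -/
private theorem PathB_sum {M : Type} [AddCommMonoid M] (F : ℕ → M) (n A p N : ℕ) (h1 : ∀ H, H < n → F H = 0)
    (h2 : ∀ H, n + A < H → F H = 0) (hN : n + A < p + N) :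
    ∑ j ∈ Finset.range (A + 1), (if p ≤ n + j then F (n + j) else 0) = ∑ r ∈ Finset.range N, F (p + r) := by
  have e1 := Finset.sum_Ico_eq_sum_range (fun H => if p ≤ H then F H else 0) n (n + A + 1)
  have e2 := Finset.sum_Ico_eq_sum_range F p (p + N)
  have e3 : n + A + 1 - n = A + 1 := by omega
  have e4 : p + N - p = N := by omega
  rw [e3] at e1
  rw [e4] at e2
  rw [← e1, ← e2, ← Finset.sum_filter]
  refine Finset.sum_subset ?_ ?_
  · intro H hH
    rw [Finset.mem_filter, Finset.mem_Ico] at hH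
    rw [Finset.mem_Ico]
    omega
  · intro H hH hH'
    rw [Finset.mem_Ico] at hH
    rw [Finset.mem_filter, Finset.mem_Ico] at hH'
    by_cases h3 : H < n
    · exact h1 H h3
    · refine h2 H ?_
      by_contra h4
      exact hH' ⟨by omega, hH.1⟩

omit [CharZero K] in
private theorem PathB_sign (A j : ℕ) (hj : j ≤ A) : ((-1 : K)) ^ (A - j) = (-1) ^ A * (-1) ^ j := by
  have h1 : (-1 : K) ^ A = (-1) ^ (A - j) * (-1) ^ j := by rw [← pow_add, Nat.sub_add_cancel hj]
  have h2 : (-1 : K) ^ j * (-1) ^ j = 1 := by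
    rw [← mul_pow]
    norm_num
  rw [h1, mul_assoc, h2, mul_one]

private theorem PathB_ez (A j : ℕ) (hj : j ≤ A) : ((-1 : K)) ^ (A - j) • ee K j = ((-1 : K)) ^ A • ez K (j : ℤ) := by
  have h3 : ez K (j : ℤ) = ((-1 : K)) ^ j • ee K j := by
    rw [ez_cast, Algebra.smul_def, map_pow, map_neg, map_one]
  rw [h3, smul_smul, PathB_sign A j hj]

omit [CharZero K] in
private theorem PathB_ee0 : ee K 0 = 1 := by
  have h := ez_cast (K := K) 0
  have h1 : ee K 0 = ez K ((0 : ℕ) : ℤ) := by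
    rw [h, pow_zero, one_mul]
  simp [ee]

theorem PS_eq (q : K) (φ : ℕ → ℕ) (B A n e : ℕ) (h1 : φ e ≤ n) (h2 : n + A = φ (e + B + 1)) :
    PS q φ A (B + 1) 0 n e =
      ((-1) ^ A * q ^ (∑ i ∈ Finset.range (B + 1), φ (e + 1 + i))) • ps q (Vd φ n e (B + 1)) := by
  induction B generalizing A n e with
  | zero =>
    rw [PS_succ q φ A 0 0 n e h1, Finset.sum_eq_single A]
    · have h3 : φ (e + 1) ≤ n + A := by
        rw [h2]
      have h4 : Vd φ n e (0 + 1) = [(A : ℤ)] := by
        show [((φ (e + 1) : ℤ) - n)] = [(A : ℤ)]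
        have h5 : (φ (e + 1) : ℤ) = n + A := by exact_mod_cast h2.symm
        rw [h5]
        congr 1
        ring
      rw [if_pos h3, Nat.sub_self, PS_zero q φ 0 0 (n + A) (e + 1) h3, h4, ps_one, zero_add, Finset.sum_range_one, add_zero,
        PathB_ee0, mul_one]
      have h6 := PathB_ez (K := K) A A le_rfl
      rw [Nat.sub_self, pow_zero, one_smul] at h6
      have h7 : φ (e + 1) = n + A := h2.symm
      rw [h7, mul_comm, mul_smul, ← h6]
    · intro j hj hjA
      have hj' := Finset.mem_range.1 hj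
      have h3 : ¬ φ (e + 1) ≤ n + j := by
        have h4 : φ (e + 1) = n + A := h2.symm
        omega
      rw [if_neg h3]
    · intro h
      exact absurd (Finset.mem_range.2 (Nat.lt_succ_self A)) h
  | succ B ih =>
    have hφ : φ (e + 1 + B + 1) = n + A := by
      rw [h2]
      congr 1
      omega
    obtain ⟨S, hS⟩ : ∃ S : ℕ, S = ∑ i ∈ Finset.range (B + 1), φ (e + 1 + 1 + i) := ⟨_, rfl⟩
    have hS' : ∑ i ∈ Finset.range (B + 1 + 1), φ (e + 1 + i) = φ (e + 1) + S := by
      rw [Finset.sum_range_succ', hS, add_comm, add_zero]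
      congr 1
      refine Finset.sum_congr rfl fun i _ => ?_
      congr 1
      omega
    obtain ⟨F, hF⟩ : ∃ F : ℕ → MvPolynomial ℕ K, F = fun H : ℕ => q ^ H • (ez K ((H : ℤ) - n) * ps q (Vd φ H (e + 1) (B + 1))) :=
      ⟨_, rfl⟩
    have hF1 : ∀ H, H < n → F H = 0 := by
      intro H hH
      rw [hF]
      simp only
      rw [ez_neg (by omega), zero_mul, smul_zero]
    have hF2 : ∀ H, n + A < H → F H = 0 := by
      intro H hH
      rw [hF]
      simp only
      rw [ps_neg q _ (by rw [Vd_sum, hφ]; push_cast; omega), mul_zero, smul_zero]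
    -- the left-hand side
    have hL : PS q φ A (B + 1 + 1) 0 n e = ((-1) ^ A * q ^ S) •
        ∑ j ∈ Finset.range (A + 1), (if φ (e + 1) ≤ n + j then F (n + j) else 0) := by
      rw [PS_succ q φ A (B + 1) 0 n e h1, Finset.smul_sum]
      refine Finset.sum_congr rfl fun j hj => ?_
      have hjA : j ≤ A := Nat.lt_succ_iff.1 (Finset.mem_range.1 hj)
      by_cases h3 : φ (e + 1) ≤ n + j
      · rw [if_pos h3, if_pos h3, ih (A - j) (n + j) (e + 1) h3 (by omega), ← hS, hF, zero_add]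
        have e1 : (((n + j : ℕ) : ℤ) - n) = (j : ℤ) := by
          push_cast
          ring
        simp only [e1]
        rw [mul_smul_comm, mul_smul ((-1 : K) ^ (A - j)) (q ^ S), ← smul_mul_assoc ((q ^ S : K)), ← smul_mul_assoc,
          smul_comm ((-1 : K) ^ (A - j)) (q ^ S) (ee K j), PathB_ez A j hjA]
        simp only [smul_mul_assoc, smul_smul]
        congr 1
        ring
      · rw [if_neg h3, if_neg h3, smul_zero]
    -- the right-hand side
    have hR : ps q (Vd φ n e (B + 1 + 1)) = ∑ r ∈ Finset.range (n + A + 1), q ^ r •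
        (ez K (((φ (e + 1) : ℤ) - n) + r) * ps q (Vd φ ((φ (e + 1) : ℤ) + r) (e + 1) (B + 1))) := by
      have hs := Vd_sum φ (φ (e + 1)) (e + 1) B
      rw [hφ] at hs
      have h3 : Vd φ (φ (e + 1)) (e + 1) (B + 1) = ((φ (e + 1 + 1) : ℤ) - φ (e + 1)) :: Vd φ (φ (e + 1 + 1)) (e + 1 + 1) B := rfl
      rw [h3, List.sum_cons] at hs
      show ps q (((φ (e + 1) : ℤ) - n) :: Vd φ (φ (e + 1)) (e + 1) (B + 1)) = _
      rw [h3, ps_cons q _ _ _ (n + A + 1) (by rw [hs]; push_cast; omega)]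
      refine Finset.sum_congr rfl fun r _ => ?_
      have h4 : Vd φ ((φ (e + 1) : ℤ) + r) (e + 1) (B + 1) =
          ((φ (e + 1 + 1) : ℤ) - ((φ (e + 1) : ℤ) + r)) :: Vd φ (φ (e + 1 + 1)) (e + 1 + 1) B := rfl
      rw [h4, sub_sub]
    rw [hL, hR, hS', PathB_sum F n A (φ (e + 1)) (n + A + 1) hF1 hF2 (by omega), Finset.smul_sum, Finset.smul_sum]
    refine Finset.sum_congr rfl fun r _ => ?_
    rw [hF]
    simp only
    have e2 : (((φ (e + 1) + r : ℕ) : ℤ) - n) = ((φ (e + 1) : ℤ) - n) + r := by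
      push_cast
      ring
    have e3 : ((φ (e + 1) + r : ℕ) : ℤ) = (φ (e + 1) : ℤ) + r := by push_cast; ring
    rw [e2, e3, smul_smul, smul_smul]
    congr 1
    rw [pow_add, pow_add]
    ring

end NG
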