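import Pool.Agent.Lib.MP_630b78_co.NG.One
import Pool.Agent.Lib.MP_630b78_co.NG.EsB

/-!
# The elements `V_1 ... V_1 V_k` at `t = 1`
-/

namespace NG

open MvPolynomial EllHall

variable {K : Type} [Field K]

private theorem glue_mul {V : ℕ → List ℤ} (hV : Glue V) (q : K) {i j : ℕ} (hi : 1 ≤ i) (hj : 1 ≤ j) (δ : List ℤ) :
    ps q (V i ++ (V j ++ δ)) = ps q (V i) * ps q (V j ++ δ) + q • ps q (V (i + j) ++ δ) := by
  obtain ⟨β, m, c, γ, h1, h2, h3⟩ := hV i j hi hj
  have h4 := congrArg (fun T : Module.End K (MvPolynomial ℕ K) => T 1) (R1 q 1 β m c (γ ++ δ))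
  simp only [LinearMap.add_apply, LinearMap.smul_apply, Module.End.mul_apply, mul_one] at h4
  rw [h1, h2, h3]
  have e1 : β ++ [m] ++ (c :: γ ++ δ) = β ++ m :: c :: (γ ++ δ) := by simp
  have e2 : β ++ (m + 1) :: (c - 1) :: γ ++ δ = β ++ (m + 1) :: (c - 1) :: (γ ++ δ) := by simp
  have e3 : c :: γ ++ δ = c :: (γ ++ δ) := rfl
  rw [e1, e2, e3]
  show Es q 1 (β ++ m :: c :: (γ ++ δ)) 1 = _
  rw [h4, Es_t1 q (β ++ [m])]
  rfl

private theorem VV_succ (V : ℕ → List ℤ) (n k : ℕ) : VV V (n + 1) k = V 1 ++ VV V n k := by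
  unfold VV
  rw [List.replicate_succ, List.flatten_cons, List.append_assoc]

private theorem VV_zero (V : ℕ → List ℤ) (k : ℕ) : VV V 0 k = V k := by
  unfold VV
  rw [List.replicate_zero, List.flatten_nil, List.nil_append]

private theorem glue_VV {V : ℕ → List ℤ} (hV : Glue V) (q : K) {k : ℕ} (hk : 1 ≤ k) (n : ℕ) : ∀ j, 1 ≤ j →
    ps q (V j ++ VV V n k) = ∑ i ∈ Finset.range (n + 1), q ^ i • (ps q (V (j + i)) * ps q (VV V (n - i) k)) +
      q ^ (n + 1) • ps q (V (j + n + k)) := by
  induction n with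
  | zero =>
    intro j hj
    have h1 := glue_mul hV q hj hk []
    rw [List.append_nil, List.append_nil] at h1
    rw [VV_zero, h1, Finset.sum_range_one, pow_zero, one_smul, add_zero, Nat.sub_zero, VV_zero, zero_add, pow_one]
  | succ n ih =>
    intro j hj
    rw [VV_succ, glue_mul hV q hj le_rfl (VV V n k), ih (j + 1) (by omega), ← VV_succ, Finset.sum_range_succ' _ (n + 1),
      smul_add, smul_smul, Finset.smul_sum, pow_zero, one_smul, add_zero, Nat.sub_zero]
    have h1 : ∀ i ∈ Finset.range (n + 1), q • q ^ i • (ps q (V (j + 1 + i)) * ps q (VV V (n - i) k)) =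
        q ^ (i + 1) • (ps q (V (j + (i + 1))) * ps q (VV V (n + 1 - (i + 1)) k)) := by
      intro i _
      rw [smul_smul, pow_succ', Nat.add_sub_add_right, show j + 1 + i = j + (i + 1) by omega]
    rw [Finset.sum_congr rfl h1, show j + 1 + n + k = j + (n + 1) + k by omega, ← pow_succ']
    ring

theorem ps_VV {V : ℕ → List ℤ} (hV : Glue V) {q : K} (hq : q ≠ 0) (n k : ℕ) (hk : 1 ≤ k) :
    ps q (VV V n k) = (q ^ (k - 1))⁻¹ • ∑ i ∈ Finset.range (n + 1), UU (sk q V) i * sk q V (n + k - i) := by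
  have hsk : ∀ j, (q ^ (j - 1))⁻¹ • sk q V j = ps q (V j) := by
    intro j
    unfold sk
    rw [smul_smul, inv_mul_cancel₀ (pow_ne_zero _ hq), one_smul]
  induction n using Nat.strong_induction_on with
  | _ n ih =>
    cases n with
    | zero =>
      rw [VV_zero, Finset.sum_range_one, UU, one_mul, zero_add, Nat.sub_zero, hsk]
    | succ n =>
      rw [VV_succ, glue_VV hV q hk n 1 le_rfl]
      have h1 : ∀ i ∈ Finset.range (n + 1), q ^ i • (ps q (V (1 + i)) * ps q (VV V (n - i) k)) =
          (q ^ (k - 1))⁻¹ • ∑ m ∈ Finset.range (n - i + 1), sk q V (i + 1) * (UU (sk q V) m * sk q V (n - i + k - m)) := by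
        intro i hi
        rw [← smul_mul_assoc, show q ^ i • ps q (V (1 + i)) = sk q V (i + 1) by
          unfold sk; rw [Nat.add_sub_cancel, add_comm 1 i], ih (n - i) (by omega), mul_smul_comm, Finset.mul_sum]
      rw [Finset.sum_congr rfl h1, ← Finset.smul_sum]
      have h2 : q ^ (n + 1) • ps q (V (1 + n + k)) = (q ^ (k - 1))⁻¹ • sk q V (n + 1 + k) := by
        unfold sk
        rw [smul_smul, show 1 + n + k = n + 1 + k by omega]
        congr 1
        rw [show n + 1 + k - 1 = (k - 1) + (n + 1) by omega, pow_add q (k - 1) (n + 1), ← mul_assoc,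
          inv_mul_cancel₀ (pow_ne_zero _ hq), one_mul]
      rw [h2, ← smul_add]
      congr 1
      rw [Finset.sum_range_succ' _ (n + 1), UU, one_mul, Nat.sub_zero]
      congr 1
      -- exchange the sums
      have h3 : ∀ m ∈ Finset.range (n + 1), UU (sk q V) (m + 1) * sk q V (n + 1 + k - (m + 1)) =
          ∑ i ∈ Finset.range (m + 1), sk q V (i + 1) * (UU (sk q V) (m - i) * sk q V (n + k - m)) := by
        intro m _
        rw [UU, Finset.sum_mul, Finset.sum_range fun i => sk q V (i + 1) * (UU (sk q V) (m - i) * sk q V (n + k - m))]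
        refine Finset.sum_congr rfl fun i _ => ?_
        rw [mul_assoc, show n + 1 + k - (m + 1) = n + k - m by omega]
      rw [Finset.sum_congr rfl h3, Finset.sum_sigma', Finset.sum_sigma']
      refine Finset.sum_bij' (fun x _ => ⟨x.1 + x.2, x.1⟩) (fun x _ => ⟨x.2, x.1 - x.2⟩) ?_ ?_ ?_ ?_ ?_
      · rintro ⟨i, m⟩ h
        simp only [Finset.mem_sigma, Finset.mem_range] at h ⊢
        omega
      · rintro ⟨m, i⟩ h
        simp only [Finset.mem_sigma, Finset.mem_range] at h ⊢
        omega
      · rintro ⟨i, m⟩ h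
        simp only [Finset.mem_sigma, Finset.mem_range] at h
        simp
      · rintro ⟨m, i⟩ h
        simp only [Finset.mem_sigma, Finset.mem_range] at h
        simp only [Sigma.mk.injEq, heq_eq_eq, and_true]
        omega
      · rintro ⟨i, m⟩ h
        simp only [Finset.mem_sigma, Finset.mem_range] at h
        dsimp only
        rw [Nat.add_sub_cancel_left, show n - i + k - m = n + k - (i + m) by omega]

end NG
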