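import Pool.Agent.Lib.MP_630b78_co.NG.DzC
import Pool.Agent.Lib.MP_630b78_co.NG.OmB
import Pool.Agent.Lib.MP_630b78_co.NG.Isum

/-!
# The quadratic relation on `1`
-/

namespace NG

open MvPolynomial EllHall

variable {K : Type} [Field K]

private theorem RelA_key [CharZero K] (q t : K) (T a : ℤ) (N : ℕ) (h : T - a < N) :
    ((1 - q) * (1 - t)) • ∑ r ∈ Finset.range N, ((q * t) ^ r - 1) • Dz q t (a + r) (ez K (T - (a + r))) =
      (1 - q * t) • (Dz q t a (ez K (T - a)) - ez K a * ez K (T - a)) := by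
  have hn : ∀ j r : ℕ, N ≤ r + j → ez K (a + r + j) * ez K (T - (a + r) - j) = 0 := by
    intro j r hjr
    rw [ez_neg (z := T - (a + r) - j) (by omega), mul_zero]
  have h1 : ∀ r ∈ Finset.range N, ((q * t) ^ r - 1) • Dz q t (a + r) (ez K (T - (a + r))) =
      ∑ j ∈ Finset.range N, ((q * t) ^ r - 1) • om q t j • (ez K (a + r + j) * ez K (T - (a + r) - j)) := by
    intro r _
    rw [Dz_ez q t (a + r) (T - (a + r)) N (by omega), Finset.smul_sum]
  rw [Finset.sum_congr rfl h1, Finset.sum_comm]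
  have h2 : ∀ j ∈ Finset.range N,
      ∑ r ∈ Finset.range N, ((q * t) ^ r - 1) • om q t j • (ez K (a + r + j) * ez K (T - (a + r) - j)) =
      ∑ r ∈ Finset.range (N - j), ((q * t) ^ r - 1) • om q t j • (ez K (a + r + j) * ez K (T - (a + r) - j)) := by
    intro j _
    refine (Finset.sum_subset (Finset.range_subset_range.2 (Nat.sub_le _ _)) ?_).symm
    intro r hr hr'
    rw [Finset.mem_range] at hr hr'
    rw [hn j r (by omega), smul_zero, smul_zero]
  rw [Finset.sum_congr rfl h2, ← Finset.sum_range_diag_flip N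
    (fun j r => ((q * t) ^ r - 1) • om q t j • (ez K (a + r + j) * ez K (T - (a + r) - j))), Finset.smul_sum]
  have h3 : ∀ J ∈ Finset.range N, ((1 - q) * (1 - t)) • ∑ j ∈ Finset.range (J + 1),
      ((q * t) ^ (J - j) - 1) • om q t j • (ez K (a + ((J - j : ℕ) : ℤ) + j) * ez K (T - (a + ((J - j : ℕ) : ℤ)) - j)) =
      (1 - q * t) • (om q t J • (ez K (a + J) * ez K (T - a - J)) - if J = 0 then ez K a * ez K (T - a) else 0) := by
    intro J _
    have e : ∀ j ∈ Finset.range (J + 1),
        ((q * t) ^ (J - j) - 1) • om q t j • (ez K (a + ((J - j : ℕ) : ℤ) + j) * ez K (T - (a + ((J - j : ℕ) : ℤ)) - j)) =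
        (((q * t) ^ (J - j) - 1) * om q t j) • (ez K (a + J) * ez K (T - a - J)) := by
      intro j hj
      rw [Finset.mem_range] at hj
      rw [smul_smul, show a + ((J - j : ℕ) : ℤ) + j = a + J by omega, show T - (a + ((J - j : ℕ) : ℤ)) - j = T - a - J by omega]
    rw [Finset.sum_congr rfl e, ← Finset.sum_smul, smul_smul, om_sum]
    split_ifs with h0
    · subst h0
      rw [Nat.cast_zero, add_zero, sub_zero, mul_smul, sub_smul (om q t 0) (1 : K), one_smul]
    · rw [sub_zero, sub_zero, mul_smul]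
  rw [Finset.sum_congr rfl h3, ← Finset.smul_sum, Finset.sum_sub_distrib, ← Dz_ez q t a (T - a) N h, Finset.sum_ite_eq']
  congr 2
  split_ifs with h0
  · rfl
  · rw [Finset.mem_range, not_lt, Nat.le_zero] at h0
    rw [ez_neg (z := T - a) (by omega), mul_zero]

theorem Rel_one [CharZero K] (q t : K) (l b : ℤ) (N : ℕ) (hl : l < N) (hb : b < N) :
    (1 - q * t) • (Dz q t l (ez K b) - Dz q t b (ez K l)) = ((1 - q) * (1 - t)) •
      (∑ r ∈ Finset.range N, (q * t) ^ r • Dz q t (l + r) (ez K (b - r)) -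
        ∑ r ∈ Finset.range N, (q * t) ^ r • Dz q t (b + r) (ez K (l - r)) - isum l b fun X => Dz q t X (ez K (b + l - X))) := by
  have kl := RelA_key q t (b + l) l N (by omega)
  have kb := RelA_key q t (b + l) b N (by omega)
  rw [show b + l - l = b by ring] at kl
  rw [show b + l - b = l by ring] at kb
  have s1 : ∀ r : ℕ, b + l - (l + r) = b - r := fun r => by ring
  have s2 : ∀ r : ℕ, b + l - (b + r) = l - r := fun r => by ring
  simp only [s1] at kl
  simp only [s2] at kb
  have hG : ∀ a : ℤ, b + l < a → Dz q t a (ez K (b + l - a)) = 0 := by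
    intro a ha
    rw [ez_neg (z := b + l - a) (by omega), map_zero]
  have i1 : isum (b + N) (l + N) (fun X => Dz q t X (ez K (b + l - X))) = 0 := by
    unfold isum
    rw [Finset.sum_eq_zero, Finset.sum_eq_zero, sub_zero]
    · intro X hX
      rw [Finset.mem_Ico] at hX
      exact hG X (by omega)
    · intro X hX
      rw [Finset.mem_Ico] at hX
      exact hG X (by omega)
  have i2 := isum_trans l b (b + N) (fun X => Dz q t X (ez K (b + l - X)))
  have i3 := isum_trans l (b + N) (l + N) (fun X => Dz q t X (ez K (b + l - X)))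
  rw [i1, add_zero] at i3
  rw [i3, isum_nat, isum_nat] at i2
  simp only [s1, s2] at i2
  have i4 : isum l b (fun X => Dz q t X (ez K (b + l - X))) =
      ∑ r ∈ Finset.range N, Dz q t (l + r) (ez K (b - r)) - ∑ r ∈ Finset.range N, Dz q t (b + r) (ez K (l - r)) :=
    eq_sub_of_add_eq i2
  rw [i4]
  have e1 : ∀ f : ℕ → MvPolynomial ℕ K, ∑ r ∈ Finset.range N, ((q * t) ^ r - 1) • f r =
      ∑ r ∈ Finset.range N, (q * t) ^ r • f r - ∑ r ∈ Finset.range N, f r := by
    intro f
    rw [← Finset.sum_sub_distrib]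
    exact Finset.sum_congr rfl fun r _ => by rw [sub_smul, one_smul]
  rw [e1] at kl kb
  rw [mul_comm (ez K b) (ez K l)] at kb
  rw [show (1 - q * t) • (Dz q t l (ez K b) - Dz q t b (ez K l)) =
    (1 - q * t) • (Dz q t l (ez K b) - ez K l * ez K b) - (1 - q * t) • (Dz q t b (ez K l) - ez K l * ez K b) by
      rw [← smul_sub]; congr 1; abel, ← kl, ← kb, ← smul_sub]
  congr 1
  abel

end NG
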