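import Pool.Agent.Lib.MP_630b78_co.NG.RelA
import Pool.Agent.Lib.MP_630b78_co.NG.EsA

/-!
# The quadratic relation
-/

namespace NG

open MvPolynomial EllHall

variable {K : Type} [Field K]

/-- the difference of the two sides -/
private noncomputable def Phi (q t : K) (l b : ℤ) : Module.End K (MvPolynomial ℕ K) :=
  (1 - q * t) • (Dz q t l * Dz q t b - Dz q t b * Dz q t l) -
    ((1 - q) * (1 - t)) • (EE q t l [b] - EE q t b [l] - isum l b fun X => Dz q t X * Dz q t (b + l - X))

/-- `T` and `T'` with `T P = P T + κ T'` -/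
private def Cm (P : Module.End K (MvPolynomial ℕ K)) (k : K) (T T' : Module.End K (MvPolynomial ℕ K)) : Prop :=
  T * P = P * T + k • T'

private theorem Cm.smul {P T T' : Module.End K (MvPolynomial ℕ K)} {k : K} (h : Cm P k T T') (a : K) :
    Cm P k (a • T) (a • T') := by
  unfold Cm at *
  rw [smul_mul_assoc, h, smul_add, mul_smul_comm, smul_comm a k]

private theorem Cm.sub {P T T' S S' : Module.End K (MvPolynomial ℕ K)} {k : K} (h : Cm P k T T') (h' : Cm P k S S') :
    Cm P k (T - S) (T' - S') := by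
  unfold Cm at *
  rw [sub_mul, h, h', mul_sub, smul_sub]
  abel

private theorem Cm_D (q t : K) (l : ℤ) (n : ℕ) :
    Cm (LinearMap.mulLeft K (X n)) ((1 - q ^ (n + 1)) * (1 - t ^ (n + 1))) (Dz q t l) (Dz q t (l + n + 1)) :=
  Dz_mul_X q t l n

private theorem Cm.mul {P T T' S S' : Module.End K (MvPolynomial ℕ K)} {k : K} (h : Cm P k T T') (h' : Cm P k S S') :
    Cm P k (T * S) (T' * S + T * S') := by
  unfold Cm at *
  rw [mul_assoc, h', mul_add, ← mul_assoc, h, add_mul, smul_add, mul_smul_comm, smul_mul_assoc, mul_assoc]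
  abel

private theorem Cm_ls {P : Module.End K (MvPolynomial ℕ K)} {k : K} {T T' : ℕ → Module.End K (MvPolynomial ℕ K)}
    (h : ∀ r, Cm P k (T r) (T' r)) (hT : LF T) (hT' : LF T') : Cm P k (ls T) (ls T') := by
  unfold Cm at *
  rw [← ls_mul_right hT, ← ls_mul_left hT, ← ls_smul hT', ← ls_add (hT.mul_left P) (hT'.smul k)]
  exact ls_congr fun r => h r

private theorem Cm_isum {P : Module.End K (MvPolynomial ℕ K)} {k : K} {T T' : ℤ → Module.End K (MvPolynomial ℕ K)}
    (h : ∀ r, Cm P k (T r) (T' r)) (l b : ℤ) : Cm P k (isum l b T) (isum l b T') := by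
  unfold Cm at *
  rw [isum_mul_right, isum_mul_left, isum_smul, ← isum_add]
  exact isum_congr l b fun r => h r

private theorem Cm_EE (q t : K) (l b : ℤ) (n : ℕ) :
    Cm (LinearMap.mulLeft K (X n)) ((1 - q ^ (n + 1)) * (1 - t ^ (n + 1))) (EE q t l [b])
      (EE q t (l + n + 1) [b] + EE q t l [b + n + 1]) := by
  have h1 : LF fun r : ℕ => (q * t) ^ r • (Dz q t (l + n + 1 + r) * EE q t (b - r) []) := LF_EE q t (l + n + 1) b []
  have h2 : LF fun r : ℕ => (q * t) ^ r • (Dz q t (l + r) * EE q t (b + n + 1 - r) []) := LF_EE q t l (b + n + 1) []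
  have e : EE q t (l + n + 1) [b] + EE q t l [b + n + 1] =
      ls fun r : ℕ => (q * t) ^ r • (Dz q t (l + n + 1 + r) * EE q t (b - r) []) +
        (q * t) ^ r • (Dz q t (l + r) * EE q t (b + n + 1 - r) []) := (ls_add h1 h2).symm
  rw [e]
  refine Cm_ls (fun r => ?_) (LF_EE q t l b []) (h1.add h2)
  rw [← smul_add]
  refine Cm.smul ?_ _
  have h3 := (Cm_D q t (l + r) n).mul (Cm_D q t (b - r) n)
  have i1 : l + n + 1 + (r : ℤ) = l + r + n + 1 := by ring
  have i2 : b + n + 1 - (r : ℤ) = b - r + n + 1 := by ring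
  rw [i1, i2]
  exact h3

private theorem Cm_is (q t : K) (l b : ℤ) (n : ℕ) :
    Cm (LinearMap.mulLeft K (X n)) ((1 - q ^ (n + 1)) * (1 - t ^ (n + 1)))
      (isum l b fun X => Dz q t X * Dz q t (b + l - X))
      ((isum (l + n + 1) b fun X => Dz q t X * Dz q t (b + (l + n + 1) - X)) +
        isum l (b + n + 1) fun X => Dz q t X * Dz q t (b + n + 1 + l - X)) := by
  have h1 := Cm_isum (fun X => (Cm_D q t X n).mul (Cm_D q t (b + l - X) n)) l b
  set F : ℤ → Module.End K (MvPolynomial ℕ K) := fun Y => Dz q t Y * Dz q t (b + l + n + 1 - Y) with hF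
  have e : (isum l b fun X => Dz q t (X + n + 1) * Dz q t (b + l - X) + Dz q t X * Dz q t (b + l - X + n + 1)) =
      (isum (l + n + 1) b fun X => Dz q t X * Dz q t (b + (l + n + 1) - X)) +
        isum l (b + n + 1) fun X => Dz q t X * Dz q t (b + n + 1 + l - X) := by
    have e1 : (isum l b fun X => Dz q t (X + n + 1) * Dz q t (b + l - X)) = isum (l + (n + 1)) (b + (n + 1)) F := by
      rw [← isum_shift]
      refine isum_congr _ _ fun X => ?_
      simp only [hF]
      congr 2 <;> ring
    have e2 : (isum l b fun X => Dz q t X * Dz q t (b + l - X + n + 1)) = isum l b F := by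
      refine isum_congr _ _ fun X => ?_
      simp only [hF]
      congr 2; ring
    have e3 : (isum (l + n + 1) b fun X => Dz q t X * Dz q t (b + (l + n + 1) - X)) = isum (l + (n + 1)) b F := by
      rw [add_assoc]
      refine isum_congr _ _ fun X => ?_
      simp only [hF]
      congr 2; ring
    have e4 : (isum l (b + n + 1) fun X => Dz q t X * Dz q t (b + n + 1 + l - X)) = isum l (b + (n + 1)) F := by
      rw [add_assoc]
      refine isum_congr _ _ fun X => ?_
      simp only [hF]
      congr 2; ring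
    rw [isum_add, e1, e2, e3, e4]
    obtain ⟨G, hG⟩ := isum_prim F
    rw [isum_of _ _ F G hG, isum_of _ _ F G hG, isum_of _ _ F G hG, isum_of _ _ F G hG]
    abel
  rw [← e]
  exact h1

private theorem Phi_mul (q t : K) (l b : ℤ) (n : ℕ) :
    Cm (LinearMap.mulLeft K (X n)) ((1 - q ^ (n + 1)) * (1 - t ^ (n + 1))) (Phi q t l b)
      (Phi q t (l + n + 1) b + Phi q t l (b + n + 1)) := by
  have h1 := (((Cm_D q t l n).mul (Cm_D q t b n)).sub ((Cm_D q t b n).mul (Cm_D q t l n))).smul (1 - q * t)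
  have h2 := (((Cm_EE q t l b n).sub (Cm_EE q t b l n)).sub (Cm_is q t l b n)).smul ((1 - q) * (1 - t))
  have h3 := h1.sub h2
  have e : Phi q t (l + n + 1) b + Phi q t l (b + n + 1) =
      (1 - q * t) • (Dz q t (l + n + 1) * Dz q t b + Dz q t l * Dz q t (b + n + 1) -
        (Dz q t (b + n + 1) * Dz q t l + Dz q t b * Dz q t (l + n + 1))) -
      ((1 - q) * (1 - t)) • (EE q t (l + n + 1) [b] + EE q t l [b + n + 1] - (EE q t (b + n + 1) [l] + EE q t b [l + n + 1]) -
        ((isum (l + n + 1) b fun X => Dz q t X * Dz q t (b + (l + n + 1) - X)) +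
        isum l (b + n + 1) fun X => Dz q t X * Dz q t (b + n + 1 + l - X))) := by
    unfold Phi
    module
  rw [e]
  exact h3

private theorem Phi_one [CharZero K] (q t : K) (l b : ℤ) : Phi q t l b 1 = 0 := by
  obtain ⟨N, hN⟩ : ∃ N : ℕ, l < N ∧ b < N := ⟨(max l b).toNat + 1, by omega, by omega⟩
  have hE : ∀ l b : ℤ, b < N → EE q t l [b] 1 = ∑ r ∈ Finset.range N, (q * t) ^ r • Dz q t (l + r) (ez K (b - r)) := by
    intro l b hb
    have h1 : EE q t l [b] 1 = ∑ r ∈ Finset.range N, ((q * t) ^ r • (Dz q t (l + r) * EE q t (b - r) [])) 1 := by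
      refine ls_apply (LF_EE q t l b []) 1 N fun r hr => ?_
      show (q * t) ^ r • Dz q t (l + r) (Dz q t (b - r) 1) = 0
      rw [Dz_one, ez_neg (by omega), map_zero, smul_zero]
    rw [h1]
    refine Finset.sum_congr rfl fun r _ => ?_
    show (q * t) ^ r • Dz q t (l + r) (Dz q t (b - r) 1) = _
    rw [Dz_one]
  have hR := Rel_one q t l b N hN.1 hN.2
  unfold Phi
  rw [LinearMap.sub_apply, LinearMap.smul_apply, LinearMap.smul_apply, LinearMap.sub_apply, LinearMap.sub_apply, LinearMap.sub_apply,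
    hE l b hN.2, hE b l hN.1, isum_apply]
  show (1 - q * t) • (Dz q t l (Dz q t b 1) - Dz q t b (Dz q t l 1)) - ((1 - q) * (1 - t)) •
    (_ - _ - isum l b fun X => Dz q t X (Dz q t (b + l - X) 1)) = 0
  simp only [Dz_one]
  rw [hR, sub_self]

private theorem Phi_zero [CharZero K] (q t : K) (g : MvPolynomial ℕ K) : ∀ l b : ℤ, Phi q t l b g = 0 := by
  induction g using MvPolynomial.induction_on with
  | C a =>
    intro l b
    have h : (C a : MvPolynomial ℕ K) = a • 1 := by rw [MvPolynomial.smul_eq_C_mul, mul_one]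
    rw [h, map_smul, Phi_one, smul_zero]
  | add f g hf hg =>
    intro l b
    rw [map_add, hf, hg, add_zero]
  | mul_X f n hf =>
    intro l b
    have h := LinearMap.congr_fun (Phi_mul q t l b n) f
    have h' : Phi q t l b (X n * f) = X n * Phi q t l b f +
        ((1 - q ^ (n + 1)) * (1 - t ^ (n + 1))) • (Phi q t (l + n + 1) b f + Phi q t l (b + n + 1) f) := h
    rw [mul_comm, h', hf, hf, hf, mul_zero, add_zero, smul_zero, add_zero]

theorem Rel [CharZero K] (q t : K) (l b : ℤ) : (1 - q * t) • (Dz q t l * Dz q t b - Dz q t b * Dz q t l) =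
    ((1 - q) * (1 - t)) • (EE q t l [b] - EE q t b [l] - isum l b fun X => Dz q t X * Dz q t (b + l - X)) := by
  have h : Phi q t l b = 0 := LinearMap.ext fun g => Phi_zero q t g l b
  exact sub_eq_zero.1 h

end NG
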