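import Pool.Agent.Lib.MP_630b78_co.NG.Defs
import Pool.Agent.Lib.MP_630b78_co.EH.Newton

/-!
# The products of the `q_d(q,1)` span, `q > 0`
-/

namespace NG

open MvPolynomial EllHall

private noncomputable def Vs (q : ℝ) (n : ℕ) : Submodule ℝ (MvPolynomial ℕ ℝ) :=
  Submodule.span ℝ {p | ∃ s : Multiset ℕ, (∀ i ∈ s, 0 < i) ∧ s.sum = n ∧ (s.map (qd q 1)).prod = p}

private theorem Vs_one (q : ℝ) : (1 : MvPolynomial ℕ ℝ) ∈ Vs q 0 :=
  Submodule.subset_span ⟨0, fun _ h => absurd h (Multiset.notMem_zero _), rfl, rfl⟩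

private theorem Vs_mul (q : ℝ) {n m : ℕ} {a b : MvPolynomial ℕ ℝ} (ha : a ∈ Vs q n) (hb : b ∈ Vs q m) : a * b ∈ Vs q (n + m) := by
  have h : a * b ∈ Vs q n * Vs q m := Submodule.mul_mem_mul ha hb
  rw [Vs, Vs, Submodule.span_mul_span] at h
  refine Submodule.span_mono ?_ h
  rintro _ ⟨_, ⟨s, hs, rfl, rfl⟩, _, ⟨u, hu, rfl, rfl⟩, rfl⟩
  refine ⟨s + u, fun i hi => ?_, Multiset.sum_add s u, ?_⟩
  · rcases Multiset.mem_add.1 hi with h | h
    · exact hs i h
    · exact hu i h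
  · rw [Multiset.map_add, Multiset.prod_add]

private theorem Vs_sg (q : ℝ) {n : ℕ} {a : MvPolynomial ℕ ℝ} (i : ℕ) (ha : a ∈ Vs q n) : (-1) ^ i * a ∈ Vs q n := by
  rcases neg_one_pow_eq_or (MvPolynomial ℕ ℝ) i with h | h
  · rw [h, one_mul]
    exact ha
  · rw [h, neg_one_mul]
    exact Submodule.neg_mem _ ha

private theorem Vs_q (q : ℝ) {n : ℕ} (hn : 1 ≤ n) : qd q 1 n ∈ Vs q n :=
  Submodule.subset_span ⟨{n}, fun i hi => by rw [Multiset.mem_singleton.1 hi]; exact hn, Multiset.sum_singleton n, by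
    rw [Multiset.map_singleton, Multiset.prod_singleton]⟩

private theorem hh0 : hh ℝ 0 = 1 := by rw [hh]

private theorem ee0 : ee ℝ 0 = 1 := by rw [ee]

private theorem Vs_he (q : ℝ) (hq : 0 < q) (n : ℕ) : hh ℝ n ∈ Vs q n ∧ ee ℝ n ∈ Vs q n := by
  induction n using Nat.strong_induction_on with
  | _ n ih =>
    rcases Nat.eq_zero_or_pos n with rfl | hn
    · rw [hh0, ee0]
      exact ⟨Vs_one q, Vs_one q⟩
    · have hhk : ∀ j k, j + 1 + k = n → hook ℝ j k - (-1) ^ k * hh ℝ n ∈ Vs q n := by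
        intro j k hjk
        have e1 : hook ℝ j k = ∑ i ∈ Finset.range k, (-1) ^ i * hh ℝ (j + 1 + i) * ee ℝ (k - i) + (-1) ^ k * hh ℝ n := by
          rw [hook, Finset.sum_range_succ, hjk, Nat.sub_self, ee0, mul_one]
        rw [e1, add_sub_cancel_right]
        refine Submodule.sum_mem _ fun i hi => ?_
        have hi' := Finset.mem_range.1 hi
        rw [mul_assoc]
        refine Vs_sg q i ?_
        have h := Vs_mul q (ih (j + 1 + i) (by omega)).1 (ih (k - i) (by omega)).2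
        rwa [show j + 1 + i + (k - i) = n by omega] at h
      have hH : hh ℝ n ∈ Vs q n := by
        have hc : ∑ j ∈ Finset.range n, ((-(q * 1)) ^ j)⁻¹ * (-1) ^ (n - 1 - j) = (-1) ^ (n - 1) * ∑ j ∈ Finset.range n, (q ^ j)⁻¹ := by
          rw [Finset.mul_sum]
          refine Finset.sum_congr rfl fun j hj => ?_
          have hj' := Finset.mem_range.1 hj
          obtain ⟨k, hk⟩ : ∃ k, n - 1 = j + k := ⟨n - 1 - j, by omega⟩
          rw [hk, Nat.add_sub_cancel_left, mul_one, neg_pow, mul_inv, pow_add, ← inv_pow, show ((-1 : ℝ))⁻¹ = -1 by norm_num]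
          ring
        have hpos : 0 < ∑ j ∈ Finset.range n, (q ^ j)⁻¹ :=
          Finset.sum_pos (fun j _ => inv_pos.2 (pow_pos hq j)) ⟨0, Finset.mem_range.2 hn⟩
        have hne : (-1 : ℝ) ^ (n - 1) * ∑ j ∈ Finset.range n, (q ^ j)⁻¹ ≠ 0 :=
          mul_ne_zero (pow_ne_zero _ (by norm_num)) hpos.ne'
        have e2 : qd q 1 n = ∑ j ∈ Finset.range n, ((-(q * 1)) ^ j)⁻¹ • (hook ℝ j (n - 1 - j) - (-1) ^ (n - 1 - j) * hh ℝ n) +
            ((-1 : ℝ) ^ (n - 1) * ∑ j ∈ Finset.range n, (q ^ j)⁻¹) • hh ℝ n := by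
          rw [qd, ← hc, Finset.sum_smul, ← Finset.sum_add_distrib]
          refine Finset.sum_congr rfl fun j _ => ?_
          rw [mul_smul, ← smul_add]
          congr 1
          have e3 : ((-1 : ℝ) ^ (n - 1 - j)) • hh ℝ n = (-1) ^ (n - 1 - j) * hh ℝ n := by
            rw [MvPolynomial.smul_eq_C_mul, map_pow, map_neg, map_one]
          rw [e3, sub_add_cancel]
        have e4 : ((-1 : ℝ) ^ (n - 1) * ∑ j ∈ Finset.range n, (q ^ j)⁻¹) • hh ℝ n ∈ Vs q n := by
          have e5 : ((-1 : ℝ) ^ (n - 1) * ∑ j ∈ Finset.range n, (q ^ j)⁻¹) • hh ℝ n =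
              qd q 1 n - ∑ j ∈ Finset.range n, ((-(q * 1)) ^ j)⁻¹ • (hook ℝ j (n - 1 - j) - (-1) ^ (n - 1 - j) * hh ℝ n) := by
            rw [e2, add_sub_cancel_left]
          rw [e5]
          refine Submodule.sub_mem _ (Vs_q q hn) (Submodule.sum_mem _ fun j hj => ?_)
          have hj' := Finset.mem_range.1 hj
          exact Submodule.smul_mem _ _ (hhk j (n - 1 - j) (by omega))
        exact (Submodule.smul_mem_iff _ hne).1 e4
      refine ⟨hH, ?_⟩
      have ha := alt_sum (K := ℝ) n hn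
      rw [Finset.sum_range_succ, Nat.sub_self, hh0, mul_one] at ha
      have e6 : (-1) ^ n * ee ℝ n = -∑ i ∈ Finset.range n, (-1) ^ i * (ee ℝ i * hh ℝ (n - i)) := eq_neg_of_add_eq_zero_right ha
      have e7 : (-1) ^ n * ee ℝ n ∈ Vs q n := by
        rw [e6]
        refine Submodule.neg_mem _ (Submodule.sum_mem _ fun i hi => Vs_sg q i ?_)
        have hi' := Finset.mem_range.1 hi
        have h1 : hh ℝ (n - i) ∈ Vs q (n - i) := by
          rcases Nat.eq_zero_or_pos i with rfl | hi0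
          · exact hH
          · exact (ih (n - i) (by omega)).1
        have h := Vs_mul q (ih i hi').2 h1
        rwa [show i + (n - i) = n by omega] at h
      have h8 := Vs_sg q n e7
      rwa [← mul_assoc, ← mul_pow, neg_mul_neg, one_mul, one_pow, one_mul] at h8

theorem exists_seed (q : ℝ) (hq : 0 < q) (d : ℕ) (x : Nat.Partition d → ℝ) : ∃ s : Nat.Partition d → ℝ,
    ∑ μ : Nat.Partition d, s μ • (μ.parts.map (qd q 1)).prod = ∑ μ : Nat.Partition d, x μ • (μ.parts.map (hh ℝ)).prod := by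
  have hm : ∀ s : Multiset ℕ, (s.map (hh ℝ)).prod ∈ Vs q s.sum := by
    intro s
    induction s using Multiset.induction_on with
    | empty =>
      rw [Multiset.map_zero, Multiset.prod_zero, Multiset.sum_zero]
      exact Vs_one q
    | cons a s ih =>
      rw [Multiset.map_cons, Multiset.prod_cons, Multiset.sum_cons]
      exact Vs_mul q (Vs_he q hq a).1 ih
  have hx : ∑ μ : Nat.Partition d, x μ • (μ.parts.map (hh ℝ)).prod ∈ Vs q d := by
    refine Submodule.sum_mem _ fun μ _ => Submodule.smul_mem _ _ ?_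
    have h := hm μ.parts
    rwa [μ.parts_sum] at h
  have hV : Vs q d ≤ Submodule.span ℝ (Set.range fun μ : Nat.Partition d => (μ.parts.map (qd q 1)).prod) := by
    refine Submodule.span_mono ?_
    rintro _ ⟨s, hs, hsd, rfl⟩
    exact ⟨⟨s, fun {i} hi => hs i hi, hsd⟩, rfl⟩
  exact (Submodule.mem_span_range_iff_exists_fun ℝ).1 (hV hx)

end NG
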