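import Pool.Agent.Lib.MP_630b78_co.EH.Newton

/-!
# Homomorphisms with prescribed values on the complete symmetric functions
-/

namespace NG

open MvPolynomial EllHall

variable {K : Type} [Field K] [CharZero K]

/-- the power sums in terms of the complete symmetric functions -/
private noncomputable def thA (H : ℕ → MvPolynomial ℕ K) : ℕ → MvPolynomial ℕ K
  | n => ((n + 1 : ℕ) : K) • H (n + 1) - ∑ i : Fin n, thA H i * H (n - i)

theorem exists_hom_hh (H : ℕ → MvPolynomial ℕ K) (h0 : H 0 = 1) :
    ∃ θ : MvPolynomial ℕ K →ₐ[K] MvPolynomial ℕ K, ∀ n, θ (hh K n) = H n := by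
  refine ⟨aeval (thA H), fun n => ?_⟩
  induction n using Nat.strong_induction_on with
  | _ n ih =>
    cases n with
    | zero => rw [hh, map_one, h0]
    | succ n =>
      have hn : ((n + 1 : ℕ) : K) ≠ 0 := Nat.cast_ne_zero.2 (Nat.succ_ne_zero n)
      have h1 := congrArg (aeval (thA H)) (hh_succ (K := K) n)
      rw [map_smul, map_sum] at h1
      have h2 : ∑ i ∈ Finset.range (n + 1), aeval (thA H) (X i * hh K (n - i)) =
          ((n + 1 : ℕ) : K) • H (n + 1) := by
        have h3 : ∀ i ∈ Finset.range (n + 1), aeval (thA H) (X i * hh K (n - i)) = thA H i * H (n - i) := by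
          intro i hi
          rw [map_mul, aeval_X, ih (n - i) (by omega)]
        rw [Finset.sum_congr rfl h3, Finset.sum_range_succ, Nat.sub_self, h0, mul_one]
        conv_lhs => rw [thA]
        rw [Finset.sum_range fun i => thA H i * H (n - i)]
        ring
      rw [h2] at h1
      have h4 := congrArg (fun x => (((n + 1 : ℕ) : K)⁻¹) • x) h1
      simp only [smul_smul, inv_mul_cancel₀ hn, one_smul] at h4
      exact h4

end NG
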