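import Pool.Agent.Lib.MP_630b78_co.NG.Isum

/-!
# A finite identity
-/

namespace NG

open MvPolynomial EllHall

variable {K : Type} [Field K]

theorem perN {R : Type} [Ring R] (A : ℕ → R) (D : ℤ → R) (l b : ℤ) (N : ℕ) :
    -(A N * ∑ s ∈ Finset.range (N + 1), D (l - s) * D (b - N + s)) -
        (∑ s ∈ Finset.range N, A s * D (l + N - s)) * D (b - N) +
        (∑ r ∈ Finset.range (N + 1), A r * D (l + N - r)) * D (b - N) -
        A N * isum l (b - N) (fun X => D X * D (b - N + l - X)) =
      -isum l b fun X => A N * (D (X - N) * D (b + l - X)) := by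
  set f : ℤ → R := fun Y => D Y * D (b - N + l - Y) with hf
  have h1 : (isum l b fun X => A N * (D (X - N) * D (b + l - X))) = A N * isum (l - N) (b - N) f := by
    have e1 : (isum l b fun X => A N * (D (X - N) * D (b + l - X))) = isum l b fun X => A N * f (X + -(N : ℤ)) := by
      refine isum_congr l b fun X => ?_
      simp only [hf]
      rw [← sub_eq_add_neg, show b - (N : ℤ) + l - (X - N) = b + l - X by ring]
    have e2 := isum_shift l b (-(N : ℤ)) f
    rw [← sub_eq_add_neg, ← sub_eq_add_neg] at e2
    rw [e1, ← e2, isum_mul_left]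
  have h2 : isum (l - N) (b - N) f = ∑ s ∈ Finset.range N, f (l - (s + 1 : ℕ)) + isum l (b - N) f := by
    rw [← isum_trans (l - N) l (b - N) f, isum_nat']
  have h3 : ∑ s ∈ Finset.range (N + 1), D (l - s) * D (b - N + s) = ∑ s ∈ Finset.range N, f (l - (s + 1 : ℕ)) + f l := by
    rw [Finset.sum_range_succ']
    congr 1
    · refine Finset.sum_congr rfl fun s _ => ?_
      simp only [hf]
      rw [show b - (N : ℤ) + l - (l - ((s + 1 : ℕ) : ℤ)) = b - N + ((s + 1 : ℕ) : ℤ) by ring]
    · simp only [hf]
      simp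
  have h4 : (∑ r ∈ Finset.range (N + 1), A r * D (l + N - r)) * D (b - N) =
      (∑ s ∈ Finset.range N, A s * D (l + N - s)) * D (b - N) + A N * f l := by
    rw [Finset.sum_range_succ, add_mul]
    simp only [hf]
    rw [add_sub_cancel_right, add_sub_cancel_right, mul_assoc]
  rw [h1, h2, h3, h4, mul_add, mul_add]
  abel

end NG
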