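import Pool.Agent.Lib.MP_630b78_co.NG.EsC
import Pool.Agent.Lib.MP_630b78_co.NG.LSB

/-!
# Two double sums
-/

namespace NG

open MvPolynomial EllHall

variable {K : Type} [Field K]

/-- the first double family -/
private noncomputable def TwB_S (q t : K) (β : List ℤ) (m b l : ℤ) (r s : ℕ) : Module.End K (MvPolynomial ℕ K) :=
  (q * t) ^ r • (((q * t) ^ s • (Es q t (β ++ [m + r + s]) * Es q t ((l - s) :: []))) * Dz q t (b - r))

/-- the second double family -/
private noncomputable def TwB_T (q t : K) (β : List ℤ) (m b l : ℤ) (r s : ℕ) : Module.End K (MvPolynomial ℕ K) :=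
  (q * t) ^ r • (Es q t (β ++ [m + r]) * ((q * t) ^ s • (Dz q t (l + s) * EE q t (b - r - s) [])))

private theorem TwB_lffS (q t : K) (β : List ℤ) (m b l : ℤ) : LFF (TwB_S q t β m b l) := by
  intro g
  obtain ⟨n, hn⟩ := exists_Le g
  refine ⟨(n + b + l + 1).toNat, fun r s hrs => ?_⟩
  have h1 : Le (n + (b - r)) (Dz q t (b - r) g) := DegBy_Dz q t (b - r) n g hn
  have h2 : Le (n + (b - r) + (l - s)) (Dz q t (l - s) (Dz q t (b - r) g)) := DegBy_Dz q t (l - s) _ _ h1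
  have h3 : Dz q t (l - s) (Dz q t (b - r) g) = 0 := Le_neg (by omega) h2
  show (q * t) ^ r • ((q * t) ^ s • (Es q t (β ++ [m + r + s]) (Dz q t (l - s) (Dz q t (b - r) g)))) = 0
  rw [h3, map_zero, smul_zero, smul_zero]

private theorem TwB_lffT (q t : K) (β : List ℤ) (m b l : ℤ) : LFF (TwB_T q t β m b l) := by
  intro g
  obtain ⟨n, hn⟩ := exists_Le g
  refine ⟨(n + b + 1).toNat, fun r s hrs => ?_⟩
  have h1 : Le (n + (b - r - s)) (Dz q t (b - r - s) g) := DegBy_Dz q t (b - r - s) n g hn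
  have h3 : Dz q t (b - r - s) g = 0 := Le_neg (by omega) h1
  show (q * t) ^ r • (Es q t (β ++ [m + r]) ((q * t) ^ s • (Dz q t (l + s) (Dz q t (b - r - s) g)))) = 0
  rw [h3, map_zero, smul_zero, map_zero, smul_zero]

private theorem TwB_diagS (q t : K) (β : List ℤ) (m b l : ℤ) (N : ℕ) :
    ∑ r ∈ Finset.range (N + 1), TwB_S q t β m b l r (N - r) = (q * t) ^ N • (Es q t (β ++ [m + N]) *
      ∑ s ∈ Finset.range (N + 1), Dz q t (l - s) * Dz q t (b - N + s)) := by
  rw [Finset.mul_sum, Finset.smul_sum, ← Finset.sum_range_reflect (fun s : ℕ => (q * t) ^ N •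
    (Es q t (β ++ [m + N]) * (Dz q t (l - s) * Dz q t (b - N + s)))) (N + 1)]
  refine Finset.sum_congr rfl fun r hr => ?_
  have hrN : r ≤ N := Nat.lt_succ_iff.1 (Finset.mem_range.1 hr)
  have e0 : N + 1 - 1 - r = N - r := by omega
  have e1 : ((N - r : ℕ) : ℤ) = (N : ℤ) - r := by push_cast [hrN]; ring
  have e2 : m + (r : ℤ) + ((N - r : ℕ) : ℤ) = m + N := by rw [e1]; ring
  have e3 : b - (N : ℤ) + ((N - r : ℕ) : ℤ) = b - r := by rw [e1]; ring
  have e4 : (q * t) ^ N = (q * t) ^ r * (q * t) ^ (N - r) := by rw [← pow_add, Nat.add_sub_cancel' hrN]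
  rw [e0, e3, e4, mul_smul]
  show (q * t) ^ r • (((q * t) ^ (N - r) • (Es q t (β ++ [m + r + ((N - r : ℕ) : ℤ)]) *
    Dz q t (l - ((N - r : ℕ) : ℤ)))) * Dz q t (b - r)) = _
  rw [e2, smul_mul_assoc, mul_assoc]

private theorem TwB_diagT (q t : K) (β : List ℤ) (m b l : ℤ) (N : ℕ) :
    ∑ r ∈ Finset.range (N + 1), TwB_T q t β m b l r (N - r) = (q * t) ^ N •
      ((∑ r ∈ Finset.range (N + 1), Es q t (β ++ [m + r]) * Dz q t (l + N - r)) * Dz q t (b - N)) := by
  rw [Finset.sum_mul, Finset.smul_sum]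
  refine Finset.sum_congr rfl fun r hr => ?_
  have hrN : r ≤ N := Nat.lt_succ_iff.1 (Finset.mem_range.1 hr)
  have e1 : ((N - r : ℕ) : ℤ) = (N : ℤ) - r := by push_cast [hrN]; ring
  have e2 : l + ((N - r : ℕ) : ℤ) = l + N - r := by rw [e1]; ring
  have e3 : b - (r : ℤ) - ((N - r : ℕ) : ℤ) = b - N := by rw [e1]; ring
  have e4 : (q * t) ^ N = (q * t) ^ r * (q * t) ^ (N - r) := by rw [← pow_add, Nat.add_sub_cancel' hrN]
  rw [e4, mul_smul]
  show (q * t) ^ r • (Es q t (β ++ [m + r]) * ((q * t) ^ (N - r) • (Dz q t (l + ((N - r : ℕ) : ℤ)) *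
    Dz q t (b - r - ((N - r : ℕ) : ℤ))))) = _
  rw [e2, e3, mul_smul_comm, mul_assoc]

theorem tw1 (q t : K) (β : List ℤ) (m b l : ℤ) :
    ls (fun r : ℕ => (q * t) ^ r • (Es q t (β ++ [m + r, l]) * Dz q t (b - r))) =
      ls fun N : ℕ => (q * t) ^ N • (Es q t (β ++ [m + N]) *
        ∑ s ∈ Finset.range (N + 1), Dz q t (l - s) * Dz q t (b - N + s)) := by
  have h1 : ∀ r : ℕ, (q * t) ^ r • (Es q t (β ++ [m + r, l]) * Dz q t (b - r)) = ls (TwB_S q t β m b l r) := by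
    intro r
    have h2 := LF_Es q t β (m + r) l []
    have h3 := ls_mul_right h2 (Dz q t (b - r))
    have h4 := ls_smul (h2.mul_right (Dz q t (b - r))) ((q * t) ^ r)
    rw [h3, ← Rs] at h4
    exact h4.symm
  rw [ls_congr h1, ls_ls (TwB_lffS q t β m b l)]
  exact ls_congr fun N => TwB_diagS q t β m b l N

theorem tw2 (q t : K) (β : List ℤ) (m b l : ℤ) :
    ls (fun r : ℕ => (q * t) ^ r • (Es q t (β ++ [m + r]) * EE q t l [b - r])) =
      ls fun N : ℕ => (q * t) ^ N • ((∑ r ∈ Finset.range (N + 1), Es q t (β ++ [m + r]) * Dz q t (l + N - r)) *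
        Dz q t (b - N)) := by
  have h1 : ∀ r : ℕ, (q * t) ^ r • (Es q t (β ++ [m + r]) * EE q t l [b - r]) = ls (TwB_T q t β m b l r) := by
    intro r
    have h2 := LF_EE q t l (b - r) []
    have h3 := ls_mul_left h2 (Es q t (β ++ [m + r]))
    have h4 := ls_smul (h2.mul_left (Es q t (β ++ [m + r]))) ((q * t) ^ r)
    rw [h3] at h4
    exact h4.symm
  rw [ls_congr h1, ls_ls (TwB_lffT q t β m b l)]
  exact ls_congr fun N => TwB_diagT q t β m b l N

theorem tw1_LF (q t : K) (β : List ℤ) (m b l : ℤ) : LF fun N : ℕ => (q * t) ^ N • (Es q t (β ++ [m + N]) *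
    ∑ s ∈ Finset.range (N + 1), Dz q t (l - s) * Dz q t (b - N + s)) := by
  have h1 := (TwB_lffS q t β m b l).diag
  rwa [funext fun N => TwB_diagS q t β m b l N] at h1

theorem tw2_LF (q t : K) (β : List ℤ) (m b l : ℤ) : LF fun N : ℕ => (q * t) ^ N •
    ((∑ r ∈ Finset.range (N + 1), Es q t (β ++ [m + r]) * Dz q t (l + N - r)) * Dz q t (b - N)) := by
  have h1 := (TwB_lffT q t β m b l).diag
  rwa [funext fun N => TwB_diagT q t β m b l N] at h1

end NG
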