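import Pool.Agent.Lib.MP_630b78_co.NG.TwA
import Pool.Agent.Lib.MP_630b78_co.NG.TwB

/-!
# The core of (R2)
-/

namespace NG

open MvPolynomial EllHall

variable {K : Type} [Field K]

/-- the family with the first part of the signed interval -/
private noncomputable def H1 (q t : K) (β : List ℤ) (m b l : ℤ) (r : ℕ) : Module.End K (MvPolynomial ℕ K) :=
  (q * t) ^ r • ((isum l m fun X => Es q t (β ++ [X]) * Dz q t (m + r + l - X)) * Dz q t (b - r))

/-- the family with the second part of the signed interval -/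
private noncomputable def H2 (q t : K) (β : List ℤ) (m b l : ℤ) (r : ℕ) : Module.End K (MvPolynomial ℕ K) :=
  (q * t) ^ r • ((∑ s ∈ Finset.range r, Es q t (β ++ [m + s]) * Dz q t (l + r - s)) * Dz q t (b - r))

private noncomputable def I4 (q t : K) (β : List ℤ) (m b l : ℤ) (r : ℕ) : Module.End K (MvPolynomial ℕ K) :=
  (q * t) ^ r • (Es q t (β ++ [m + r]) * isum l (b - r) fun X => Dz q t X * Dz q t (b - r + l - X))

private noncomputable def JJ (q t : K) (β : List ℤ) (m b l : ℤ) (r : ℕ) : Module.End K (MvPolynomial ℕ K) :=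
  (q * t) ^ r • isum l b fun X => Es q t (β ++ [m + r]) * (Dz q t (X - r) * Dz q t (b + l - X))

private noncomputable def G1 (q t : K) (β : List ℤ) (m b l : ℤ) (N : ℕ) : Module.End K (MvPolynomial ℕ K) :=
  (q * t) ^ N • (Es q t (β ++ [m + N]) * ∑ s ∈ Finset.range (N + 1), Dz q t (l - s) * Dz q t (b - N + s))

private noncomputable def G3 (q t : K) (β : List ℤ) (m b l : ℤ) (N : ℕ) : Module.End K (MvPolynomial ℕ K) :=
  (q * t) ^ N • ((∑ r ∈ Finset.range (N + 1), Es q t (β ++ [m + r]) * Dz q t (l + N - r)) * Dz q t (b - N))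

private theorem lf1 (q t : K) (β : List ℤ) (m b l : ℤ) :
    LF fun r : ℕ => (q * t) ^ r • (Es q t (β ++ [m + r, l]) * Dz q t (b - r)) :=
  LF_deg (q * t) b (fun r : ℕ => Es q t (β ++ [m + r, l])) (fun r : ℕ => Dz q t (b - r)) fun r => DegBy_Dz q t (b - r)

private theorem lfH1 (q t : K) (β : List ℤ) (m b l : ℤ) : LF (H1 q t β m b l) :=
  LF_deg (q * t) b (fun r : ℕ => isum l m fun X => Es q t (β ++ [X]) * Dz q t (m + r + l - X)) (fun r : ℕ => Dz q t (b - r))
    fun r => DegBy_Dz q t (b - r)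

private theorem lfH2 (q t : K) (β : List ℤ) (m b l : ℤ) : LF (H2 q t β m b l) :=
  LF_deg (q * t) b (fun r : ℕ => ∑ s ∈ Finset.range r, Es q t (β ++ [m + s]) * Dz q t (l + r - s)) (fun r : ℕ => Dz q t (b - r))
    fun r => DegBy_Dz q t (b - r)

private theorem lf3 (q t : K) (β : List ℤ) (m b l : ℤ) :
    LF fun r : ℕ => (q * t) ^ r • (Es q t (β ++ [m + r]) * EE q t l [b - r]) :=
  LF_deg (q * t) (l + b) (fun r : ℕ => Es q t (β ++ [m + r])) (fun r : ℕ => EE q t l [b - r]) fun r => by
    have h := DegBy_EE q t l [b - r]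
    have e : l + [b - (r : ℤ)].sum = l + b - r := by
      rw [List.sum_cons, List.sum_nil]
      ring
    rwa [e] at h

private theorem lfI (q t : K) (β : List ℤ) (m b l : ℤ) : LF (I4 q t β m b l) :=
  LF_deg (q * t) (b + l) (fun r : ℕ => Es q t (β ++ [m + r]))
    (fun r : ℕ => isum l (b - r) fun X => Dz q t X * Dz q t (b - r + l - X)) fun r => by
      apply DegBy_isum
      intro X
      have h := (DegBy_Dz q t X).mul (DegBy_Dz q t (b - r + l - X))
      have e : X + (b - r + l - X) = b + l - r := by ring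
      rwa [e] at h

private theorem lfJX (q t : K) (β : List ℤ) (m b l X : ℤ) :
    LF fun r : ℕ => (q * t) ^ r • (Es q t (β ++ [m + r]) * (Dz q t (X - r) * Dz q t (b + l - X))) :=
  LF_deg (q * t) (b + l) (fun r : ℕ => Es q t (β ++ [m + r])) (fun r : ℕ => Dz q t (X - r) * Dz q t (b + l - X)) fun r => by
    have h := (DegBy_Dz q t (X - r)).mul (DegBy_Dz q t (b + l - X))
    have e : X - r + (b + l - X) = b + l - r := by ring
    rwa [e] at h

/-- term by term -/
private theorem term (q t : K) (β : List ℤ) (m b l : ℤ) (N : ℕ) : JJ q t β m b l N =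
    G1 q t β m b l N + H2 q t β m b l N - G3 q t β m b l N + I4 q t β m b l N := by
  have h := perN (fun r : ℕ => Es q t (β ++ [m + r])) (Dz q t) l b N
  have h2 : (isum l b fun X => Es q t (β ++ [m + N]) * (Dz q t (X - N) * Dz q t (b + l - X))) =
      (Es q t (β ++ [m + N]) * ∑ s ∈ Finset.range (N + 1), Dz q t (l - s) * Dz q t (b - N + s)) +
        (∑ s ∈ Finset.range N, Es q t (β ++ [m + s]) * Dz q t (l + N - s)) * Dz q t (b - N) -
        (∑ r ∈ Finset.range (N + 1), Es q t (β ++ [m + r]) * Dz q t (l + N - r)) * Dz q t (b - N) +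
        Es q t (β ++ [m + N]) * isum l (b - N) (fun X => Dz q t X * Dz q t (b - N + l - X)) := by
    rw [← neg_neg (isum l b fun X => Es q t (β ++ [m + N]) * (Dz q t (X - N) * Dz q t (b + l - X))), ← h]
    abel
  unfold JJ
  rw [h2, smul_add, smul_sub, smul_add]
  rfl

private theorem ls_J (q t : K) (β : List ℤ) (m b l : ℤ) : ls (JJ q t β m b l) =
    ls (G1 q t β m b l) + ls (H2 q t β m b l) - ls (G3 q t β m b l) + ls (I4 q t β m b l) := by
  have f1 : LF (G1 q t β m b l) := tw1_LF q t β m b l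
  have f3 : LF (G3 q t β m b l) := tw2_LF q t β m b l
  have f2 := lfH2 q t β m b l
  have f4 := lfI q t β m b l
  rw [← ls_add f1 f2, ← ls_sub (f1.add f2) f3, ← ls_add ((f1.add f2).sub f3) f4]
  exact ls_congr (term q t β m b l)

/-- the first part of the right-hand side -/
private theorem rhs1 (q t : K) (β : List ℤ) (m b l : ℤ) :
    (isum l m fun X => Es q t (β ++ [X]) * EE q t (m + l - X) [b]) = ls (H1 q t β m b l) := by
  have h1 : ∀ X : ℤ, Es q t (β ++ [X]) * EE q t (m + l - X) [b] =
      ls fun r : ℕ => Es q t (β ++ [X]) * ((q * t) ^ r • (Dz q t (m + l - X + r) * Dz q t (b - r))) := by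
    intro X
    have h2 : LF fun r : ℕ => (q * t) ^ r • (Dz q t (m + l - X + r) * Dz q t (b - r)) := LF_EE q t (m + l - X) b []
    rw [ls_mul_left h2]
    rfl
  rw [isum_congr l m h1, ← ls_isum l m (fun X (r : ℕ) => Es q t (β ++ [X]) * ((q * t) ^ r • (Dz q t (m + l - X + r) * Dz q t (b - r))))
    fun X => (LF_EE q t (m + l - X) b []).mul_left _]
  apply ls_congr
  intro r
  unfold H1
  rw [isum_mul_right, isum_smul]
  apply isum_congr
  intro X
  rw [mul_smul_comm, mul_assoc]
  have e : m + l - X + r = m + r + l - X := by ring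
  rw [e]

/-- the second part of the right-hand side -/
private theorem rhs2 (q t : K) (β : List ℤ) (m b l : ℤ) :
    (isum l b fun X => Es q t (β ++ [m, X]) * Dz q t (b + l - X)) = ls (JJ q t β m b l) := by
  have h1 : ∀ X : ℤ, Es q t (β ++ [m, X]) * Dz q t (b + l - X) =
      ls fun r : ℕ => (q * t) ^ r • (Es q t (β ++ [m + r]) * (Dz q t (X - r) * Dz q t (b + l - X))) := by
    intro X
    rw [Rs, ← ls_mul_right (LF_Es q t β m X [])]
    apply ls_congr
    intro r
    rw [smul_mul_assoc, mul_assoc]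
    rfl
  rw [isum_congr l b h1, ← ls_isum l b (fun X (r : ℕ) => (q * t) ^ r • (Es q t (β ++ [m + r]) * (Dz q t (X - r) * Dz q t (b + l - X))))
    fun X => lfJX q t β m b l X]
  apply ls_congr
  intro r
  unfold JJ
  rw [isum_smul]

/-- one summand of the left-hand side -/
private theorem lhs_term (q t : K) (β : List ℤ) (m b l : ℤ) (r : ℕ) :
    (q * t) ^ r • (-(Es q t (β ++ [m + r, l]) * Dz q t (b - r)) -
        (isum l (m + r) fun X => Es q t (β ++ [X]) * Dz q t (m + r + l - X)) * Dz q t (b - r) +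
        Es q t (β ++ [m + r]) * EE q t l [b - r] -
        Es q t (β ++ [m + r]) * isum l (b - r) fun X => Dz q t X * Dz q t (b - r + l - X)) =
      -((q * t) ^ r • (Es q t (β ++ [m + r, l]) * Dz q t (b - r))) - (H1 q t β m b l r + H2 q t β m b l r) +
        (q * t) ^ r • (Es q t (β ++ [m + r]) * EE q t l [b - r]) - I4 q t β m b l r := by
  have h1 : (isum l (m + r) fun X => Es q t (β ++ [X]) * Dz q t (m + r + l - X)) =
      (isum l m fun X => Es q t (β ++ [X]) * Dz q t (m + r + l - X)) +
        ∑ s ∈ Finset.range r, Es q t (β ++ [m + s]) * Dz q t (l + r - s) := by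
    rw [← isum_trans l m (m + r), isum_nat]
    congr 1
    refine Finset.sum_congr rfl fun s _ => ?_
    have e : m + r + l - (m + s) = l + r - s := by ring
    rw [e]
  rw [h1, smul_sub, smul_add, smul_sub, smul_neg, add_mul, smul_add]
  rfl

theorem core (q t : K) (β : List ℤ) (m b l : ℤ) :
    ls (fun r : ℕ => (q * t) ^ r • (-(Es q t (β ++ [m + r, l]) * Dz q t (b - r)) -
        (isum l (m + r) fun X => Es q t (β ++ [X]) * Dz q t (m + r + l - X)) * Dz q t (b - r) +
        Es q t (β ++ [m + r]) * EE q t l [b - r] -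
        Es q t (β ++ [m + r]) * isum l (b - r) fun X => Dz q t X * Dz q t (b - r + l - X))) =
      -(isum l m fun X => Es q t (β ++ [X]) * EE q t (m + l - X) [b]) -
        isum l b fun X => Es q t (β ++ [m, X]) * Dz q t (b + l - X) := by
  have f1 := lf1 q t β m b l
  have f2 := lfH1 q t β m b l
  have f3 := lfH2 q t β m b l
  have f4 := lf3 q t β m b l
  have f5 := lfI q t β m b l
  rw [rhs1, rhs2, ls_J, ls_congr (lhs_term q t β m b l), ls_sub ((f1.neg.sub (f2.add f3)).add f4) f5,
    ls_add (f1.neg.sub (f2.add f3)) f4, ls_sub f1.neg (f2.add f3), ls_neg f1, ls_add f2 f3, tw1, tw2]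
  change -ls (G1 q t β m b l) - (ls (H1 q t β m b l) + ls (H2 q t β m b l)) + ls (G3 q t β m b l) - ls (I4 q t β m b l) = _
  abel

end NG
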