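import Pool.Agent.Lib.MP_630b78_co.NG.TwC

/-!
# The right-hand side of (R2)
-/

namespace NG

open MvPolynomial EllHall

variable {K : Type} [Field K]

/-- the right-hand side of (R2) -/
noncomputable def RR (q t : K) (l : ℤ) (β : List ℤ) : Module.End K (MvPolynomial ℕ K) :=
  Es q t (l :: β) - Es q t (β ++ [l]) - ∑ p ∈ Finset.range β.length,
    isum l (β.getD p 0) fun X => Es q t (β.take p ++ [X]) * Es q t ((β.getD p 0 + l - X) :: β.drop (p + 1))

/-- the terms before the last ones -/
private theorem TwD_front (q t : K) (l : ℤ) (β γ : List ℤ) :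
    (∑ p ∈ Finset.range β.length, isum l ((β ++ γ).getD p 0) fun X => Es q t ((β ++ γ).take p ++ [X]) *
      Es q t (((β ++ γ).getD p 0 + l - X) :: (β ++ γ).drop (p + 1))) =
    ∑ p ∈ Finset.range β.length, isum l (β.getD p 0) fun X => Es q t (β.take p ++ [X]) *
      Es q t ((β.getD p 0 + l - X) :: (β.drop (p + 1) ++ γ)) := by
  refine Finset.sum_congr rfl fun p hp => ?_
  have hp' : p < β.length := Finset.mem_range.1 hp
  have e1 : (β ++ γ).getD p 0 = β.getD p 0 := List.getD_append _ _ _ _ hp'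
  have e2 : (β ++ γ).take p = β.take p := List.take_append_of_le_length hp'.le
  have e3 : (β ++ γ).drop (p + 1) = β.drop (p + 1) ++ γ := List.drop_append_of_le_length hp'
  rw [e1, e2, e3]

private theorem TwD_one (q t : K) (l : ℤ) (β : List ℤ) (e : ℤ) : RR q t l (β ++ [e]) =
    Es q t (l :: (β ++ [e])) - Es q t (β ++ [e, l]) -
      (∑ p ∈ Finset.range β.length, isum l (β.getD p 0) fun X => Es q t (β.take p ++ [X]) *
        Es q t ((β.getD p 0 + l - X) :: (β.drop (p + 1) ++ [e]))) -
      isum l e fun X => Es q t (β ++ [X]) * Dz q t (e + l - X) := by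
  unfold RR
  have h0 : (β ++ [e]).length = β.length + 1 := by simp
  have e1 : (β ++ [e]).getD β.length 0 = e := by simp
  have e2 : (β ++ [e]).take β.length = β := by simp
  have e3 : (β ++ [e]).drop (β.length + 1) = [] := by simp
  rw [h0, Finset.sum_range_succ, TwD_front, e1, e2, e3, List.append_assoc]
  have e4 : ∀ X, Es q t [e + l - X] = Dz q t (e + l - X) := fun X => rfl
  simp only [e4, List.cons_append, List.nil_append]
  abel

private theorem TwD_two (q t : K) (l : ℤ) (β : List ℤ) (m b : ℤ) : RR q t l (β ++ [m, b]) =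
    Es q t (l :: (β ++ [m, b])) - Es q t (β ++ [m, b, l]) -
      (∑ p ∈ Finset.range β.length, isum l (β.getD p 0) fun X => Es q t (β.take p ++ [X]) *
        Es q t ((β.getD p 0 + l - X) :: (β.drop (p + 1) ++ [m, b]))) +
      (-(isum l m fun X => Es q t (β ++ [X]) * EE q t (m + l - X) [b]) -
        isum l b fun X => Es q t (β ++ [m, X]) * Dz q t (b + l - X)) := by
  unfold RR
  have h0 : (β ++ [m, b]).length = β.length + 1 + 1 := by simp
  have e1 : (β ++ [m, b]).getD β.length 0 = m := by simp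
  have e2 : (β ++ [m, b]).take β.length = β := by simp
  have e3 : (β ++ [m, b]).drop (β.length + 1) = [b] := by simp
  have f1 : (β ++ [m, b]).getD (β.length + 1) 0 = b := by simp
  have f2 : (β ++ [m, b]).take (β.length + 1) = β ++ [m] := by
    rw [show β ++ [m, b] = (β ++ [m]) ++ [b] by simp]
    exact List.take_left' (by simp)
  have f3 : (β ++ [m, b]).drop (β.length + 1 + 1) = [] := by simp
  rw [h0, Finset.sum_range_succ, Finset.sum_range_succ, TwD_front, e1, e2, e3, f1, f2, f3, List.append_assoc]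
  have e4 : ∀ X, Es q t [b + l - X] = Dz q t (b + l - X) := fun X => rfl
  have e5 : ∀ X, Es q t [m + l - X, b] = EE q t (m + l - X) [b] := fun X => rfl
  have e6 : ∀ X, β ++ [m] ++ [X] = β ++ [m, X] := fun X => by simp
  simp only [e4, e5, e6, List.cons_append, List.nil_append]
  abel

private theorem TwD_LFa (q t : K) (β : List ℤ) (m b : ℤ) :
    LF fun r : ℕ => (q * t) ^ r • (Es q t (β ++ [m + r]) * Dz q t (b - r)) :=
  LF_deg (q * t) b _ _ fun _ => DegBy_Dz q t _

private theorem TwD_LFb (q t : K) (β : List ℤ) (m b l : ℤ) :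
    LF fun r : ℕ => (q * t) ^ r • (Es q t (β ++ [m + r]) * EE q t (b - r) [l]) := by
  refine LF_deg (q * t) (b + l) _ _ fun r => ?_
  have h := DegBy_EE q t (b - r) [l]
  rw [List.sum_singleton] at h
  rw [show b + l - (r : ℤ) = b - r + l by ring]
  exact h

private theorem TwD_LFc (q t : K) (β : List ℤ) (m b l : ℤ) :
    LF fun r : ℕ => ∑ p ∈ Finset.range β.length, isum l (β.getD p 0) fun X =>
      Es q t (β.take p ++ [X]) * ((q * t) ^ r • (Es q t ((β.getD p 0 + l - X) :: (β.drop (p + 1) ++ [m + r])) *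
        Dz q t (b - r))) := by
  refine LF.sum _ _ fun p _ => ?_
  refine LF.isum l (β.getD p 0) (fun X (r : ℕ) => Es q t (β.take p ++ [X]) * ((q * t) ^ r •
    (Es q t ((β.getD p 0 + l - X) :: (β.drop (p + 1) ++ [m + r])) * Dz q t (b - r)))) fun X => ?_
  exact (TwD_LFa q t ((β.getD p 0 + l - X) :: β.drop (p + 1)) m b).mul_left _

private theorem TwD_LFd (q t : K) (β : List ℤ) (m b l : ℤ) :
    LF fun r : ℕ => (q * t) ^ r • (-(Es q t (β ++ [m + r, l]) * Dz q t (b - r)) -
        (isum l (m + r) fun X => Es q t (β ++ [X]) * Dz q t (m + r + l - X)) * Dz q t (b - r) +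
        Es q t (β ++ [m + r]) * EE q t l [b - r] -
        Es q t (β ++ [m + r]) * isum l (b - r) fun X => Dz q t X * Dz q t (b - r + l - X)) := by
  have h1 : LF fun r : ℕ => (q * t) ^ r • (Es q t (β ++ [m + r, l]) * Dz q t (b - r)) :=
    LF_deg (q * t) b _ _ fun _ => DegBy_Dz q t _
  have h2 : LF fun r : ℕ => (q * t) ^ r • ((isum l (m + r) fun X => Es q t (β ++ [X]) * Dz q t (m + r + l - X)) *
      Dz q t (b - r)) := LF_deg (q * t) b _ _ fun _ => DegBy_Dz q t _
  have h3 : LF fun r : ℕ => (q * t) ^ r • (Es q t (β ++ [m + r]) * EE q t l [b - r]) := by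
    refine LF_deg (q * t) (b + l) _ _ fun r => ?_
    have h := DegBy_EE q t l [b - (r : ℤ)]
    rw [List.sum_singleton] at h
    rw [show b + l - (r : ℤ) = l + (b - r) by ring]
    exact h
  have h4 : LF fun r : ℕ => (q * t) ^ r • (Es q t (β ++ [m + r]) * isum l (b - r) fun X =>
      Dz q t X * Dz q t (b - r + l - X)) := by
    refine LF_deg (q * t) (b + l) _ _ fun r => ?_
    refine DegBy_isum l (b - r) (b + l - r) _ fun X => ?_
    have h := (DegBy_Dz q t X).mul (DegBy_Dz q t (b - r + l - X))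
    rw [show b + l - (r : ℤ) = X + (b - r + l - X) by ring]
    exact h
  have h5 := ((h1.neg.sub h2).add h3).sub h4
  have e : (fun r : ℕ => (q * t) ^ r • (-(Es q t (β ++ [m + r, l]) * Dz q t (b - r)) -
        (isum l (m + r) fun X => Es q t (β ++ [X]) * Dz q t (m + r + l - X)) * Dz q t (b - r) +
        Es q t (β ++ [m + r]) * EE q t l [b - r] -
        Es q t (β ++ [m + r]) * isum l (b - r) fun X => Dz q t X * Dz q t (b - r + l - X))) = fun r : ℕ =>
      -((q * t) ^ r • (Es q t (β ++ [m + r, l]) * Dz q t (b - r))) -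
        (q * t) ^ r • ((isum l (m + r) fun X => Es q t (β ++ [X]) * Dz q t (m + r + l - X)) * Dz q t (b - r)) +
        (q * t) ^ r • (Es q t (β ++ [m + r]) * EE q t l [b - r]) -
        (q * t) ^ r • (Es q t (β ++ [m + r]) * isum l (b - r) fun X => Dz q t X * Dz q t (b - r + l - X)) := by
    funext r
    rw [smul_sub, smul_add, smul_sub, smul_neg]
  rw [e]
  exact h5

private theorem TwD_term (q t : K) (β : List ℤ) (m b l : ℤ) (r : ℕ) :
    (q * t) ^ r • (RR q t l (β ++ [m + r]) * Dz q t (b - r) + Es q t (β ++ [m + r]) *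
      (EE q t l [b - r] - EE q t (b - r) [l] - isum l (b - r) fun X => Dz q t X * Dz q t (b - r + l - X))) =
    (q * t) ^ r • (Es q t (l :: (β ++ [m + r])) * Dz q t (b - r)) -
      (q * t) ^ r • (Es q t (β ++ [m + r]) * EE q t (b - r) [l]) -
      (∑ p ∈ Finset.range β.length, isum l (β.getD p 0) fun X =>
        Es q t (β.take p ++ [X]) * ((q * t) ^ r • (Es q t ((β.getD p 0 + l - X) :: (β.drop (p + 1) ++ [m + r])) *
          Dz q t (b - r)))) +
      (q * t) ^ r • (-(Es q t (β ++ [m + r, l]) * Dz q t (b - r)) -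
        (isum l (m + r) fun X => Es q t (β ++ [X]) * Dz q t (m + r + l - X)) * Dz q t (b - r) +
        Es q t (β ++ [m + r]) * EE q t l [b - r] -
        Es q t (β ++ [m + r]) * isum l (b - r) fun X => Dz q t X * Dz q t (b - r + l - X)) := by
  rw [TwD_one]
  have hC : (∑ p ∈ Finset.range β.length, isum l (β.getD p 0) fun X =>
        Es q t (β.take p ++ [X]) * ((q * t) ^ r • (Es q t ((β.getD p 0 + l - X) :: (β.drop (p + 1) ++ [m + r])) *
          Dz q t (b - r)))) =
      (q * t) ^ r • ((∑ p ∈ Finset.range β.length, isum l (β.getD p 0) fun X => Es q t (β.take p ++ [X]) *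
        Es q t ((β.getD p 0 + l - X) :: (β.drop (p + 1) ++ [m + r]))) * Dz q t (b - r)) := by
    rw [Finset.sum_mul, Finset.smul_sum]
    refine Finset.sum_congr rfl fun p _ => ?_
    rw [isum_mul_right, isum_smul]
    refine isum_congr _ _ fun X => ?_
    rw [mul_smul_comm, mul_assoc]
  rw [hC]
  generalize (∑ p ∈ Finset.range β.length, isum l (β.getD p 0) fun X => Es q t (β.take p ++ [X]) *
        Es q t ((β.getD p 0 + l - X) :: (β.drop (p + 1) ++ [m + r]))) = S
  simp only [sub_mul, mul_sub, smul_sub, smul_add, smul_neg]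
  abel

theorem RR_step (q t : K) (β : List ℤ) (m b l : ℤ) :
    ls (fun r : ℕ => (q * t) ^ r • (RR q t l (β ++ [m + r]) * Dz q t (b - r) + Es q t (β ++ [m + r]) *
      (EE q t l [b - r] - EE q t (b - r) [l] - isum l (b - r) fun X => Dz q t X * Dz q t (b - r + l - X)))) =
      RR q t l (β ++ [m, b]) := by
  have ha : LF fun r : ℕ => (q * t) ^ r • (Es q t (l :: (β ++ [m + r])) * Dz q t (b - r)) :=
    TwD_LFa q t (l :: β) m b
  have hb := TwD_LFb q t β m b l
  have hc := TwD_LFc q t β m b l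
  have hd := TwD_LFd q t β m b l
  rw [ls_congr (TwD_term q t β m b l)]
  have e1 : ls (fun r : ℕ => (q * t) ^ r • (Es q t (l :: (β ++ [m + r])) * Dz q t (b - r))) =
      Es q t (l :: (β ++ [m, b])) := (Rs q t (l :: β) m b []).symm
  have e2 : ls (fun r : ℕ => (q * t) ^ r • (Es q t (β ++ [m + r]) * EE q t (b - r) [l])) =
      Es q t (β ++ [m, b, l]) := (Rs q t β m b [l]).symm
  have e3 : ls (fun r : ℕ => ∑ p ∈ Finset.range β.length, isum l (β.getD p 0) fun X =>
      Es q t (β.take p ++ [X]) * ((q * t) ^ r • (Es q t ((β.getD p 0 + l - X) :: (β.drop (p + 1) ++ [m + r])) *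
        Dz q t (b - r)))) =
      ∑ p ∈ Finset.range β.length, isum l (β.getD p 0) fun X => Es q t (β.take p ++ [X]) *
        Es q t ((β.getD p 0 + l - X) :: (β.drop (p + 1) ++ [m, b])) := by
    rw [ls_sum (Finset.range β.length) (fun p (r : ℕ) => isum l (β.getD p 0) fun X =>
      Es q t (β.take p ++ [X]) * ((q * t) ^ r • (Es q t ((β.getD p 0 + l - X) :: (β.drop (p + 1) ++ [m + r])) *
        Dz q t (b - r)))) fun p _ => LF.isum l (β.getD p 0) (fun X (r : ℕ) => Es q t (β.take p ++ [X]) *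
        ((q * t) ^ r • (Es q t ((β.getD p 0 + l - X) :: (β.drop (p + 1) ++ [m + r])) * Dz q t (b - r)))) fun X =>
        (TwD_LFa q t ((β.getD p 0 + l - X) :: β.drop (p + 1)) m b).mul_left _]
    refine Finset.sum_congr rfl fun p _ => ?_
    rw [ls_isum l (β.getD p 0) (fun X (r : ℕ) => Es q t (β.take p ++ [X]) *
        ((q * t) ^ r • (Es q t ((β.getD p 0 + l - X) :: (β.drop (p + 1) ++ [m + r])) * Dz q t (b - r)))) fun X =>
        (TwD_LFa q t ((β.getD p 0 + l - X) :: β.drop (p + 1)) m b).mul_left _]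
    refine isum_congr _ _ fun X => ?_
    have h := ls_mul_left (TwD_LFa q t ((β.getD p 0 + l - X) :: β.drop (p + 1)) m b) (Es q t (β.take p ++ [X]))
    refine h.trans ?_
    rw [show ls (fun r : ℕ => (q * t) ^ r • (Es q t ((β.getD p 0 + l - X) :: β.drop (p + 1) ++ [m + r]) *
      Dz q t (b - r))) = Es q t ((β.getD p 0 + l - X) :: (β.drop (p + 1) ++ [m, b])) from
      (Rs q t ((β.getD p 0 + l - X) :: β.drop (p + 1)) m b []).symm]
  rw [ls_add ((LF.sub ha hb).sub hc) hd, ls_sub (LF.sub ha hb) hc, ls_sub ha hb, core, TwD_two]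
  rw [e1, e2, e3]

theorem RR_LF (q t : K) (β : List ℤ) (m b l : ℤ) :
    LF fun r : ℕ => (q * t) ^ r • (RR q t l (β ++ [m + r]) * Dz q t (b - r) + Es q t (β ++ [m + r]) *
      (EE q t l [b - r] - EE q t (b - r) [l] - isum l (b - r) fun X => Dz q t X * Dz q t (b - r + l - X))) := by
  have ha : LF fun r : ℕ => (q * t) ^ r • (Es q t (l :: (β ++ [m + r])) * Dz q t (b - r)) :=
    TwD_LFa q t (l :: β) m b
  have hb := TwD_LFb q t β m b l
  have hc := TwD_LFc q t β m b l
  have hd := TwD_LFd q t β m b l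
  have h := ((LF.sub ha hb).sub hc).add hd
  have e : (fun r : ℕ => (q * t) ^ r • (RR q t l (β ++ [m + r]) * Dz q t (b - r) + Es q t (β ++ [m + r]) *
      (EE q t l [b - r] - EE q t (b - r) [l] - isum l (b - r) fun X => Dz q t X * Dz q t (b - r + l - X)))) = _ :=
    funext (TwD_term q t β m b l)
  rw [e]
  exact h

end NG
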