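import Pool.Agent.Lib.MP_630b78_co.NG.TwD
import Pool.Agent.Lib.MP_630b78_co.NG.RelD

/-!
# The relation (R2)
-/

namespace NG

open MvPolynomial EllHall

variable {K : Type} [Field K]

private theorem TwE_term {E : Type} [Ring E] [Algebra K E] (x M : K) (r : ℕ) (L A D R S : E)
    (h1 : (1 - x) • (L * A - A * L) = M • R) (h2 : (1 - x) • (L * D - D * L) = M • S) :
    (1 - x) • (L * (x ^ r • (A * D)) - x ^ r • (A * D) * L) = M • (x ^ r • (R * D + A * S)) := by
  have e : L * (x ^ r • (A * D)) - x ^ r • (A * D) * L = x ^ r • ((L * A - A * L) * D + A * (L * D - D * L)) := by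
    rw [mul_smul_comm, smul_mul_assoc, ← smul_sub]
    congr 1
    noncomm_ring
  rw [e, smul_comm (1 - x), smul_comm M, smul_add (1 - x), ← smul_mul_assoc, h1, ← mul_smul_comm, h2, smul_mul_assoc,
    mul_smul_comm, ← smul_add]

theorem R2 [CharZero K] (q t : K) (β : List ℤ) (m l : ℤ) :
    (1 - q * t) • (Dz q t l * Es q t (β ++ [m]) - Es q t (β ++ [m]) * Dz q t l) =
      ((1 - q) * (1 - t)) • RR q t l (β ++ [m]) := by
  induction β using List.reverseRecOn generalizing m with
  | nil =>
    have e : RR q t l ([] ++ [m]) = EE q t l [m] - EE q t m [l] - isum l m fun X => Dz q t X * Dz q t (m + l - X) := by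
      unfold RR
      rw [List.nil_append, List.length_singleton, Finset.sum_range_one]
      rfl
    rw [e]
    exact Rel q t l m
  | append_singleton β m0 ih =>
    have e0 : β ++ [m0] ++ [m] = β ++ [m0, m] := by simp
    rw [e0]
    have e1 : Es q t (β ++ [m0, m]) = ls fun r : ℕ => (q * t) ^ r • (Es q t (β ++ [m0 + r]) * Dz q t (m - r)) :=
      Rs q t β m0 m []
    have f1 : LF fun r : ℕ => (q * t) ^ r • (Es q t (β ++ [m0 + r]) * Dz q t (m - r)) := LF_Es q t β m0 m []
    have f2 := RR_LF q t β m0 m l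
    rw [← RR_step, e1, ← ls_mul_left f1, ← ls_mul_right f1, ← ls_sub (f1.mul_left _) (f1.mul_right _),
      ← ls_smul ((f1.mul_left _).sub (f1.mul_right _)), ← ls_smul f2]
    refine ls_congr fun r => ?_
    exact TwE_term (q * t) ((1 - q) * (1 - t)) r _ _ _ _ _ (ih _) (Rel q t l (m - r))

end NG
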